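import Pool.Agent.Helper11.RRCA.Group

/-!
# The action of the rational Cherednik algebra on the model
-/

namespace Pool.Agent.Helper11.RRCA

noncomputable section

theorem rf_symm (i j : Fin 4) (k : ZMod 5) : rf i j k = rf j i (-k) := by
  apply Subtype.ext
  change mono (dv i j k) (Equiv.swap i j) = mono (dv j i (-k)) (Equiv.swap j i)
  rw [Equiv.swap_comm]
  congr 1
  unfold dv
  rw [Pi.single_neg, Pi.single_neg]
  abel

theorem wp_dv (w : B) (i j : Fin 4) (k : ZMod 5) : wp w (dv i j k) = (u w i - u w j) * k := by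
  unfold wp dv
  simp [mul_sub, Finset.sum_sub_distrib, Pi.single_apply]
  ring

theorem opG_rf_eB {i j : Fin 4} (h : i ≠ j) (k : ZMod 5) (w : B) :
    opG (rf i j k) (eB w) =
      (ψ (k * -(u w i - u w j)) * ((ts w.code : ℤ) : ℂ)) • eB (permB (Equiv.swap i j) w) := by
  rw [rf, opG_el, opM_eB, chi_swap h]
  have h1 : -∑ l, u w l * dv i j k l = k * -(u w i - u w j) := by
    have := wp_dv w i j k
    unfold wp at this
    rw [this]
    ring
  rw [h1]

theorem pairing_def (s : G554) (v : V4) (ξ : Module.Dual ℂ V4) : R554.pairing s v ξ =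
    2 / (1 - LinearMap.det ((s : V4 ≃ₗ[ℂ] V4) : V4 →ₗ[ℂ] V4)) *
      ξ (v - (s : V4 ≃ₗ[ℂ] V4) v) := rfl

theorem pairing_bilin (s : G554) (v : V4) (ξ : Module.Dual ℂ V4) :
    R554.pairing s v ξ =
      ∑ b, ∑ a, v b * ξ (e4 a) * R554.pairing s (e4 b) (LinearMap.proj a : V4 →ₗ[ℂ] ℂ) := by
  have h1 : ∀ z : V4, ξ z = ∑ a, z a * ξ (e4 a) := by
    intro z
    conv_lhs => rw [v4_eq_sum z, map_sum]
    refine Finset.sum_congr rfl fun a _ => ?_
    rw [map_smul, smul_eq_mul]
  have h2 : ∀ a, (v - (s : V4 ≃ₗ[ℂ] V4) v) a =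
      ∑ b, v b * (e4 b - (s : V4 ≃ₗ[ℂ] V4) (e4 b)) a := by
    intro a
    have h3 : v - (s : V4 ≃ₗ[ℂ] V4) v = ∑ b, v b • (e4 b - (s : V4 ≃ₗ[ℂ] V4) (e4 b)) := by
      conv_lhs => rw [v4_eq_sum v, map_sum, ← Finset.sum_sub_distrib]
      refine Finset.sum_congr rfl fun b _ => ?_
      rw [map_smul, smul_sub]
    rw [h3, Finset.sum_apply]
    rfl
  simp_rw [pairing_def]
  rw [h1, Finset.mul_sum]
  simp_rw [h2, Finset.sum_mul, Finset.mul_sum]
  rw [Finset.sum_comm]
  refine Finset.sum_congr rfl fun b _ => Finset.sum_congr rfl fun a _ => ?_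
  rw [LinearMap.proj_apply]
  ring

instance : Finite R554.Ref := by
  have := G554_finite
  exact Finite.of_injective (β := G554) (fun s : R554.Ref => s.1) fun s t h => Subtype.ext h

/-- The reflections moving `e_b`. -/
def rfB (b : Fin 4) (p : {j : Fin 4 // j ≠ b} × ZMod 5) : R554.Ref :=
  rfR b p.1.1 p.1.2.symm p.2

theorem rfB_inj (b : Fin 4) : Function.Injective (rfB b) := by
  rintro ⟨⟨j, hj⟩, k⟩ ⟨⟨j', hj'⟩, k'⟩ h
  have h1 : mono (dv b j k) (Equiv.swap b j) = mono (dv b j' k') (Equiv.swap b j') :=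
    congrArg (fun g : G554 => (g : V4 ≃ₗ[ℂ] V4))
      (show rf b j k = rf b j' k' from congrArg Subtype.val h)
  obtain ⟨h2, h3⟩ := mono_inj h1
  have h4 : j = j' := by
    have := congrArg (fun τ : Equiv.Perm (Fin 4) => τ b) h3
    simpa using this
  subst h4
  have h5 : k = k' := by
    have := congrFun h2 b
    rwa [dv_left (Ne.symm hj), dv_left (Ne.symm hj)] at this
  rw [h5]

theorem pairing_zero_of_not_range (b : Fin 4) (s : R554.Ref) (hs : s ∉ Set.range (rfB b))
    (ξ : Module.Dual ℂ V4) : R554.pairing s.1 (e4 b) ξ = 0 := by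
  obtain ⟨i, j, k, h, hsij⟩ := refl_classify' s
  by_cases h1 : i = b
  · subst h1
    exact absurd ⟨(⟨j, h.symm⟩, k), Subtype.ext hsij.symm⟩ hs
  · by_cases h2 : j = b
    · subst h2
      refine absurd ⟨(⟨i, h⟩, -k), Subtype.ext ?_⟩ hs
      rw [hsij]
      exact (rf_symm i j k).symm
    · rw [hsij, pairing_rf h, e4_apply, e4_apply, if_neg h1, if_neg h2]
      ring

theorem wd_le (n k : ℕ) : wd n k ≤ 3 := by
  unfold wd wt
  have := dig_lt n k
  split_ifs <;> omega

theorem u_eq_iff (w : B) (i j : Fin 4) : -(u w i - u w j) = 0 ↔ wd w.code i = wd w.code j := by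
  have h1 := wd_le w.code i
  have h2 := wd_le w.code j
  rw [neg_eq_zero, sub_eq_zero]
  unfold u
  rw [ZMod.natCast_eq_natCast_iff']
  omega

theorem u_succ_iff (w : B) (i j : Fin 4) :
    1 + -(u w i - u w j) = 0 ↔ wd w.code i = wd w.code j + 1 := by
  have h1 := wd_le w.code i
  have h2 := wd_le w.code j
  have h3 : 1 + -(u w i - u w j) = 0 ↔ u w i = u w j + 1 := by
    constructor
    · intro h
      linear_combination -h
    · intro h
      rw [h]
      ring
  rw [h3]
  unfold u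
  have h4 : ((wd w.code j : ℕ) : ZMod 5) + 1 = ((wd w.code j + 1 : ℕ) : ZMod 5) := by
    push_cast
    ring
  rw [h4, ZMod.natCast_eq_natCast_iff']
  omega

theorem sum_ψ (x : ZMod 5) : ∑ k : ZMod 5, ψ (k * x) = if x = 0 then 5 else 0 := by
  have h := AddChar.sum_mulShift x (ZMod.isPrimitive_stdAddChar 5)
  unfold ψ
  rw [h]
  split_ifs <;> simp

theorem ev_sum_filter (L : List ℕ) (P : ℕ → Bool) (f : ℕ → ℤ × ℕ) :
    ev ((L.filter P).map f) = (L.map fun j => if P j then ev [f j] else 0).sum := by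
  induction L with
  | nil => simp [ev_nil]
  | cons a L ih =>
    rw [List.filter_cons, List.map_cons, List.sum_cons, ← ih]
    cases h : P a
    · simp
    · simp only [if_true, List.map_cons]
      rw [← ev_append, List.singleton_append]

theorem ev_commR_self (b : Fin 4) (w : B) :
    ev (commR b.val b.val w.code) = ∑ j : {j : Fin 4 // j ≠ b},
      (if wd w.code b = wd w.code j.1 then -((ts w.code : ℤ) : ℂ) else 0) •
        eB (permB (Equiv.swap b j.1) w) := by
  unfold commR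
  rw [if_pos rfl, ev_sum_filter]
  have key : ∀ j : Fin 4,
      (if (decide (j.val ≠ b.val) && decide (wd w.code j.val = wd w.code b.val)) = true then
        ev [(-ts w.code, swapC b.val j.val w.code)] else 0) =
      if h : j ≠ b then (if wd w.code b = wd w.code j then -((ts w.code : ℤ) : ℂ) else 0) •
        eB (permB (Equiv.swap b j) w) else 0 := by
    intro j
    by_cases hj : j = b
    · rw [dif_neg (by simp [hj])]
      simp [hj]
    · rw [dif_pos hj]
      have hj' : j.val ≠ b.val := fun h => hj (Fin.ext h)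
      by_cases hw : wd w.code b = wd w.code j
      · rw [if_pos (by simp [hj', hw]), if_pos hw]
        have h1 := permC_swap_chk b j (Ne.symm hj) w.code w.code_lt
        have h2 : good (swapC b.val j.val w.code) = true := by
          rw [← h1, good_permC]; exact w.code_good
        rw [ev_cons (-ts w.code, swapC b.val j.val w.code) [] (by rw [← h1]; exact permC_lt _ _) h2,
          ev_nil, add_zero]
        have h3 : permB (Equiv.swap b j) w =
            mkB (swapC b.val j.val w.code) (by rw [← h1]; exact permC_lt _ _) h2 :=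
          B.code_inj (by rw [permB_code, mkB_code, h1])
        rw [h3]
        push_cast
        rfl
      · rw [if_neg (by simp [Ne.symm hw]), if_neg hw, zero_smul]
  have h0 : ([0, 1, 2, 3].map fun j : ℕ =>
      if (decide (j ≠ b.val) && decide (wd w.code j = wd w.code b.val)) = true then
        ev [(-ts w.code, swapC b.val j w.code)] else 0).sum =
      ∑ j : Fin 4, if (decide (j.val ≠ b.val) && decide (wd w.code j.val = wd w.code b.val)) = true then
        ev [(-ts w.code, swapC b.val j.val w.code)] else 0 := by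
    rw [Fin.sum_univ_four]
    simp only [List.map_cons, List.map_nil, List.sum_cons, List.sum_nil, add_zero, add_assoc]
    rfl
  rw [h0]
  simp_rw [key]
  symm
  refine Fintype.sum_of_injective (Subtype.val : {j : Fin 4 // j ≠ b} → Fin 4)
    Subtype.val_injective _ _ ?_ ?_
  · intro j hj
    rw [dif_neg]
    intro h
    exact hj ⟨⟨j, h⟩, rfl⟩
  · intro j
    rw [dif_pos j.2]

theorem ev_commR_ne {b a : Fin 4} (h : a ≠ b) (w : B) :
    ev (commR b.val a.val w.code) =
      (if wd w.code b = wd w.code a + 1 then ((ts w.code : ℤ) : ℂ) else 0) •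
        eB (permB (Equiv.swap b a) w) := by
  unfold commR
  rw [if_neg fun h' => h (Fin.ext h')]
  by_cases hw : wd w.code b = wd w.code a + 1
  · rw [if_pos hw, if_pos hw]
    have h1 := permC_swap_chk b a (Ne.symm h) w.code w.code_lt
    have h2 : good (swapC b.val a.val w.code) = true := by
      rw [← h1, good_permC]; exact w.code_good
    rw [ev_cons (ts w.code, swapC b.val a.val w.code) [] (by rw [← h1]; exact permC_lt _ _) h2,
      ev_nil, add_zero]
    have h3 : permB (Equiv.swap b a) w =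
        mkB (swapC b.val a.val w.code) (by rw [← h1]; exact permC_lt _ _) h2 :=
      B.code_inj (by rw [permB_code, mkB_code, h1])
    rw [h3]
  · rw [if_neg hw, if_neg hw, ev_nil, zero_smul]

/-- The sum over the reflections, on basis vectors. -/
theorem sum_refl (c0 : ℂ) (b a : Fin 4) (w : B) [Fintype (R554.Ref)] :
    ∑ s : R554.Ref, (c0 * R554.pairing s.1 (e4 b) (LinearMap.proj a : V4 →ₗ[ℂ] ℂ)) •
      opG s.1 (eB w) = -((5 * c0) • ev (commR b.val a.val w.code)) := by
  have h0 : ∑ s : R554.Ref, (c0 * R554.pairing s.1 (e4 b) (LinearMap.proj a : V4 →ₗ[ℂ] ℂ)) •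
      opG s.1 (eB w) = ∑ p : {j : Fin 4 // j ≠ b} × ZMod 5,
        (c0 * ((if a = b then 1 else 0) - ψ p.2 * (if a = p.1.1 then 1 else 0))) •
          (ψ (p.2 * -(u w b - u w p.1.1)) * ((ts w.code : ℤ) : ℂ)) •
            eB (permB (Equiv.swap b p.1.1) w) := by
    symm
    refine Fintype.sum_of_injective (rfB b) (rfB_inj b) _ _ ?_ ?_
    · intro s hs
      rw [pairing_zero_of_not_range b s hs, mul_zero, zero_smul]
    · rintro ⟨⟨j, hj⟩, k⟩
      have h1 : (rfB b (⟨j, hj⟩, k)).1 = rf b j k := rfl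
      rw [h1, pairing_rf (Ne.symm hj), opG_rf_eB (Ne.symm hj)]
      simp only [LinearMap.proj_apply, e4_apply, if_true, hj, if_false, mul_zero,
        sub_zero, one_mul]
  rw [h0, Fintype.sum_prod_type]
  by_cases hab : a = b
  · subst hab
    rw [ev_commR_self, Finset.smul_sum, ← Finset.sum_neg_distrib]
    refine Finset.sum_congr rfl fun j _ => ?_
    have hj : a ≠ j.1 := Ne.symm j.2
    simp only [if_true, hj, if_false, mul_zero, sub_zero, mul_one]
    simp_rw [smul_smul]
    rw [← Finset.sum_smul, ← neg_smul]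
    congr 1
    have h1 : ∑ k : ZMod 5, c0 * (ψ (k * -(u w a - u w j.1)) * ((ts w.code : ℤ) : ℂ)) =
        c0 * ((ts w.code : ℤ) : ℂ) * ∑ k : ZMod 5, ψ (k * -(u w a - u w j.1)) := by
      rw [Finset.mul_sum]
      refine Finset.sum_congr rfl fun k _ => ?_
      ring
    rw [h1, sum_ψ]
    by_cases hw : wd w.code a = wd w.code j.1
    · rw [if_pos ((u_eq_iff w a j.1).2 hw), if_pos hw]
      ring
    · rw [if_neg (fun h => hw ((u_eq_iff w a j.1).1 h)), if_neg hw]
      ring
  · rw [ev_commR_ne hab]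
    rw [Finset.sum_eq_single (⟨a, hab⟩ : {j : Fin 4 // j ≠ b})]
    · simp only [if_neg hab, if_true, mul_one, zero_sub]
      simp_rw [smul_smul]
      rw [← Finset.sum_smul, ← neg_smul]
      congr 1
      have h1 : ∑ k : ZMod 5, c0 * -ψ k * (ψ (k * -(u w b - u w a)) * ((ts w.code : ℤ) : ℂ)) =
          -(c0 * ((ts w.code : ℤ) : ℂ)) * ∑ k : ZMod 5, ψ (k * (1 + -(u w b - u w a))) := by
        rw [Finset.mul_sum]
        refine Finset.sum_congr rfl fun k _ => ?_
        rw [mul_add, mul_one, AddChar.map_add_eq_mul]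
        ring
      rw [h1, sum_ψ]
      by_cases hw : wd w.code b = wd w.code a + 1
      · rw [if_pos ((u_succ_iff w b a).2 hw), if_pos hw]
        ring
      · rw [if_neg (fun h => hw ((u_succ_iff w b a).1 h)), if_neg hw]
        ring
    · intro j _ hj
      have hj' : a ≠ j.1 := fun h => hj (Subtype.ext h.symm)
      refine Finset.sum_eq_zero fun k _ => ?_
      simp only [if_neg hab, if_neg hj', mul_zero, sub_zero, zero_smul]
    · intro h
      exact absurd (Finset.mem_univ _) h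

/-- The action of `𝔥^*`. -/
def XX (ξ : Module.Dual ℂ V4) : Module.End ℂ Sp := ∑ a, ξ (e4 a) • X a

/-- The action of `𝔥`. -/
def YY (κ : ℂ) (v : V4) : Module.End ℂ Sp := ∑ b, (κ * v b) • Y b

/-- The action on generators. -/
def act (κ : ℂ) : R554.Gen → Module.End ℂ Sp
  | .x ξ => XX ξ
  | .y v => YY κ v
  | .w g => opG g

theorem opG_XX (g : G554) (ξ : Module.Dual ℂ V4) :
    opG g ∘ₗ XX ξ = XX (ξ ∘ₗ ((g⁻¹ : G554) : V4 ≃ₗ[ℂ] V4).toLinearMap) ∘ₗ opG g := by
  obtain ⟨a, σ, ha, rfl⟩ := exists_el g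
  unfold XX
  rw [opG_el]
  rw [← Equiv.sum_comp σ fun k => (ξ ∘ₗ (((el a σ ha)⁻¹ : G554) : V4 ≃ₗ[ℂ] V4).toLinearMap) (e4 k) • X k]
  change (opM a σ : Module.End ℂ Sp) * (∑ k, ξ (e4 k) • X k : Module.End ℂ Sp) =
    (∑ k, (ξ ∘ₗ (((el a σ ha)⁻¹ : G554) : V4 ≃ₗ[ℂ] V4).toLinearMap) (e4 (σ k)) • X (σ k) :
      Module.End ℂ Sp) * (opM a σ : Module.End ℂ Sp)
  rw [Finset.mul_sum, Finset.sum_mul]
  refine Finset.sum_congr rfl fun k _ => ?_
  rw [mul_smul_comm, smul_mul_assoc]
  have h0 : (opM a σ : Module.End ℂ Sp) * (X k : Module.End ℂ Sp) =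
      ψ (-a k) • ((X (σ k) : Module.End ℂ Sp) * (opM a σ : Module.End ℂ Sp)) := opM_X a σ k
  rw [h0]
  have h1 : (ξ ∘ₗ (((el a σ ha)⁻¹ : G554) : V4 ≃ₗ[ℂ] V4).toLinearMap) (e4 (σ k)) =
      ψ (-a k) * ξ (e4 k) := by
    rw [LinearMap.comp_apply]
    have h2 := el_inv_e4 a σ ha k
    change ξ ((((el a σ ha)⁻¹ : G554) : V4 ≃ₗ[ℂ] V4) (e4 (σ k))) = _
    rw [h2, map_smul, smul_eq_mul]
  rw [h1, smul_smul]
  congr 1
  ring

theorem opG_YY (κ : ℂ) (g : G554) (v : V4) :
    opG g ∘ₗ YY κ v = YY κ ((g : V4 ≃ₗ[ℂ] V4) v) ∘ₗ opG g := by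
  obtain ⟨a, σ, ha, rfl⟩ := exists_el g
  unfold YY
  rw [opG_el]
  rw [← Equiv.sum_comp σ fun k => (κ * ((el a σ ha : G554) : V4 ≃ₗ[ℂ] V4) v k) • Y k]
  change (opM a σ : Module.End ℂ Sp) * (∑ k, (κ * v k) • Y k : Module.End ℂ Sp) =
    (∑ k, (κ * ((el a σ ha : G554) : V4 ≃ₗ[ℂ] V4) v (σ k)) • Y (σ k) :
      Module.End ℂ Sp) * (opM a σ : Module.End ℂ Sp)
  rw [Finset.mul_sum, Finset.sum_mul]
  refine Finset.sum_congr rfl fun k _ => ?_
  rw [mul_smul_comm, smul_mul_assoc]
  have h0 : (opM a σ : Module.End ℂ Sp) * (Y k : Module.End ℂ Sp) =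
      ψ (a k) • ((Y (σ k) : Module.End ℂ Sp) * (opM a σ : Module.End ℂ Sp)) := opM_Y a σ k
  rw [h0]
  have h1 : ((el a σ ha : G554) : V4 ≃ₗ[ℂ] V4) v (σ k) = ψ (a k) * v k := by
    rw [el_val, mono_apply, monoL_apply, p_ia]
  rw [h1, smul_smul]
  congr 1
  ring

theorem XX_comm (ξ η : Module.Dual ℂ V4) : XX ξ * XX η = XX η * XX ξ := by
  have h : ∀ ξ η : Module.Dual ℂ V4, XX ξ * XX η =
      ∑ a, ∑ b, (ξ (e4 a) * η (e4 b)) • ((X a : Module.End ℂ Sp) * (X b : Module.End ℂ Sp)) := by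
    intro ξ η
    unfold XX
    rw [Finset.sum_mul_sum]
    refine Finset.sum_congr rfl fun a _ => Finset.sum_congr rfl fun b _ => ?_
    rw [smul_mul_smul_comm]
  rw [h, h, Finset.sum_comm]
  refine Finset.sum_congr rfl fun a _ => Finset.sum_congr rfl fun b _ => ?_
  have h0 : (X b : Module.End ℂ Sp) * (X a : Module.End ℂ Sp) = X a * X b := X_comm b a
  rw [h0, mul_comm (ξ (e4 b))]

theorem YY_comm (κ : ℂ) (v w : V4) : YY κ v * YY κ w = YY κ w * YY κ v := by
  have h : ∀ v w : V4, YY κ v * YY κ w =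
      ∑ a, ∑ b, ((κ * v a) * (κ * w b)) • ((Y a : Module.End ℂ Sp) * (Y b : Module.End ℂ Sp)) := by
    intro v w
    unfold YY
    rw [Finset.sum_mul_sum]
    refine Finset.sum_congr rfl fun a _ => Finset.sum_congr rfl fun b _ => ?_
    rw [smul_mul_smul_comm]
  rw [h, h, Finset.sum_comm]
  refine Finset.sum_congr rfl fun a _ => Finset.sum_congr rfl fun b _ => ?_
  have h0 : (Y b : Module.End ℂ Sp) * (Y a : Module.End ℂ Sp) = Y a * Y b := Y_comm b a
  rw [h0, mul_comm (κ * v b)]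

theorem YY_XX (c0 : ℂ) (v : V4) (ξ : Module.Dual ℂ V4) [Fintype (R554.Ref)] :
    YY (5 * c0) v * XX ξ - XX ξ * YY (5 * c0) v =
      -∑ s : R554.Ref, (c0 * R554.pairing s.1 v ξ) • opG s.1 := by
  refine ext_eB fun w => ?_
  have hR : (-∑ s : R554.Ref, (c0 * R554.pairing s.1 v ξ) • opG s.1) (eB w) =
      ∑ b, ∑ a, (v b * ξ (e4 a)) • ((5 * c0) • ev (commR b.val a.val w.code)) := by
    rw [LinearMap.neg_apply, LinearMap.sum_apply]
    have h1 : ∀ s : R554.Ref, ((c0 * R554.pairing s.1 v ξ) • opG s.1) (eB w) =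
        ∑ b, ∑ a, (v b * ξ (e4 a)) • ((c0 * R554.pairing s.1 (e4 b)
          (LinearMap.proj a : V4 →ₗ[ℂ] ℂ)) • opG s.1 (eB w)) := by
      intro s
      rw [LinearMap.smul_apply, pairing_bilin _ v ξ, Finset.mul_sum, Finset.sum_smul]
      refine Finset.sum_congr rfl fun b _ => ?_
      rw [Finset.mul_sum, Finset.sum_smul]
      refine Finset.sum_congr rfl fun a _ => ?_
      rw [smul_smul]
      congr 1
      ring
    simp_rw [h1]
    rw [Finset.sum_comm, ← Finset.sum_neg_distrib]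
    refine Finset.sum_congr rfl fun b _ => ?_
    rw [Finset.sum_comm, ← Finset.sum_neg_distrib]
    refine Finset.sum_congr rfl fun a _ => ?_
    rw [← Finset.smul_sum, sum_refl, smul_neg, neg_neg]
  rw [hR, LinearMap.sub_apply, Module.End.mul_apply, Module.End.mul_apply]
  have hx : ∀ m, XX ξ m = ∑ a, ξ (e4 a) • X a m := by
    intro m
    unfold XX
    rw [LinearMap.sum_apply]
    rfl
  have hy : ∀ m, YY (5 * c0) v m = ∑ b, (5 * c0 * v b) • Y b m := by
    intro m
    unfold YY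
    rw [LinearMap.sum_apply]
    rfl
  rw [hy, hx (YY (5 * c0) v (eB w)), hy, hx]
  simp_rw [map_sum, map_smul, Finset.smul_sum]
  conv_lhs => rw [Finset.sum_comm (s := Finset.univ) (t := Finset.univ)
    (f := fun (a b : Fin 4) => ξ (e4 a) • (5 * c0 * v b) • (X a) ((Y b) (eB w)))]
  rw [← Finset.sum_sub_distrib]
  refine Finset.sum_congr rfl fun b _ => ?_
  rw [← Finset.sum_sub_distrib]
  refine Finset.sum_congr rfl fun a _ => ?_
  rw [← YX_comm, smul_smul, smul_smul, smul_smul, smul_sub]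
  congr 1
  · congr 1
    ring
  · congr 1
    ring

end

end Pool.Agent.Helper11.RRCA
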