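import Mathlib

/-!
# Restricted rational Cherednik algebras, baby Verma modules and their simple quotients

General definitions for the problem `MP_b4b244_al`.

Structures of rings and modules on the algebras and modules defined here are given by named
definitions, so that terms stay short.
-/

open scoped TensorProduct


namespace Pool.Agent.Helper11.RRCA

/-- A complex vector space `𝔥 = V` together with a linear action `τ` of a group `W`. -/
structure Datum where
  /-- the vector space `𝔥` -/
  V : Type
  /-- the group -/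
  W : Type
  [acg : AddCommGroup V]
  [mod : Module ℂ V]
  [grp : Group W]
  /-- the action of `W` on `𝔥` -/
  τ : Representation ℂ W V

attribute [instance] Datum.acg Datum.mod Datum.grp

namespace Datum

/-- The linear map by which an element of `W` acts on `𝔥`. -/
def op (D : Datum) (s : D.W) : D.V →ₗ[ℂ] D.V := D.τ s

/-- A reflection: an element `s` of `W` such that `s - 1` has rank one on `𝔥`. -/
def IsReflection (D : Datum) (s : D.W) : Prop := LinearMap.rank (D.op s - LinearMap.id) = 1

/-- A finite complex reflection group: a finite group acting faithfully on a finite-dimensional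
complex vector space (so, a finite subgroup of `GL(𝔥)`) which is generated by its reflections. -/
structure IsComplexReflectionGroup (D : Datum) : Prop where
  finite : Finite D.W
  finiteDimensional : FiniteDimensional ℂ D.V
  faithful : Function.Injective D.op
  generated : Subgroup.closure {s | D.IsReflection s} = ⊤

/-- The set `Ref(W)` of reflections of `W`. -/
abbrev Ref (D : Datum) : Type := {s : D.W // D.IsReflection s}

/-- A parameter: a conjugation invariant function on the set of reflections. -/
def IsParameter (D : Datum) (c : D.Ref → ℂ) : Prop :=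
  ∀ (w : D.W) (s t : D.Ref), t.1 = w * s.1 * w⁻¹ → c t = c s

/-- For a reflection `s`, the number `⟨y, α_s⟩⟨α_s^∨, x⟩`, where `α_s ∈ 𝔥^*` spans the image of
`s - 1` on `𝔥^*`, `α_s^∨ ∈ 𝔥` spans the image of `s - 1` on `𝔥` and `⟨α_s^∨, α_s⟩ = 2`.
Here `det s` is the eigenvalue of `s` on `𝔥` different from `1`. -/
noncomputable def pairing (D : Datum) (s : D.W) (y : D.V) (x : Module.Dual ℂ D.V) : ℂ :=
  2 / (1 - LinearMap.det (D.op s)) * x (y - D.op s y)

/-- Generators of the rational Cherednik algebra: the elements of `𝔥^*`, of `𝔥` and of `W`. -/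
inductive Gen (D : Datum) : Type
  | x : Module.Dual ℂ D.V → Gen D
  | y : D.V → Gen D
  | w : D.W → Gen D

/-- The degrees of the generators. -/
def deg (D : Datum) : D.Gen → ℤ
  | .x _ => 1
  | .y _ => -1
  | .w _ => 0

/-- The free algebra on the generators. -/
abbrev Free (D : Datum) : Type := FreeAlgebra ℂ D.Gen

/-- The generator of the free algebra given by an element of `𝔥^*`. -/
noncomputable def fx (D : Datum) (a : Module.Dual ℂ D.V) : D.Free := FreeAlgebra.ι ℂ (Gen.x a)

/-- The generator of the free algebra given by an element of `𝔥`. -/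
noncomputable def fy (D : Datum) (v : D.V) : D.Free := FreeAlgebra.ι ℂ (Gen.y v)

/-- The generator of the free algebra given by an element of `W`. -/
noncomputable def fw (D : Datum) (g : D.W) : D.Free := FreeAlgebra.ι ℂ (Gen.w g)

/-- The relations of the rational Cherednik algebra at `t = 0` with parameter `c`. -/
inductive Rel (D : Datum) (c : D.Ref → ℂ) : D.Free → D.Free → Prop
  | x_add (a b : Module.Dual ℂ D.V) : Rel D c (D.fx (a + b)) (D.fx a + D.fx b)
  | x_smul (r : ℂ) (a : Module.Dual ℂ D.V) : Rel D c (D.fx (r • a)) (r • D.fx a)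
  | y_add (a b : D.V) : Rel D c (D.fy (a + b)) (D.fy a + D.fy b)
  | y_smul (r : ℂ) (a : D.V) : Rel D c (D.fy (r • a)) (r • D.fy a)
  | w_one : Rel D c (D.fw 1) 1
  | w_mul (g h : D.W) : Rel D c (D.fw (g * h)) (D.fw g * D.fw h)
  | w_x (g : D.W) (a : Module.Dual ℂ D.V) :
      Rel D c (D.fw g * D.fx a) (D.fx (a ∘ₗ D.op g⁻¹) * D.fw g)
  | w_y (g : D.W) (v : D.V) : Rel D c (D.fw g * D.fy v) (D.fy (D.op g v) * D.fw g)
  | x_comm (a b : Module.Dual ℂ D.V) : Rel D c (D.fx a * D.fx b) (D.fx b * D.fx a)
  | y_comm (a b : D.V) : Rel D c (D.fy a * D.fy b) (D.fy b * D.fy a)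
  | y_x (v : D.V) (a : Module.Dual ℂ D.V) :
      Rel D c (D.fy v * D.fx a - D.fx a * D.fy v)
        (-∑ᶠ s : D.Ref, (c s * D.pairing s.1 v a) • D.fw s.1)

/-- The rational Cherednik algebra `H_c` of `W` at `t = 0`. -/
def Cherednik (D : Datum) (c : D.Ref → ℂ) : Type := RingQuot (D.Rel c)

/-- The ring structure of `H_c`. -/
noncomputable def ringH (D : Datum) (c : D.Ref → ℂ) : Ring (D.Cherednik c) :=
  RingQuot.instRing (D.Rel c)

noncomputable instance (D : Datum) (c : D.Ref → ℂ) : Ring (D.Cherednik c) := D.ringH c

/-- The algebra structure of `H_c`. -/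
noncomputable def algebraH (D : Datum) (c : D.Ref → ℂ) : Algebra ℂ (D.Cherednik c) :=
  RingQuot.instAlgebra (D.Rel c)

noncomputable instance (D : Datum) (c : D.Ref → ℂ) : Algebra ℂ (D.Cherednik c) := D.algebraH c

/-- The image of a generator in `H_c`. -/
noncomputable def gen (D : Datum) (c : D.Ref → ℂ) (z : D.Gen) : D.Cherednik c :=
  RingQuot.mkAlgHom ℂ (D.Rel c) (FreeAlgebra.ι ℂ z)

/-- The linear span of the nonempty products of elements of `𝔥^*` in `H_c`. -/
noncomputable def posX (D : Datum) (c : D.Ref → ℂ) : Submodule ℂ (D.Cherednik c) :=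
  Submodule.span ℂ {z | ∃ l : List (Module.Dual ℂ D.V), l ≠ [] ∧
    z = (l.map fun a => D.gen c (.x a)).prod}

/-- The linear span of the nonempty products of elements of `𝔥` in `H_c`. -/
noncomputable def posY (D : Datum) (c : D.Ref → ℂ) : Submodule ℂ (D.Cherednik c) :=
  Submodule.span ℂ {z | ∃ l : List D.V, l ≠ [] ∧ z = (l.map fun a => D.gen c (.y a)).prod}

/-- The elements to be set to zero: the `W`-invariants without constant term in `ℂ[𝔥]` and
in `ℂ[𝔥^*]`. -/
def IsPosInv (D : Datum) (c : D.Ref → ℂ) (a : D.Cherednik c) : Prop :=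
  (a ∈ D.posX c ∨ a ∈ D.posY c) ∧ ∀ g, D.gen c (.w g) * a = a * D.gen c (.w g)

/-- The relations cutting out the restricted algebra. -/
def RestrictedRel (D : Datum) (c : D.Ref → ℂ) (a b : D.Cherednik c) : Prop :=
  D.IsPosInv c a ∧ b = 0

/-- The restricted rational Cherednik algebra. -/
def Restricted (D : Datum) (c : D.Ref → ℂ) : Type := RingQuot (D.RestrictedRel c)

/-- The ring structure of the restricted algebra. -/
noncomputable def ringR (D : Datum) (c : D.Ref → ℂ) : Ring (D.Restricted c) :=
  RingQuot.instRing (D.RestrictedRel c)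

noncomputable instance (D : Datum) (c : D.Ref → ℂ) : Ring (D.Restricted c) := D.ringR c

/-- The algebra structure of the restricted algebra. -/
noncomputable def algebraR (D : Datum) (c : D.Ref → ℂ) : Algebra ℂ (D.Restricted c) :=
  RingQuot.instAlgebra (D.RestrictedRel c)

noncomputable instance (D : Datum) (c : D.Ref → ℂ) : Algebra ℂ (D.Restricted c) := D.algebraR c

/-- The image of a generator in the restricted algebra. -/
noncomputable def rgen (D : Datum) (c : D.Ref → ℂ) (z : D.Gen) : D.Restricted c :=
  RingQuot.mkAlgHom ℂ (D.RestrictedRel c) (D.gen c z)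

/-- The degree `i` part of the restricted algebra. -/
noncomputable def degPart (D : Datum) (c : D.Ref → ℂ) (i : ℤ) : Submodule ℂ (D.Restricted c) :=
  Submodule.span ℂ {z | ∃ l : List D.Gen, (l.map D.deg).sum = i ∧ z = (l.map (D.rgen c)).prod}

/-- A representation of `W`. -/
structure Rep (D : Datum) where
  /-- the underlying space -/
  E : Type
  [acg : AddCommGroup E]
  [mod : Module ℂ E]
  /-- the action of `W` -/
  ρ : Representation ℂ D.W E

attribute [instance] Rep.acg Rep.mod

/-- The restricted algebra tensored with a representation. -/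
def Ind (D : Datum) (c : D.Ref → ℂ) (L : D.Rep) : Type := D.Restricted c ⊗[ℂ] L.E

/-- The additive group structure of the tensor product. -/
noncomputable def indGroup (D : Datum) (c : D.Ref → ℂ) (L : D.Rep) : AddCommGroup (D.Ind c L) :=
  (inferInstance : AddCommGroup (D.Restricted c ⊗[ℂ] L.E))

noncomputable instance (D : Datum) (c : D.Ref → ℂ) (L : D.Rep) : AddCommGroup (D.Ind c L) :=
  D.indGroup c L

/-- The tensor product as a left module over the restricted algebra. -/
noncomputable def indModule (D : Datum) (c : D.Ref → ℂ) (L : D.Rep) :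
    Module (D.Restricted c) (D.Ind c L) :=
  (inferInstance : Module (D.Restricted c) (D.Restricted c ⊗[ℂ] L.E))

noncomputable instance (D : Datum) (c : D.Ref → ℂ) (L : D.Rep) :
    Module (D.Restricted c) (D.Ind c L) := D.indModule c L

/-- The pure tensor `a ⊗ v`. -/
noncomputable def tm (D : Datum) (c : D.Ref → ℂ) (L : D.Rep) (a : D.Restricted c) (v : L.E) :
    D.Ind c L := a ⊗ₜ[ℂ] v

/-- The relations of the baby Verma module: `w ⊗ v = 1 ⊗ w v` and `y ⊗ v = 0`. -/
noncomputable def vermaRel (D : Datum) (c : D.Ref → ℂ) (L : D.Rep) :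
    Submodule (D.Restricted c) (D.Ind c L) :=
  Submodule.span (D.Restricted c)
    {z | (∃ g v, z = D.tm c L (D.rgen c (.w g)) v - D.tm c L 1 (L.ρ g v)) ∨
      ∃ y v, z = D.tm c L (D.rgen c (.y y)) v}

/-- The baby Verma module `Δ_c(λ)`. -/
def BabyVerma (D : Datum) (c : D.Ref → ℂ) (L : D.Rep) : Type := D.Ind c L ⧸ D.vermaRel c L

/-- The additive group structure of the baby Verma module. -/
noncomputable def vermaGroup (D : Datum) (c : D.Ref → ℂ) (L : D.Rep) :
    AddCommGroup (D.BabyVerma c L) := Submodule.Quotient.addCommGroup (D.vermaRel c L)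

noncomputable instance (D : Datum) (c : D.Ref → ℂ) (L : D.Rep) : AddCommGroup (D.BabyVerma c L) :=
  D.vermaGroup c L

/-- The module structure of the baby Verma module. -/
noncomputable def vermaModule (D : Datum) (c : D.Ref → ℂ) (L : D.Rep) :
    Module (D.Restricted c) (D.BabyVerma c L) := Submodule.Quotient.module (D.vermaRel c L)

noncomputable instance (D : Datum) (c : D.Ref → ℂ) (L : D.Rep) :
    Module (D.Restricted c) (D.BabyVerma c L) := D.vermaModule c L

/-- The class of `a ⊗ v` in the baby Verma module. -/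
noncomputable def vermaMk (D : Datum) (c : D.Ref → ℂ) (L : D.Rep) (a : D.Restricted c) (v : L.E) :
    D.BabyVerma c L := (D.vermaRel c L).mkQ (D.tm c L a v)

/-- The largest proper submodule of the baby Verma module: the sum of all proper submodules. -/
noncomputable def maxSubmodule (D : Datum) (c : D.Ref → ℂ) (L : D.Rep) :
    Submodule (D.Restricted c) (D.BabyVerma c L) := sSup {N | N ≠ ⊤}

/-- The simple quotient `L_c(λ)` of the baby Verma module. -/
def SimpleQuotient (D : Datum) (c : D.Ref → ℂ) (L : D.Rep) : Type :=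
  D.BabyVerma c L ⧸ D.maxSubmodule c L

/-- The additive group structure of `L_c(λ)`. -/
noncomputable def simpleGroup (D : Datum) (c : D.Ref → ℂ) (L : D.Rep) :
    AddCommGroup (D.SimpleQuotient c L) := Submodule.Quotient.addCommGroup (D.maxSubmodule c L)

noncomputable instance (D : Datum) (c : D.Ref → ℂ) (L : D.Rep) :
    AddCommGroup (D.SimpleQuotient c L) := D.simpleGroup c L

/-- The module structure of `L_c(λ)`. -/
noncomputable def simpleModule (D : Datum) (c : D.Ref → ℂ) (L : D.Rep) :
    Module (D.Restricted c) (D.SimpleQuotient c L) :=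
  Submodule.Quotient.module (D.maxSubmodule c L)

noncomputable instance (D : Datum) (c : D.Ref → ℂ) (L : D.Rep) :
    Module (D.Restricted c) (D.SimpleQuotient c L) := D.simpleModule c L

/-- The structure of complex vector space of `L_c(λ)`. -/
noncomputable def simpleSpace (D : Datum) (c : D.Ref → ℂ) (L : D.Rep) :
    Module ℂ (D.SimpleQuotient c L) :=
  Module.compHom (D.SimpleQuotient c L) (algebraMap ℂ (D.Restricted c))

noncomputable instance (D : Datum) (c : D.Ref → ℂ) (L : D.Rep) :
    Module ℂ (D.SimpleQuotient c L) := D.simpleSpace c L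

/-- The class in `L_c(λ)` of `a ⊗ v`. -/
noncomputable def simpleMk (D : Datum) (c : D.Ref → ℂ) (L : D.Rep) (a : D.Restricted c)
    (v : L.E) : D.SimpleQuotient c L := (D.maxSubmodule c L).mkQ (D.vermaMk c L a v)

/-- The degree `i` part of `L_c(λ)`; `λ` is placed in degree `0`. -/
noncomputable def simplePart (D : Datum) (c : D.Ref → ℂ) (L : D.Rep) (i : ℤ) :
    Submodule ℂ (D.SimpleQuotient c L) :=
  Submodule.span ℂ {z | ∃ a ∈ D.degPart c i, ∃ v, z = D.simpleMk c L a v}

/-- The Poincaré series of `L_c(λ)`, as the function `i ↦ dim L_c(λ)_i`. -/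
noncomputable def poincare (D : Datum) (c : D.Ref → ℂ) (L : D.Rep) (i : ℤ) : ℕ :=
  Module.finrank ℂ (D.simplePart c L i)

end Datum

/-- The Laurent polynomial `P(q) = ∑ i, P i q ^ i` is palindromic: `P(q) = q ^ d P(q⁻¹)` for some
`d`. -/
def IsPalindromic (P : ℤ → ℕ) : Prop := ∃ d : ℤ, ∀ i : ℤ, P i = P (d - i)

/-- `P_{c,λ}` is palindromic for generic `c`: for all `c` in a nonempty Zariski open subset of
the parameter space. -/
def PalindromicForGenericParameter (D : Datum) (L : D.Rep) : Prop :=
  ∃ f : MvPolynomial D.Ref ℂ,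
    (∃ c, D.IsParameter c ∧ MvPolynomial.eval c f ≠ 0) ∧
    ∀ c, D.IsParameter c → MvPolynomial.eval c f ≠ 0 → IsPalindromic (D.poincare c L)

end Pool.Agent.Helper11.RRCA
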