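import Pool.Agent.Helper11.RRCA.Space

/-!
# Equivariance of the operators
-/

namespace Pool.Agent.Helper11.RRCA

noncomputable section

theorem permC_swap_chk : ∀ i j : Fin 4, i ≠ j → ∀ n < 625,
    permC (Equiv.swap i j) n = swapC i.val j.val n := by decide +kernel

theorem sw_chk : ∀ i j a : Fin 4, sw i.val j.val a.val = (Equiv.swap i j a).val := by
  decide +kernel

theorem chi_swap {i j : Fin 4} (h : i ≠ j) (w : B) :
    chi (Equiv.swap i j) w = ((ts w.code : ℤ) : ℂ) := by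
  unfold chi ts
  rw [Equiv.Perm.sign_swap h]
  split_ifs <;> simp

theorem opM_swap_eB {i j : Fin 4} (h : i ≠ j) (w : B) :
    opM 0 (Equiv.swap i j) (eB w) = ((ts w.code : ℤ) : ℂ) • eB (permB (Equiv.swap i j) w) := by
  rw [opM_eB, chi_swap h]
  simp

theorem opM_swap_ev {i j : Fin 4} (h : i ≠ j) (L : List (ℤ × ℕ)) (hL : GoodL L) :
    opM 0 (Equiv.swap i j) (ev L) =
      ev (L.map fun p => (p.1 * ts p.2, swapC i.val j.val p.2)) := by
  induction L with
  | nil => rw [ev_nil, map_zero]; simp [ev_nil]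
  | cons p L ih =>
    obtain ⟨h1, h2⟩ := hL p (by simp)
    have hs : permC (Equiv.swap i j) p.2 = swapC i.val j.val p.2 := permC_swap_chk i j h p.2 h1
    have h3 : swapC i.val j.val p.2 < 625 := by rw [← hs]; exact permC_lt _ _
    have h4 : good (swapC i.val j.val p.2) = true := by rw [← hs, good_permC]; exact h2
    rw [ev_cons p L h1 h2, map_add, map_smul, opM_swap_eB h, List.map_cons,
      ev_cons (p.1 * ts p.2, swapC i.val j.val p.2) _ h3 h4, ih fun q hq => hL q (by simp [hq])]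
    have h5 : permB (Equiv.swap i j) (mkB p.2 h1 h2) =
        mkB (swapC i.val j.val p.2) h3 h4 :=
      B.code_inj (by rw [permB_code, mkB_code, mkB_code]; exact hs)
    rw [smul_smul, mkB_code, h5]
    push_cast
    rfl

theorem X_ev_eB (a : Fin 4) (σ : Equiv.Perm (Fin 4)) (w : B) :
    X a (eB (permB σ w)) = ev (xr a.val (permC σ w.code)) := by
  rw [X_eB, permB_code]

theorem Y_ev_eB (a : Fin 4) (σ : Equiv.Perm (Fin 4)) (w : B) :
    Y a (eB (permB σ w)) = ev (yr a.val (permC σ w.code)) := by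
  rw [Y_eB, permB_code]

theorem opM_swap_X {i j : Fin 4} (h : i ≠ j) (a : Fin 4) :
    opM 0 (Equiv.swap i j) ∘ₗ X a = X (Equiv.swap i j a) ∘ₗ opM 0 (Equiv.swap i j) := by
  refine ext_eB fun w => ?_
  rw [LinearMap.comp_apply, LinearMap.comp_apply, X_eB, opM_swap_ev h _ (goodL_xr_yr w a).1,
    opM_swap_eB h, map_smul, X_ev_eB, ← ev_scaleL, permC_swap_chk i j h _ w.code_lt, ← sw_chk]
  have h1 := all4_iff.1 (all4_iff.1 (allGood_iff.1 chk_sx w.code w.code_lt w.code_good) i.val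
    i.isLt) j.val j.isLt
  have hij : (i.val == j.val) = false := by simpa [Fin.ext_iff] using h
  rw [hij, Bool.false_or] at h1
  exact ev_eq_of_eqv (all4_iff.1 h1 a.val a.isLt)

theorem opM_swap_Y {i j : Fin 4} (h : i ≠ j) (a : Fin 4) :
    opM 0 (Equiv.swap i j) ∘ₗ Y a = Y (Equiv.swap i j a) ∘ₗ opM 0 (Equiv.swap i j) := by
  refine ext_eB fun w => ?_
  rw [LinearMap.comp_apply, LinearMap.comp_apply, Y_eB, opM_swap_ev h _ (goodL_xr_yr w a).2,
    opM_swap_eB h, map_smul, Y_ev_eB, ← ev_scaleL, permC_swap_chk i j h _ w.code_lt, ← sw_chk]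
  have h1 := all4_iff.1 (all4_iff.1 (allGood_iff.1 chk_sy w.code w.code_lt w.code_good) i.val
    i.isLt) j.val j.isLt
  have hij : (i.val == j.val) = false := by simpa [Fin.ext_iff] using h
  rw [hij, Bool.false_or] at h1
  exact ev_eq_of_eqv (all4_iff.1 h1 a.val a.isLt)

theorem opM_perm_mul (σ τ : Equiv.Perm (Fin 4)) : opM 0 (σ * τ) = opM 0 σ ∘ₗ opM 0 τ := by
  rw [opM_mul]
  congr 1

theorem opM_perm_X (σ : Equiv.Perm (Fin 4)) : ∀ a : Fin 4,
    opM 0 σ ∘ₗ X a = X (σ a) ∘ₗ opM 0 σ := by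
  refine Equiv.Perm.swap_induction_on σ ?_ ?_
  · intro a
    rw [opM_one, LinearMap.id_comp, LinearMap.comp_id, Equiv.Perm.one_apply]
  · intro f i j hij ih a
    rw [opM_perm_mul, LinearMap.comp_assoc, ih, ← LinearMap.comp_assoc, opM_swap_X hij,
      LinearMap.comp_assoc, Equiv.Perm.mul_apply]

theorem opM_perm_Y (σ : Equiv.Perm (Fin 4)) : ∀ a : Fin 4,
    opM 0 σ ∘ₗ Y a = Y (σ a) ∘ₗ opM 0 σ := by
  refine Equiv.Perm.swap_induction_on σ ?_ ?_
  · intro a
    rw [opM_one, LinearMap.id_comp, LinearMap.comp_id, Equiv.Perm.one_apply]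
  · intro f i j hij ih a
    rw [opM_perm_mul, LinearMap.comp_assoc, ih, ← LinearMap.comp_assoc, opM_swap_Y hij,
      LinearMap.comp_assoc, Equiv.Perm.mul_apply]

/-- The weight pairing. -/
def wp (w : B) (a : Fin 4 → ZMod 5) : ZMod 5 := ∑ k, u w k * a k

theorem opM_tor_eB (a : Fin 4 → ZMod 5) (w : B) : opM a 1 (eB w) = ψ (-wp w a) • eB w := by
  rw [opM_eB, chi_one, permB_one, mul_one]
  rfl

theorem u_xr {w : B} {b : Fin 4} {p : ℤ × ℕ} (hp : p ∈ xr b.val w.code) (h1 : p.2 < 625)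
    (h2 : good p.2 = true) (k : Fin 4) :
    u (mkB p.2 h1 h2) k = u w k + (if k = b then 1 else 0) := by
  have h := all4_iff.1 (allGood_iff.1 chk_wx w.code w.code_lt w.code_good) b.val b.isLt
  rw [List.all_eq_true] at h
  have h' := all4_iff.1 (h p hp) k.val k.isLt
  rw [beq_iff_eq] at h'
  unfold u
  rw [mkB_code, h']
  by_cases hk : k = b
  · rw [if_pos (congrArg Fin.val hk), if_pos hk]; push_cast; ring
  · rw [if_neg (fun h => hk (Fin.ext h)), if_neg hk]; push_cast; ring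

theorem u_yr {w : B} {b : Fin 4} {p : ℤ × ℕ} (hp : p ∈ yr b.val w.code) (h1 : p.2 < 625)
    (h2 : good p.2 = true) (k : Fin 4) :
    u w k = u (mkB p.2 h1 h2) k + (if k = b then 1 else 0) := by
  have h := all4_iff.1 (allGood_iff.1 chk_wy w.code w.code_lt w.code_good) b.val b.isLt
  rw [List.all_eq_true] at h
  have h' := all4_iff.1 (h p hp) k.val k.isLt
  rw [beq_iff_eq] at h'
  unfold u
  rw [mkB_code, ← h']
  by_cases hk : k = b
  · rw [if_pos (congrArg Fin.val hk), if_pos hk]; push_cast; ring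
  · rw [if_neg (fun h => hk (Fin.ext h)), if_neg hk]; push_cast; ring

theorem wp_xr {w : B} {b : Fin 4} {p : ℤ × ℕ} (hp : p ∈ xr b.val w.code) (h1 : p.2 < 625)
    (h2 : good p.2 = true) (a : Fin 4 → ZMod 5) : wp (mkB p.2 h1 h2) a = wp w a + a b := by
  unfold wp
  simp_rw [u_xr hp h1 h2, add_mul, Finset.sum_add_distrib]
  simp

theorem wp_yr {w : B} {b : Fin 4} {p : ℤ × ℕ} (hp : p ∈ yr b.val w.code) (h1 : p.2 < 625)
    (h2 : good p.2 = true) (a : Fin 4 → ZMod 5) : wp w a = wp (mkB p.2 h1 h2) a + a b := by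
  unfold wp
  simp_rw [u_yr hp h1 h2, add_mul, Finset.sum_add_distrib]
  simp

theorem opM_tor_X (a : Fin 4 → ZMod 5) (b : Fin 4) :
    opM a 1 ∘ₗ X b = ψ (-a b) • (X b ∘ₗ opM a 1) := by
  refine ext_eB fun w => ?_
  rw [LinearMap.comp_apply, LinearMap.smul_apply, LinearMap.comp_apply, opM_tor_eB, map_smul,
    smul_smul, X_eB]
  refine lin_ev (opM a 1) (((ψ (-a b)) * ψ (-wp w a)) • LinearMap.id) _ (goodL_xr_yr w b).1 ?_
  intro p hp h1 h2
  rw [opM_tor_eB, wp_xr hp, LinearMap.smul_apply, LinearMap.id_apply]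
  congr 1
  rw [← AddChar.map_add_eq_mul]
  congr 1
  ring

theorem opM_tor_Y (a : Fin 4 → ZMod 5) (b : Fin 4) :
    opM a 1 ∘ₗ Y b = ψ (a b) • (Y b ∘ₗ opM a 1) := by
  refine ext_eB fun w => ?_
  rw [LinearMap.comp_apply, LinearMap.smul_apply, LinearMap.comp_apply, opM_tor_eB, map_smul,
    smul_smul, Y_eB]
  refine lin_ev (opM a 1) (((ψ (a b)) * ψ (-wp w a)) • LinearMap.id) _ (goodL_xr_yr w b).2 ?_
  intro p hp h1 h2
  rw [opM_tor_eB, wp_yr hp h1 h2, LinearMap.smul_apply, LinearMap.id_apply]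
  congr 1
  rw [← AddChar.map_add_eq_mul]
  congr 1
  ring

theorem opM_split (a : Fin 4 → ZMod 5) (σ : Equiv.Perm (Fin 4)) :
    opM a σ = opM 0 σ ∘ₗ opM a 1 := by
  rw [opM_mul]
  simp

theorem opM_X (a : Fin 4 → ZMod 5) (σ : Equiv.Perm (Fin 4)) (b : Fin 4) :
    opM a σ ∘ₗ X b = ψ (-a b) • (X (σ b) ∘ₗ opM a σ) := by
  rw [opM_split, LinearMap.comp_assoc, opM_tor_X, LinearMap.comp_smul, ← LinearMap.comp_assoc,
    opM_perm_X, LinearMap.comp_assoc]

theorem opM_Y (a : Fin 4 → ZMod 5) (σ : Equiv.Perm (Fin 4)) (b : Fin 4) :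
    opM a σ ∘ₗ Y b = ψ (a b) • (Y (σ b) ∘ₗ opM a σ) := by
  rw [opM_split, LinearMap.comp_assoc, opM_tor_Y, LinearMap.comp_smul, ← LinearMap.comp_assoc,
    opM_perm_Y, LinearMap.comp_assoc]

end

end Pool.Agent.Helper11.RRCA
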