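import Pool.Agent.Helper11.RRCA.Irred

/-!
# The Poincaré polynomial
-/

namespace Pool.Agent.Helper11.RRCA

noncomputable section

variable {c : R554.Ref → ℂ} {c0 : ℂ} (hc : ∀ s, c s = c0)

theorem πR_degPart {i : ℤ} {a : R554.Restricted c} (ha : a ∈ R554.degPart c i) :
    πR hc a ∈ shS i := by
  induction ha using Submodule.span_induction with
  | mem x hx =>
    obtain ⟨l, hl, rfl⟩ := hx
    have key : ∀ l : List (R554.Gen),
        πR hc (l.map (R554.rgen c)).prod ∈ shS (l.map R554.deg).sum := by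
      intro l
      induction l with
      | nil =>
        rw [List.map_nil, List.map_nil, List.prod_nil, List.sum_nil, map_one]
        exact shS_one
      | cons z l ih =>
        rw [List.map_cons, List.map_cons, List.prod_cons, List.sum_cons, map_mul, πR_rgen]
        exact shS_mul (act_mem _ z) ih
    rw [← hl]
    exact key l
  | zero => rw [map_zero]; exact Submodule.zero_mem _
  | add x y _ _ hx hy => rw [map_add]; exact Submodule.add_mem _ hx hy
  | smul r x _ hx => rw [map_smul]; exact Submodule.smul_mem _ _ hx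

theorem act_w (κ : ℂ) (g : G554) : act κ (.w g) = opG g := rfl

theorem act_y (κ : ℂ) (v : V4) : act κ (.y v) = YY κ v := rfl

/-- The span occurring in the computation of the Poincaré series. -/
def spn (i : ℤ) : Submodule ℂ Sp :=
  Submodule.span ℂ {m : Sp | ∃ a ∈ R554.degPart c i, ∃ v : E0, m = πR hc a ((Sg 0).subtype v)}

theorem spn_le (i : ℤ) : spn hc i ≤ Sg i := by
  unfold spn
  rw [Submodule.span_le]
  rintro m ⟨a, ha, v, rfl⟩
  have := shS_apply (πR_degPart hc ha) v.2
  rwa [zero_add] at this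

theorem XX_pr (a : Fin 4) : XX (pr a) = X a := by
  unfold XX
  rw [Finset.sum_eq_single a]
  · have : pr a (e4 a) = 1 := by
      change e4 a a = 1
      rw [e4_apply, if_pos rfl]
    rw [this, one_smul]
  · intro b _ hb
    have : pr a (e4 b) = 0 := by
      change e4 b a = 0
      rw [e4_apply, if_neg (Ne.symm hb)]
    rw [this, zero_smul]
  · intro h
    exact absurd (Finset.mem_univ _) h

theorem mem_spn {i : ℤ} {a : R554.Restricted c} (ha : a ∈ R554.degPart c i) (v : E0) :
    πR hc a ((Sg 0).subtype v) ∈ spn hc i :=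
  Submodule.subset_span ⟨a, ha, v, rfl⟩

theorem X_πR (a : Fin 4) (b : R554.Restricted c) (m : Sp) :
    X a (πR hc b m) = πR hc (R554.rgen c (.x (pr a)) * b) m := by
  have h : act (5 * c0) (.x (pr a)) = XX (pr a) := rfl
  rw [map_mul, πR_rgen, Module.End.mul_apply, h, XX_pr]

theorem X_spn (a : Fin 4) {i : ℤ} {m : Sp} (hm : m ∈ spn hc i) : X a m ∈ spn hc (1 + i) := by
  unfold spn at hm
  induction hm using Submodule.span_induction with
  | mem x hx =>
    obtain ⟨b, hb, v, rfl⟩ := hx
    rw [X_πR hc]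
    exact mem_spn hc (rgen_mul_mem_degPart (.x (pr a)) hb) v
  | zero => rw [map_zero]; exact Submodule.zero_mem _
  | add x y _ _ hx hy => rw [map_add]; exact Submodule.add_mem _ hx hy
  | smul r x _ hx => rw [map_smul]; exact Submodule.smul_mem _ _ hx

theorem exists_lower {w : B} (hw : dB w ≠ 0) :
    ∃ (a : Fin 4) (v : B), dB w = dB v + 1 ∧ (X a (eB v) = eB w ∨ X a (eB v) = -eB w) := by
  have h0 := allGood_iff.1 chk_gen w.code w.code_lt w.code_good
  have hw' : (dg w.code == 0) = false := by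
    rw [beq_eq_false_iff_ne]
    intro h
    exact hw (by unfold dB; rw [h]; rfl)
  rw [hw', Bool.false_or] at h0
  obtain ⟨a, ha⟩ := any4 h0
  rw [List.any_eq_true] at ha
  obtain ⟨v, hv, hva⟩ := ha
  rw [List.mem_range] at hv
  rw [Bool.and_eq_true, Bool.or_eq_true] at hva
  obtain ⟨hvg, hva⟩ := hva
  refine ⟨a, mkB v hv hvg, ?_, ?_⟩
  · have h1 : ∃ p ∈ xr a.val (mkB v hv hvg).code, p.2 = w.code := by
      rw [mkB_code]
      rcases hva with h | h
      · rw [eq_of_beq h]; exact ⟨_, List.mem_singleton_self _, rfl⟩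
      · rw [eq_of_beq h]; exact ⟨_, List.mem_singleton_self _, rfl⟩
    obtain ⟨p, hp, hpw⟩ := h1
    have h1 : p.2 < 625 := by rw [hpw]; exact w.code_lt
    have h2 : good p.2 = true := by rw [hpw]; exact w.code_good
    have h3 := dB_xr hp h1 h2
    have h4 : mkB p.2 h1 h2 = w := B.code_inj (by rw [mkB_code, hpw])
    rwa [h4] at h3
  · rw [X_eB, mkB_code]
    have h4 : mkB w.code w.code_lt w.code_good = w := B.code_inj rfl
    rcases hva with h | h
    · left
      rw [eq_of_beq h, ev_cons (1, w.code) [] w.code_lt w.code_good, ev_nil, add_zero]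
      rw [h4]
      simp
    · right
      rw [eq_of_beq h, ev_cons (-1, w.code) [] w.code_lt w.code_good, ev_nil, add_zero]
      rw [h4]
      simp

theorem eB_mem_spn (n : ℕ) : ∀ w : B, dB w = n → eB w ∈ spn hc n := by
  induction n with
  | zero =>
    intro w hw
    have h1 : eB w ∈ Sg 0 := by
      have := eB_mem_Sg w
      rwa [hw] at this
    have h2 := mem_spn hc (i := 0) one_mem_degPart (⟨eB w, h1⟩ : E0)
    rw [map_one] at h2
    exact h2
  | succ n ih =>
    intro w hw
    obtain ⟨a, v, hv, hX⟩ := exists_lower (w := w) (by rw [hw]; push_cast; omega)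
    have h1 : dB v = n := by rw [hw] at hv; push_cast at hv; omega
    have h2 := X_spn hc a (ih v h1)
    have h3 : (1 : ℤ) + (n : ℤ) = ((n + 1 : ℕ) : ℤ) := by push_cast; ring
    rw [h3] at h2
    rcases hX with h | h
    · rwa [h] at h2
    · rw [h] at h2
      have := Submodule.neg_mem _ h2
      rwa [neg_neg] at this

theorem spn_eq (i : ℤ) : spn hc i = Sg i := by
  apply le_antisymm (spn_le hc i)
  intro f hf
  rw [sp_eq_sum f]
  refine Submodule.sum_mem _ fun w _ => ?_
  by_cases hw : dB w = i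
  · refine Submodule.smul_mem _ _ ?_
    have h1 : i = ((dg w.code : ℕ) : ℤ) := hw.symm
    rw [h1]
    exact eB_mem_spn hc _ w rfl
  · rw [hf w hw, zero_smul]
    exact Submodule.zero_mem _

theorem YY_e4 (κ : ℂ) (b : Fin 4) : YY κ (e4 b) = κ • Y b := by
  unfold YY
  rw [Finset.sum_eq_single b]
  · rw [e4_apply, if_pos rfl, mul_one]
  · intro a _ ha
    rw [e4_apply, if_neg ha, mul_zero, zero_smul]
  · intro h
    exact absurd (Finset.mem_univ _) h

theorem model_simple (h0 : c0 ≠ 0) (m : Sp) (hm : m ≠ 0) (v : E0) :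
    ∃ a, πR hc a m = (Sg 0).subtype v := by
  let N : Submodule ℂ Sp :=
    LinearMap.range ((LinearMap.applyₗ m : (Sp →ₗ[ℂ] Sp) →ₗ[ℂ] Sp) ∘ₗ (πR hc).toLinearMap)
  have hmem : ∀ f, f ∈ N ↔ ∃ a, πR hc a m = f := fun f => LinearMap.mem_range
  have h1 : Sg 0 ≤ N := by
    refine Sg_zero_le_of_ne N ?_ ?_ (f := m) ?_ hm
    · intro g f hf
      rw [hmem] at hf ⊢
      obtain ⟨a, rfl⟩ := hf
      refine ⟨R554.rgen c (.w g) * a, ?_⟩
      rw [map_mul, πR_rgen, act_w, Module.End.mul_apply]
    · intro b f hf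
      have h5 : (5 * c0) ≠ 0 := mul_ne_zero (by norm_num) h0
      have h2 : Y b f = (5 * c0)⁻¹ • (YY (5 * c0) (e4 b) f) := by
        rw [YY_e4, LinearMap.smul_apply, smul_smul, inv_mul_cancel₀ h5, one_smul]
      rw [h2]
      refine Submodule.smul_mem _ _ ?_
      rw [hmem] at hf ⊢
      obtain ⟨a, rfl⟩ := hf
      refine ⟨R554.rgen c (.y (e4 b)) * a, ?_⟩
      rw [map_mul, πR_rgen, act_y, Module.End.mul_apply]
    · rw [hmem]
      exact ⟨1, by rw [map_one]; rfl⟩
  exact (hmem _).1 (h1 v.2)

/-- The projection to degree zero. -/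
def p0 : Sp →ₗ[ℂ] Sp where
  toFun f w := if dB w = 0 then f w else 0
  map_add' f g := by
    funext w
    simp only [Pi.add_apply]
    split_ifs <;> simp
  map_smul' r f := by
    funext w
    simp only [Pi.smul_apply, RingHom.id_apply, smul_eq_mul]
    split_ifs <;> simp

theorem p0_apply (f : Sp) (w : B) : p0 f w = if dB w = 0 then f w else 0 := rfl

theorem p0_j (v : E0) : p0 ((Sg 0).subtype v) = (Sg 0).subtype v := by
  funext w
  rw [p0_apply]
  by_cases h : dB w = 0
  · rw [if_pos h]
  · rw [if_neg h]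
    exact (v.2 w h).symm

theorem p0_X (ξ : Module.Dual ℂ V4) (m : Sp) : p0 (XX ξ m) = 0 := by
  funext w
  rw [p0_apply]
  by_cases h : dB w = 0
  · rw [if_pos h, sp_eq_sum m, map_sum, Finset.sum_apply]
    refine Finset.sum_eq_zero fun x _ => ?_
    rw [map_smul, Pi.smul_apply, XX_mem ξ x w, smul_zero]
    have := dB_nonneg x
    omega
  · rw [if_neg h]
    rfl

theorem hjw (g : G554) (v : E0) :
    πR hc (R554.rgen c (.w g)) ((Sg 0).subtype v) = (Sg 0).subtype (ρ0 g v) := by
  rw [πR_rgen, Submodule.subtype_apply, Submodule.subtype_apply, ρ0_coe]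
  rfl

theorem hjy (y : V4) (v : E0) : πR hc (R554.rgen c (.y y)) ((Sg 0).subtype v) = 0 := by
  rw [πR_rgen]
  change YY (5 * c0) y (v : Sp) = 0
  have h1 := shS_apply (YY_mem (5 * c0) y) v.2
  funext w
  refine h1 w ?_
  have := dB_nonneg w
  omega

include hc in
theorem poincare_G554 (h0 : c0 ≠ 0) (i : ℤ) :
    R554.poincare c L554 i = Fintype.card {w : B // dB w = i} := by
  rw [poincare_eq (L := L554) (πR hc) (Sg 0).subtype (hjw hc) (hjy hc) p0 p0_j
    (fun ξ m => by rw [πR_rgen]; exact p0_X ξ m) (Submodule.subtype_injective _)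
    (fun m hm v => model_simple hc h0 m hm v) (xword_nil c) i]
  have := spn_eq hc i
  unfold spn at this
  rw [this, finrank_Sg]

include hc in
theorem simple_G554 (h0 : c0 ≠ 0) :
    IsSimpleModule (R554.Restricted c) (R554.SimpleQuotient c L554) :=
  simple_of_model (L := L554) (πR hc) (Sg 0).subtype (hjw hc) (hjy hc) p0 p0_j
    (fun ξ m => by rw [πR_rgen]; exact p0_X ξ m) (Submodule.subtype_injective _)
    (fun m hm v => model_simple hc h0 m hm v) (xword_nil c)

/-- The explicit polynomial `12 + 24 q + 36 q² + 36 q³ + 12 q⁴`. -/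
def pol (i : ℤ) : ℕ :=
  if i = 0 then 12 else if i = 1 then 24 else if i = 2 then 36 else if i = 3 then 36 else
    if i = 4 then 12 else 0

theorem card_dg (k : ℕ) (n : ℕ)
    (h : (Finset.univ.filter fun w : B => dg w.1.val = k).card = n) :
    Fintype.card {w : B // dB w = (k : ℤ)} = n := by
  have h1 : (Finset.univ.filter fun w : B => dB w = (k : ℤ)) =
      Finset.univ.filter fun w : B => dg w.1.val = k :=
    Finset.filter_congr fun w _ => Int.natCast_inj
  rw [Fintype.card_subtype, h1, h]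

theorem cards : (Finset.univ.filter fun w : B => dg w.1.val = 0).card = 12 ∧
    (Finset.univ.filter fun w : B => dg w.1.val = 1).card = 24 ∧
    (Finset.univ.filter fun w : B => dg w.1.val = 2).card = 36 ∧
    (Finset.univ.filter fun w : B => dg w.1.val = 3).card = 36 ∧
    (Finset.univ.filter fun w : B => dg w.1.val = 4).card = 12 := by
  refine ⟨?_, ?_, ?_, ?_, ?_⟩ <;> decide +kernel

theorem card_eq (i : ℤ) : Fintype.card {w : B // dB w = i} = pol i := by
  obtain ⟨h0, h1, h2, h3, h4⟩ := cards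
  unfold pol
  split_ifs with g0 g1 g2 g3 g4
  · rw [g0]; exact card_dg 0 12 h0
  · rw [g1]; exact card_dg 1 24 h1
  · rw [g2]; exact card_dg 2 36 h2
  · rw [g3]; exact card_dg 3 36 h3
  · rw [g4]; exact card_dg 4 12 h4
  · rw [Fintype.card_eq_zero_iff]
    constructor
    rintro ⟨w, hw⟩
    have h5 := dB_nonneg w
    have h6 := dB_le w
    omega

theorem pol_twelve {i : ℤ} (h : pol i = 12) : i = 0 ∨ i = 4 := by
  unfold pol at h
  split_ifs at h <;> omega

theorem pol_not_palindromic : ¬ IsPalindromic pol := by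
  rintro ⟨d, hd⟩
  have h0 : pol (d - 0) = 12 := by rw [← hd 0]; rfl
  have h4 : pol (d - 4) = 12 := by rw [← hd 4]; rfl
  have h1 : pol (d - 1) = 24 := by rw [← hd 1]; rfl
  have hd4 : d = 4 := by
    have := pol_twelve h0
    have := pol_twelve h4
    omega
  subst hd4
  revert h1
  decide

end

end Pool.Agent.Helper11.RRCA
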