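import Pool.Agent.Helper11.RRCA.Defs

/-!
# General facts on restricted rational Cherednik algebras
-/

open scoped TensorProduct

namespace Pool.Agent.Helper11.RRCA

noncomputable section

section Relations

variable (D : Datum) (c : D.Ref → ℂ)

/-- The quotient map from the free algebra. -/
def mkH : D.Free →ₐ[ℂ] D.Cherednik c := RingQuot.mkAlgHom ℂ (D.Rel c)

/-- The quotient map to the restricted algebra. -/
def mkR : D.Cherednik c →ₐ[ℂ] D.Restricted c := RingQuot.mkAlgHom ℂ (D.RestrictedRel c)

variable {D c}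

theorem mkH_rel {a b : D.Free} (h : D.Rel c a b) : mkH D c a = mkH D c b :=
  RingQuot.mkAlgHom_rel ℂ h

theorem mkH_x (a : Module.Dual ℂ D.V) : mkH D c (D.fx a) = D.gen c (.x a) := rfl

theorem mkH_y (a : D.V) : mkH D c (D.fy a) = D.gen c (.y a) := rfl

theorem mkH_w (a : D.W) : mkH D c (D.fw a) = D.gen c (.w a) := rfl

theorem mkR_gen (z : D.Gen) : mkR D c (D.gen c z) = D.rgen c z := rfl

theorem mkR_posInv {f : D.Cherednik c} (hf : D.IsPosInv c f) : mkR D c f = 0 := by
  have h : mkR D c f = mkR D c 0 := RingQuot.mkAlgHom_rel ℂ ⟨hf, rfl⟩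
  rw [h, map_zero]

theorem gen_x_add (a b : Module.Dual ℂ D.V) :
    D.gen c (.x (a + b)) = D.gen c (.x a) + D.gen c (.x b) := by
  have := mkH_rel (c := c) (Datum.Rel.x_add a b)
  simpa only [map_add, mkH_x] using this

theorem gen_x_smul (r : ℂ) (a : Module.Dual ℂ D.V) :
    D.gen c (.x (r • a)) = r • D.gen c (.x a) := by
  have := mkH_rel (c := c) (Datum.Rel.x_smul r a)
  simpa only [map_smul, mkH_x] using this

theorem gen_w_one : D.gen c (.w 1) = 1 := by
  have := mkH_rel (c := c) (Datum.Rel.w_one (D := D))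
  simpa only [map_one, mkH_w] using this

theorem gen_w_mul (g h : D.W) : D.gen c (.w (g * h)) = D.gen c (.w g) * D.gen c (.w h) := by
  have := mkH_rel (c := c) (Datum.Rel.w_mul g h)
  simpa only [map_mul, mkH_w] using this

theorem gen_w_x (g : D.W) (a : Module.Dual ℂ D.V) :
    D.gen c (.w g) * D.gen c (.x a) = D.gen c (.x (a ∘ₗ D.op g⁻¹)) * D.gen c (.w g) := by
  have := mkH_rel (c := c) (Datum.Rel.w_x g a)
  simpa only [map_mul, mkH_w, mkH_x] using this

theorem gen_x_comm (a b : Module.Dual ℂ D.V) :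
    D.gen c (.x a) * D.gen c (.x b) = D.gen c (.x b) * D.gen c (.x a) := by
  have := mkH_rel (c := c) (Datum.Rel.x_comm a b)
  simpa only [map_mul, mkH_x] using this

theorem gen_y_x (v : D.V) (a : Module.Dual ℂ D.V) :
    D.gen c (.y v) * D.gen c (.x a) = D.gen c (.x a) * D.gen c (.y v) +
      mkH D c (-∑ᶠ s : D.Ref, (c s * D.pairing s.1 v a) • D.fw s.1) := by
  have := mkH_rel (c := c) (Datum.Rel.y_x v a)
  rw [map_sub, map_mul, map_mul, mkH_x, mkH_y, sub_eq_iff_eq_add'] at this
  exact this

theorem rgen_x_add (a b : Module.Dual ℂ D.V) :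
    D.rgen c (.x (a + b)) = D.rgen c (.x a) + D.rgen c (.x b) := by
  have := congrArg (mkR D c) (gen_x_add (c := c) a b)
  simpa only [map_add, mkR_gen] using this

theorem rgen_x_smul (r : ℂ) (a : Module.Dual ℂ D.V) :
    D.rgen c (.x (r • a)) = r • D.rgen c (.x a) := by
  have := congrArg (mkR D c) (gen_x_smul (c := c) r a)
  simpa only [map_smul, mkR_gen] using this

theorem rgen_w_x (g : D.W) (a : Module.Dual ℂ D.V) :
    D.rgen c (.w g) * D.rgen c (.x a) = D.rgen c (.x (a ∘ₗ D.op g⁻¹)) * D.rgen c (.w g) := by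
  have := congrArg (mkR D c) (gen_w_x (c := c) g a)
  simpa only [map_mul, mkR_gen] using this

theorem rgen_x_comm (a b : Module.Dual ℂ D.V) :
    D.rgen c (.x a) * D.rgen c (.x b) = D.rgen c (.x b) * D.rgen c (.x a) := by
  have := congrArg (mkR D c) (gen_x_comm (c := c) a b)
  simpa only [map_mul, mkR_gen] using this

/-- The span of the images of the group elements. -/
def grpSpan (D : Datum) (c : D.Ref → ℂ) : Submodule ℂ (D.Restricted c) :=
  Submodule.span ℂ (Set.range fun g : D.W => D.rgen c (.w g))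

theorem rgen_y_x (v : D.V) (a : Module.Dual ℂ D.V) : ∃ t ∈ grpSpan D c,
    D.rgen c (.y v) * D.rgen c (.x a) = D.rgen c (.x a) * D.rgen c (.y v) + t := by
  have := congrArg (mkR D c) (gen_y_x (c := c) v a)
  rw [map_mul, map_add, map_mul, mkR_gen, mkR_gen] at this
  refine ⟨_, ?_, this⟩
  rw [map_neg, map_neg]
  refine Submodule.neg_mem _ ?_
  by_cases hfin : (Function.support fun s : D.Ref =>
      (c s * D.pairing s.1 v a) • D.fw s.1).Finite
  · rw [finsum_eq_sum _ hfin, map_sum, map_sum]
    refine Submodule.sum_mem _ fun s _ => ?_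
    rw [map_smul, map_smul, mkH_w, mkR_gen]
    exact Submodule.smul_mem _ _ (Submodule.subset_span ⟨s.1, rfl⟩)
  · rw [finsum_of_infinite_support hfin, map_zero, map_zero]
    exact Submodule.zero_mem _

/-- Lifting maps on generators to the Cherednik algebra. -/
def liftH {B : Type} [Ring B] [Algebra ℂ B] (φ : D.Gen → B)
    (h : ∀ ⦃a b⦄, D.Rel c a b → FreeAlgebra.lift ℂ φ a = FreeAlgebra.lift ℂ φ b) :
    D.Cherednik c →ₐ[ℂ] B := RingQuot.liftAlgHom ℂ ⟨FreeAlgebra.lift ℂ φ, h⟩

theorem liftH_gen {B : Type} [Ring B] [Algebra ℂ B] (φ : D.Gen → B)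
    (h : ∀ ⦃a b⦄, D.Rel c a b → FreeAlgebra.lift ℂ φ a = FreeAlgebra.lift ℂ φ b) (z : D.Gen) :
    liftH φ h (D.gen c z) = φ z := by
  have : liftH φ h (D.gen c z) = FreeAlgebra.lift ℂ φ (FreeAlgebra.ι ℂ z) :=
    RingQuot.liftAlgHom_mkAlgHom_apply ℂ (FreeAlgebra.lift ℂ φ) h (FreeAlgebra.ι ℂ z)
  rw [this, FreeAlgebra.lift_ι_apply]

/-- Lifting to the restricted algebra. -/
def liftR {B : Type} [Ring B] [Algebra ℂ B] (f : D.Cherednik c →ₐ[ℂ] B)
    (h : ∀ z, D.IsPosInv c z → f z = 0) :
    D.Restricted c →ₐ[ℂ] B :=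
  RingQuot.liftAlgHom ℂ ⟨f, fun a b hab => by rw [h a hab.1, hab.2, map_zero]⟩

theorem liftR_rgen {B : Type} [Ring B] [Algebra ℂ B] (f : D.Cherednik c →ₐ[ℂ] B)
    (h : ∀ z, D.IsPosInv c z → f z = 0) (z : D.Gen) :
    liftR f h (D.rgen c z) = f (D.gen c z) :=
  RingQuot.liftAlgHom_mkAlgHom_apply ℂ f _ (D.gen c z)

end Relations

section Degree

variable {D : Datum} {c : D.Ref → ℂ}

theorem one_mem_degPart : (1 : D.Restricted c) ∈ D.degPart c 0 :=
  Submodule.subset_span ⟨[], rfl, rfl⟩

theorem rgen_mul_mem_degPart {i : ℤ} (z : D.Gen) {a : D.Restricted c} (ha : a ∈ D.degPart c i) :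
    D.rgen c z * a ∈ D.degPart c (D.deg z + i) := by
  induction ha using Submodule.span_induction with
  | mem x hx =>
    obtain ⟨l, hl, rfl⟩ := hx
    exact Submodule.subset_span ⟨z :: l, by simp [hl], by simp⟩
  | zero => rw [mul_zero]; exact Submodule.zero_mem _
  | add x y _ _ hx hy => rw [mul_add]; exact Submodule.add_mem _ hx hy
  | smul r x _ hx => rw [mul_smul_comm]; exact Submodule.smul_mem _ _ hx

end Degree

section Verma

variable {D : Datum} {c : D.Ref → ℂ} {L : D.Rep}

instance : Module ℂ (D.BabyVerma c L) :=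
  Module.compHom (D.BabyVerma c L) (algebraMap ℂ (D.Restricted c))

theorem cx_smul_verma (r : ℂ) (z : D.BabyVerma c L) :
    r • z = algebraMap ℂ (D.Restricted c) r • z := rfl

instance : IsScalarTower ℂ (D.Restricted c) (D.BabyVerma c L) where
  smul_assoc r a z := by
    rw [cx_smul_verma, Algebra.smul_def, mul_smul]

instance : SMulCommClass ℂ (D.Restricted c) (D.BabyVerma c L) where
  smul_comm r a z := by
    rw [cx_smul_verma, cx_smul_verma, ← mul_smul, ← mul_smul, Algebra.commutes]

theorem tm_smul (a b : D.Restricted c) (v : L.E) : a • D.tm c L b v = D.tm c L (a * b) v :=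
  TensorProduct.smul_tmul' a b v

theorem tm_add (a : D.Restricted c) (v w : L.E) :
    D.tm c L a (v + w) = D.tm c L a v + D.tm c L a w :=
  TensorProduct.tmul_add a v w

theorem tm_csmul (r : ℂ) (a : D.Restricted c) (v : L.E) :
    D.tm c L a (r • v) = D.tm c L (r • a) v :=
  (TensorProduct.smul_tmul r a v).symm

theorem tm_zero_left (v : L.E) : D.tm c L 0 v = 0 := TensorProduct.zero_tmul _ v

theorem tm_zero_right (a : D.Restricted c) : D.tm c L a 0 = 0 := TensorProduct.tmul_zero _ a

theorem ind_induction {p : D.Ind c L → Prop} (h0 : p 0) (ht : ∀ a v, p (D.tm c L a v))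
    (ha : ∀ x y, p x → p y → p (x + y)) (z : D.Ind c L) : p z :=
  TensorProduct.induction_on (motive := p) z h0 ht ha

/-- The quotient map to the baby Verma module. -/
def vmk (D : Datum) (c : D.Ref → ℂ) (L : D.Rep) : D.Ind c L →ₗ[D.Restricted c] D.BabyVerma c L :=
  (D.vermaRel c L).mkQ

theorem vmk_surjective : Function.Surjective (vmk D c L) := (D.vermaRel c L).mkQ_surjective

theorem vmk_tm (a : D.Restricted c) (v : L.E) : vmk D c L (D.tm c L a v) = D.vermaMk c L a v := rfl

theorem vmk_eq {x y : D.Ind c L} (h : x - y ∈ D.vermaRel c L) : vmk D c L x = vmk D c L y :=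
  (Submodule.Quotient.eq (D.vermaRel c L)).2 h

theorem vermaMk_w (a : D.Restricted c) (g : D.W) (v : L.E) :
    D.vermaMk c L (a * D.rgen c (.w g)) v = D.vermaMk c L a (L.ρ g v) := by
  refine vmk_eq ?_
  have h : D.tm c L (a * D.rgen c (.w g)) v - D.tm c L a (L.ρ g v) =
      a • (D.tm c L (D.rgen c (.w g)) v - D.tm c L 1 (L.ρ g v)) := by
    rw [smul_sub, tm_smul, tm_smul, mul_one]
  rw [h]
  exact Submodule.smul_mem _ _ (Submodule.subset_span (Or.inl ⟨g, v, rfl⟩))

theorem vermaMk_zero_left (v : L.E) : D.vermaMk c L 0 v = 0 := by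
  rw [← vmk_tm, tm_zero_left, map_zero]

theorem vermaMk_zero_right (a : D.Restricted c) : D.vermaMk c L a 0 = 0 := by
  rw [← vmk_tm, tm_zero_right, map_zero]

theorem vermaMk_y (a : D.Restricted c) (y : D.V) (v : L.E) :
    D.vermaMk c L (a * D.rgen c (.y y)) v = 0 := by
  rw [← vmk_tm, ← map_zero (vmk D c L)]
  refine vmk_eq ?_
  rw [sub_zero, ← tm_smul]
  exact Submodule.smul_mem _ _ (Submodule.subset_span (Or.inr ⟨y, v, rfl⟩))

theorem smul_vermaMk (a b : D.Restricted c) (v : L.E) :
    a • D.vermaMk c L b v = D.vermaMk c L (a * b) v := by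
  rw [← vmk_tm, ← vmk_tm, ← tm_smul, map_smul]

theorem vermaMk_add (a : D.Restricted c) (v w : L.E) :
    D.vermaMk c L a (v + w) = D.vermaMk c L a v + D.vermaMk c L a w := by
  rw [← vmk_tm, ← vmk_tm, ← vmk_tm, tm_add, map_add]

theorem vermaMk_csmul (r : ℂ) (a : D.Restricted c) (v : L.E) :
    D.vermaMk c L a (r • v) = r • D.vermaMk c L a v := by
  rw [cx_smul_verma, smul_vermaMk, ← vmk_tm, ← vmk_tm, tm_csmul, Algebra.smul_def]

/-- Product of elements of `𝔥^*` in the restricted algebra. -/
def xword (D : Datum) (c : D.Ref → ℂ) (l : List (Module.Dual ℂ D.V)) :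
    D.Restricted c := (l.map fun a => D.rgen c (.x a)).prod

theorem xword_nil' : xword D c [] = 1 := rfl

theorem xword_cons (a : Module.Dual ℂ D.V) (l : List (Module.Dual ℂ D.V)) :
    xword D c (a :: l) = D.rgen c (.x a) * xword D c l := by
  simp [xword]

/-- The span of the vectors `x_1 ⋯ x_k ⊗ v` with `k ≥ n`. -/
def layer (D : Datum) (c : D.Ref → ℂ) (L : D.Rep) (n : ℕ) :
    Submodule ℂ (D.BabyVerma c L) :=
  Submodule.span ℂ {z | ∃ l : List (Module.Dual ℂ D.V), n ≤ l.length ∧ ∃ v : L.E,
    z = D.vermaMk c L (xword D c l) v}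

theorem layer_anti {m n : ℕ} (h : m ≤ n) : layer D c L n ≤ layer D c L m := by
  refine Submodule.span_mono ?_
  rintro z ⟨l, hl, v, rfl⟩
  exact ⟨l, h.trans hl, v, rfl⟩

theorem x_smul_layer {n : ℕ} (a : Module.Dual ℂ D.V) {z : D.BabyVerma c L}
    (hz : z ∈ layer D c L n) : D.rgen c (.x a) • z ∈ layer D c L (n + 1) := by
  induction hz using Submodule.span_induction with
  | mem x hx =>
    obtain ⟨l, hl, v, rfl⟩ := hx
    refine Submodule.subset_span ⟨a :: l, by simpa using hl, v, ?_⟩
    rw [smul_vermaMk, xword_cons]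
  | zero => rw [smul_zero]; exact Submodule.zero_mem _
  | add x y _ _ hx hy => rw [smul_add]; exact Submodule.add_mem _ hx hy
  | smul r x _ hx =>
    rw [smul_comm]; exact Submodule.smul_mem _ _ hx

/-- Pushing a group element through a product of elements of `𝔥^*`. -/
theorem w_xword (g : D.W) (l : List (Module.Dual ℂ D.V)) :
    D.rgen c (.w g) * xword D c l =
      xword D c (l.map fun a => a ∘ₗ D.op g⁻¹) * D.rgen c (.w g) := by
  induction l with
  | nil => rw [List.map_nil, xword_nil', mul_one, one_mul]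
  | cons a l ih =>
    rw [List.map_cons, xword_cons, xword_cons, ← mul_assoc, rgen_w_x, mul_assoc, ih, mul_assoc]

theorem w_smul_layer {n : ℕ} (g : D.W) {z : D.BabyVerma c L}
    (hz : z ∈ layer D c L n) : D.rgen c (.w g) • z ∈ layer D c L n := by
  induction hz using Submodule.span_induction with
  | mem x hx =>
    obtain ⟨l, hl, v, rfl⟩ := hx
    rw [smul_vermaMk, w_xword, vermaMk_w]
    exact Submodule.subset_span ⟨_, by simpa using hl, _, rfl⟩
  | zero => rw [smul_zero]; exact Submodule.zero_mem _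
  | add x y _ _ hx hy => rw [smul_add]; exact Submodule.add_mem _ hx hy
  | smul r x _ hx =>
    rw [smul_comm]; exact Submodule.smul_mem _ _ hx

theorem grp_smul_layer {n : ℕ} {t : D.Restricted c} (ht : t ∈ grpSpan D c) {z : D.BabyVerma c L}
    (hz : z ∈ layer D c L n) : t • z ∈ layer D c L n := by
  induction ht using Submodule.span_induction with
  | mem x hx =>
    obtain ⟨g, rfl⟩ := hx
    exact w_smul_layer g hz
  | zero => rw [zero_smul]; exact Submodule.zero_mem _
  | add x y _ _ hx hy => rw [add_smul]; exact Submodule.add_mem _ hx hy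
  | smul r x _ hx =>
    rw [smul_assoc]; exact Submodule.smul_mem _ _ hx

theorem y_smul_xword (y : D.V) (l : List (Module.Dual ℂ D.V)) (v : L.E) :
    D.rgen c (.y y) • D.vermaMk c L (xword D c l) v ∈ layer D c L 0 := by
  induction l with
  | nil =>
    have h := vermaMk_y (c := c) (L := L) 1 y v
    rw [one_mul] at h
    rw [xword_nil', smul_vermaMk, mul_one, h]
    exact Submodule.zero_mem _
  | cons a l ih =>
    obtain ⟨t, ht, hyx⟩ := rgen_y_x (c := c) y a
    have h1 : D.vermaMk c L (xword D c (a :: l)) v =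
        D.rgen c (.x a) • D.vermaMk c L (xword D c l) v := by
      rw [smul_vermaMk, xword_cons]
    rw [h1, ← mul_smul, hyx, add_smul, mul_smul]
    refine Submodule.add_mem _ (layer_anti (Nat.zero_le 1) (x_smul_layer a ih)) ?_
    exact grp_smul_layer ht (Submodule.subset_span ⟨l, Nat.zero_le _, v, rfl⟩)

theorem y_smul_layer (y : D.V) {z : D.BabyVerma c L} (hz : z ∈ layer D c L 0) :
    D.rgen c (.y y) • z ∈ layer D c L 0 := by
  induction hz using Submodule.span_induction with
  | mem x hx =>
    obtain ⟨l, -, v, rfl⟩ := hx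
    exact y_smul_xword y l v
  | zero => rw [smul_zero]; exact Submodule.zero_mem _
  | add x y _ _ hx hy => rw [smul_add]; exact Submodule.add_mem _ hx hy
  | smul r x _ hx =>
    rw [smul_comm]; exact Submodule.smul_mem _ _ hx

/-- Every element of the restricted algebra is a combination of products of generators. -/
theorem restricted_induction (D : Datum) (c : D.Ref → ℂ)
    (p : D.Restricted c → Prop) (h1 : p 1) (hz : ∀ z a, p a → p (D.rgen c z * a))
    (hadd : ∀ a b, p a → p b → p (a + b)) (hsmul : ∀ (r : ℂ) a, p a → p (r • a)) :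
    ∀ a, p a := by
  have key : ∀ f : D.Free, ∀ a, p a → p (mkR D c (mkH D c f) * a) := by
    intro f
    induction f using FreeAlgebra.induction with
    | grade0 r =>
      intro a ha
      rw [AlgHom.commutes, AlgHom.commutes, ← Algebra.smul_def]
      exact hsmul r a ha
    | grade1 z => intro a ha; exact hz z a ha
    | mul f g hf hg =>
      intro a ha
      rw [map_mul, map_mul, mul_assoc]
      exact hf _ (hg _ ha)
    | add f g hf hg =>
      intro a ha
      rw [map_add, map_add, add_mul]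
      exact hadd _ _ (hf a ha) (hg a ha)
  intro a
  obtain ⟨b, rfl⟩ : ∃ b, mkR D c b = a := RingQuot.mkAlgHom_surjective ℂ _ a
  obtain ⟨f, rfl⟩ : ∃ f, mkH D c f = b := RingQuot.mkAlgHom_surjective ℂ _ b
  have := key f 1 h1
  rwa [mul_one] at this

theorem smul_layer_zero (a : D.Restricted c) {z : D.BabyVerma c L} (hz : z ∈ layer D c L 0) :
    a • z ∈ layer D c L 0 := by
  revert a
  refine restricted_induction D c _ (by rwa [one_smul]) ?_ ?_ ?_
  · intro g a ha
    rw [mul_smul]
    cases g with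
    | x ξ => exact layer_anti (Nat.zero_le 1) (x_smul_layer ξ ha)
    | y v => exact y_smul_layer v ha
    | w g => exact w_smul_layer g ha
  · intro a b ha hb; rw [add_smul]; exact Submodule.add_mem _ ha hb
  · intro r a ha; rw [smul_assoc]; exact Submodule.smul_mem _ _ ha

theorem layer_zero_eq_top : layer D c L 0 = ⊤ := by
  rw [eq_top_iff]
  rintro z -
  obtain ⟨t, rfl⟩ := vmk_surjective z
  induction t using ind_induction with
  | h0 => rw [map_zero]; exact Submodule.zero_mem _
  | ht a v =>
    have h : vmk D c L (D.tm c L a v) = a • D.vermaMk c L (xword D c []) v := by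
      rw [smul_vermaMk, xword_nil', mul_one, vmk_tm]
    rw [h]
    exact smul_layer_zero a (Submodule.subset_span ⟨[], le_rfl, v, rfl⟩)
  | ha x y hx hy => rw [map_add]; exact Submodule.add_mem _ hx hy

end Verma

section Model

variable {D : Datum} {c : D.Ref → ℂ} {L : D.Rep}
variable {M : Type} [AddCommGroup M] [Module ℂ M]

/-- The module over the restricted algebra given by an algebra map to endomorphisms. -/
def Mod (_ : D.Restricted c →ₐ[ℂ] Module.End ℂ M) : Type := M

variable (π : D.Restricted c →ₐ[ℂ] Module.End ℂ M)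

instance : AddCommGroup (Mod π) := inferInstanceAs (AddCommGroup M)

instance : Module ℂ (Mod π) := inferInstanceAs (Module ℂ M)

instance : Module (D.Restricted c) (Mod π) where
  smul a m := π a (m : M)
  one_smul m := by
    change π 1 (m : M) = m
    rw [map_one]; rfl
  mul_smul a b m := by
    change π (a * b) (m : M) = π a (π b (m : M))
    rw [map_mul]; rfl
  smul_zero a := map_zero (π a)
  smul_add a m n := map_add (π a) (m : M) (n : M)
  add_smul a b m := by
    change π (a + b) (m : M) = π a (m : M) + π b (m : M)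
    rw [map_add]; rfl
  zero_smul m := by
    change π 0 (m : M) = 0
    rw [map_zero]; rfl

theorem mod_smul (a : D.Restricted c) (m : Mod π) : a • m = (π a (m : M) : M) := rfl

instance : IsScalarTower ℂ (D.Restricted c) (Mod π) where
  smul_assoc r a m := by
    change π (r • a) (m : M) = r • π a (m : M)
    rw [map_smul]; rfl

/-- The identity map from `Mod π` to `M`. -/
def ofMod : Mod π →ₗ[ℂ] M := LinearMap.id

variable (j : L.E →ₗ[ℂ] M)

/-- The linear map into the model, as a map to `Mod π`. -/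
def jMod : L.E →ₗ[ℂ] Mod π := j

variable (hjw : ∀ (g : D.W) (v : L.E), π (D.rgen c (.w g)) (j v) = j (L.ρ g v))
variable (hjy : ∀ (y : D.V) (v : L.E), π (D.rgen c (.y y)) (j v) = 0)

/-- The map from the tensor product to the model. -/
def preMap0 : (D.Restricted c ⊗[ℂ] L.E) →ₗ[D.Restricted c] Mod π :=
  TensorProduct.AlgebraTensorModule.lift
    (LinearMap.toSpanSingleton (D.Restricted c) (L.E →ₗ[ℂ] Mod π) (jMod π j))

/-- The map from the tensor product to the model. -/
def preMap : D.Ind c L →ₗ[D.Restricted c] Mod π := preMap0 π j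

theorem preMap_tm (a : D.Restricted c) (v : L.E) :
    preMap π j (D.tm c L a v) = (π a (j v) : M) := rfl

include hjw hjy in
theorem vermaRel_le : D.vermaRel c L ≤ LinearMap.ker (preMap π j) := by
  unfold Datum.vermaRel
  rw [Submodule.span_le]
  rintro z (⟨g, v, rfl⟩ | ⟨y, v, rfl⟩)
  · rw [SetLike.mem_coe, LinearMap.mem_ker, map_sub, preMap_tm, preMap_tm]
    have : (π 1 (j (L.ρ g v)) : M) = j (L.ρ g v) := by rw [map_one]; rfl
    rw [this, ← hjw]
    exact sub_self _
  · rw [SetLike.mem_coe, LinearMap.mem_ker, preMap_tm, hjy]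
    rfl

/-- The map from the baby Verma module to the model. -/
def vMap : D.BabyVerma c L →ₗ[D.Restricted c] Mod π :=
  (D.vermaRel c L).liftQ (preMap π j) (vermaRel_le π j hjw hjy)

/-- The map from the baby Verma module to the model, as a map to `M`. -/
def vF (z : D.BabyVerma c L) : M := vMap π j hjw hjy z

theorem vF_zero : vF π j hjw hjy 0 = 0 := map_zero (vMap π j hjw hjy)

theorem vF_add (x y : D.BabyVerma c L) :
    vF π j hjw hjy (x + y) = vF π j hjw hjy x + vF π j hjw hjy y :=
  map_add (vMap π j hjw hjy) x y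

theorem vF_sub (x y : D.BabyVerma c L) :
    vF π j hjw hjy (x - y) = vF π j hjw hjy x - vF π j hjw hjy y :=
  map_sub (vMap π j hjw hjy) x y

theorem vF_mk (a : D.Restricted c) (v : L.E) :
    vF π j hjw hjy (D.vermaMk c L a v) = π a (j v) := rfl

theorem vF_smul (a : D.Restricted c) (z : D.BabyVerma c L) :
    vF π j hjw hjy (a • z) = π a (vF π j hjw hjy z) :=
  map_smul (vMap π j hjw hjy) a z

theorem vF_csmul (r : ℂ) (z : D.BabyVerma c L) :
    vF π j hjw hjy (r • z) = r • vF π j hjw hjy z := by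
  rw [cx_smul_verma, vF_smul, AlgHom.commutes]
  rfl

theorem mem_ker_vMap {z : D.BabyVerma c L} :
    z ∈ LinearMap.ker (vMap π j hjw hjy) ↔ vF π j hjw hjy z = 0 := Iff.rfl

variable (p : M →ₗ[ℂ] M) (hpj : ∀ v, p (j v) = j v)
variable (hpx : ∀ (ξ : Module.Dual ℂ D.V) (m : M), p (π (D.rgen c (.x ξ)) m) = 0)
variable (hj : Function.Injective j)
variable (hs : ∀ m : M, m ≠ 0 → ∀ v : L.E, ∃ a, π a m = j v)
variable (hnil : ∃ N : ℕ, ∀ l : List (Module.Dual ℂ D.V), N ≤ l.length → xword D c l = 0)

theorem layer_zero_decomp {z : D.BabyVerma c L} (hz : z ∈ layer D c L 0) :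
    ∃ v : L.E, ∃ z1 ∈ layer D c L 1, z = D.vermaMk c L 1 v + z1 := by
  induction hz using Submodule.span_induction with
  | mem x hx =>
    obtain ⟨l, -, v, rfl⟩ := hx
    cases l with
    | nil => exact ⟨v, 0, Submodule.zero_mem _, by rw [xword_nil', add_zero]⟩
    | cons a l =>
      refine ⟨0, _, Submodule.subset_span ⟨a :: l, by simp, v, rfl⟩, ?_⟩
      rw [vermaMk_zero_right, zero_add]
  | zero => exact ⟨0, 0, Submodule.zero_mem _, by rw [vermaMk_zero_right, add_zero]⟩
  | add x y _ _ hx hy =>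
    obtain ⟨v, z, hz, rfl⟩ := hx
    obtain ⟨v', z', hz', rfl⟩ := hy
    refine ⟨v + v', z + z', Submodule.add_mem _ hz hz', ?_⟩
    rw [vermaMk_add]
    abel
  | smul r x _ hx =>
    obtain ⟨v, z, hz, rfl⟩ := hx
    refine ⟨r • v, r • z, Submodule.smul_mem _ _ hz, ?_⟩
    rw [vermaMk_csmul, smul_add]

include hpx in
theorem p_vF_layer_one {z : D.BabyVerma c L} (hz : z ∈ layer D c L 1) :
    p (vF π j hjw hjy z) = 0 := by
  induction hz using Submodule.span_induction with
  | mem x hx =>
    obtain ⟨l, hl, v, rfl⟩ := hx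
    rw [vF_mk]
    cases l with
    | nil => simp at hl
    | cons a l =>
      rw [xword_cons, map_mul]
      exact hpx _ _
  | zero => rw [vF_zero, map_zero]
  | add x y _ _ hx hy => rw [vF_add, map_add, hx, hy, add_zero]
  | smul r x _ hx => rw [vF_csmul, map_smul, hx, smul_zero]

include hpj hpx hj in
theorem ker_le_layer_one {z : D.BabyVerma c L} (hz : vF π j hjw hjy z = 0) :
    z ∈ layer D c L 1 := by
  have hz0 : z ∈ layer D c L 0 := by rw [layer_zero_eq_top]; trivial
  obtain ⟨v, z1, hz1, rfl⟩ := layer_zero_decomp hz0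
  have h1 := p_vF_layer_one π j hjw hjy p hpx hz1
  have h2 : vF π j hjw hjy (D.vermaMk c L 1 v) = j v := by
    rw [vF_mk, map_one]; rfl
  rw [vF_add, h2] at hz
  have h3 : p (j v) = 0 := by
    have := congrArg p hz
    rwa [map_add, h1, add_zero, map_zero] at this
  rw [hpj] at h3
  have hv : v = 0 := hj (by rw [h3, map_zero])
  rw [hv, vermaMk_zero_right, zero_add]
  exact hz1

theorem xword_smul_layer_one (l : List (Module.Dual ℂ D.V)) {z : D.BabyVerma c L}
    (hz : z ∈ layer D c L 1) : xword D c l • z ∈ layer D c L (l.length + 1) := by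
  induction l with
  | nil => rw [xword_nil', one_smul]; exact hz
  | cons a l ih =>
    rw [xword_cons, mul_smul]
    simpa using x_smul_layer a ih

include hpj hpx hj hs hnil in
theorem le_ker_of_ne_top {N : Submodule (D.Restricted c) (D.BabyVerma c L)} (hN : N ≠ ⊤) :
    N ≤ LinearMap.ker (vMap π j hjw hjy) := by
  by_contra hcon
  obtain ⟨n, hnN, hn⟩ := Set.not_subset.1 hcon
  have hn' : vF π j hjw hjy n ≠ 0 := fun h => hn h
  apply hN
  let N' : Submodule ℂ (D.BabyVerma c L) := N.restrictScalars ℂ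
  have hone : ∀ v : L.E, ∃ a : D.Restricted c, ∃ k ∈ layer D c L 1,
      D.vermaMk c L 1 v = a • n + k := by
    intro v
    obtain ⟨a, ha⟩ := hs _ hn' v
    refine ⟨a, D.vermaMk c L 1 v - a • n, ?_, by abel⟩
    refine ker_le_layer_one π j hjw hjy p hpj hpx hj ?_
    rw [vF_sub, vF_smul, vF_mk, sub_eq_zero, map_one, ha]
    rfl
  have hstep : ∀ m : ℕ, layer D c L m ≤ N' ⊔ layer D c L (m + 1) := by
    intro m
    rw [layer, Submodule.span_le]
    rintro z ⟨l, hl, v, rfl⟩
    obtain ⟨a, k, hk, hak⟩ := hone v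
    have h1 : D.vermaMk c L (xword D c l) v = (xword D c l * a) • n + xword D c l • k := by
      rw [mul_smul, ← smul_add, ← hak, smul_vermaMk, mul_one]
    rw [h1]
    refine Submodule.add_mem_sup (N.smul_mem _ hnN) ?_
    exact layer_anti (by omega) (xword_smul_layer_one l hk)
  have hall : ∀ m : ℕ, (⊤ : Submodule ℂ (D.BabyVerma c L)) ≤ N' ⊔ layer D c L m := by
    intro m
    induction m with
    | zero => rw [← layer_zero_eq_top]; exact le_sup_right
    | succ m ih =>
      refine ih.trans (sup_le le_sup_left (hstep m))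
  obtain ⟨K, hK⟩ := hnil
  have hbot : layer D c L K = ⊥ := by
    rw [eq_bot_iff, layer, Submodule.span_le]
    rintro z ⟨l, hl, v, rfl⟩
    rw [hK l hl, vermaMk_zero_left]
    exact Submodule.zero_mem _
  have htop := hall K
  rw [hbot, sup_bot_eq] at htop
  rw [eq_top_iff]
  intro z _
  exact htop (Submodule.mem_top (x := z))

include hpj hpx hj hs hnil in
theorem maxSubmodule_eq_ker [Nontrivial L.E] :
    D.maxSubmodule c L = LinearMap.ker (vMap π j hjw hjy) := by
  apply le_antisymm
  · refine sSup_le fun N hN => ?_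
    exact le_ker_of_ne_top π j hjw hjy p hpj hpx hj hs hnil hN
  · refine le_sSup ?_
    intro htop
    obtain ⟨v, hv⟩ := exists_ne (0 : L.E)
    have h1 : D.vermaMk c L 1 v ∈ LinearMap.ker (vMap π j hjw hjy) := by rw [htop]; trivial
    rw [mem_ker_vMap, vF_mk, map_one] at h1
    exact hv (hj (by rw [map_zero]; exact h1))

/-- The quotient map to the simple quotient. -/
def smk (D : Datum) (c : D.Ref → ℂ) (L : D.Rep) :
    D.BabyVerma c L →ₗ[D.Restricted c] D.SimpleQuotient c L := (D.maxSubmodule c L).mkQ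

theorem cx_smul_simple (r : ℂ) (z : D.SimpleQuotient c L) :
    r • z = algebraMap ℂ (D.Restricted c) r • z := rfl

/-- The map from the simple quotient to the model. -/
def sMap (hker : D.maxSubmodule c L ≤ LinearMap.ker (vMap π j hjw hjy)) :
    D.SimpleQuotient c L →ₗ[D.Restricted c] Mod π :=
  (D.maxSubmodule c L).liftQ (vMap π j hjw hjy) hker

/-- The map from the simple quotient to the model, as a complex linear map. -/
def sMapC (hker : D.maxSubmodule c L ≤ LinearMap.ker (vMap π j hjw hjy)) :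
    D.SimpleQuotient c L →ₗ[ℂ] M where
  toFun z := sMap π j hjw hjy hker z
  map_add' x y := map_add (sMap π j hjw hjy hker) x y
  map_smul' r x := by
    rw [cx_smul_simple, map_smul, mod_smul, AlgHom.commutes]
    rfl

theorem sMapC_mk (hker : D.maxSubmodule c L ≤ LinearMap.ker (vMap π j hjw hjy))
    (a : D.Restricted c) (v : L.E) :
    sMapC π j hjw hjy hker (D.simpleMk c L a v) = π a (j v) := rfl

include hjw hjy hpj hpx hj hs hnil in
/-- The Poincaré series of the simple quotient, computed in a model. -/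
theorem poincare_eq [Nontrivial L.E] (i : ℤ) :
    D.poincare c L i = Module.finrank ℂ
      (Submodule.span ℂ {m : M | ∃ a ∈ D.degPart c i, ∃ v : L.E, m = π a (j v)}) := by
  have hker := maxSubmodule_eq_ker π j hjw hjy p hpj hpx hj hs hnil
  have hΨ : Function.Injective (sMap π j hjw hjy hker.le) := by
    have h1 : LinearMap.ker ((D.maxSubmodule c L).liftQ (vMap π j hjw hjy) hker.le) = ⊥ :=
      Submodule.ker_liftQ_eq_bot _ _ _ hker.ge
    exact LinearMap.ker_eq_bot.1 h1
  have hΨ' : Function.Injective (sMapC π j hjw hjy hker.le) := hΨ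
  have hmap : (D.simplePart c L i).map (sMapC π j hjw hjy hker.le) =
      Submodule.span ℂ {m : M | ∃ a ∈ D.degPart c i, ∃ v : L.E, m = π a (j v)} := by
    rw [Datum.simplePart, Submodule.map_span]
    congr 1
    ext m
    constructor
    · rintro ⟨z, ⟨a, ha, v, rfl⟩, rfl⟩
      exact ⟨a, ha, v, rfl⟩
    · rintro ⟨a, ha, v, rfl⟩
      exact ⟨_, ⟨a, ha, v, rfl⟩, rfl⟩
  rw [Datum.poincare, ← hmap]
  exact (Submodule.equivMapOfInjective (sMapC π j hjw hjy hker.le) hΨ'
    (D.simplePart c L i)).finrank_eq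

include hjw hjy hpj hpx hj hs hnil in
/-- The quotient is simple. -/
theorem simple_of_model [Nontrivial L.E] :
    IsSimpleModule (D.Restricted c) (D.SimpleQuotient c L) := by
  have hker := maxSubmodule_eq_ker π j hjw hjy p hpj hpx hj hs hnil
  have h1 : IsCoatom (D.maxSubmodule c L) := by
    constructor
    · intro htop
      rw [hker] at htop
      obtain ⟨v, hv⟩ := exists_ne (0 : L.E)
      have h1 : D.vermaMk c L 1 v ∈ LinearMap.ker (vMap π j hjw hjy) := by rw [htop]; trivial
      rw [mem_ker_vMap, vF_mk, map_one] at h1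
      exact hv (hj (by rw [map_zero]; exact h1))
    · intro N hN
      by_contra hne
      exact absurd (le_sSup (a := N) hne) (not_le_of_gt hN)
  exact isSimpleModule_iff_isCoatom.2 h1

end Model

end

end Pool.Agent.Helper11.RRCA
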