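import Pool.Agent.Helper11.RRCA.Equivar
import Pool.Agent.Helper11.RRCA.General

/-!
# The complex reflection group of type `G(5,5,4)`
-/

namespace Pool.Agent.Helper11.RRCA

noncomputable section

theorem p_ai (σ : Equiv.Perm (Fin 4)) (k : Fin 4) : σ (σ⁻¹ k) = k := σ.apply_symm_apply k

theorem p_ia (σ : Equiv.Perm (Fin 4)) (k : Fin 4) : σ⁻¹ (σ k) = k := σ.symm_apply_apply k

/-- The space `ℂ⁴`. -/
abbrev V4 : Type := Fin 4 → ℂ

/-- Reflections of `ℂ⁴`. -/
def IsRefl4 (s : (Fin 4 → ℂ) ≃ₗ[ℂ] (Fin 4 → ℂ)) : Prop :=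
  Module.finrank ℂ (LinearMap.range
    ((s : (Fin 4 → ℂ) →ₗ[ℂ] (Fin 4 → ℂ)) - LinearMap.id)) = 1

theorem ψ_inj {a b : ZMod 5} (h : ψ a = ψ b) : a = b := ZMod.injective_stdAddChar h

theorem ψ_ne (a : ZMod 5) : ψ a ≠ 0 := by
  intro h
  have h1 : ψ a * ψ (-a) = 1 := by rw [← AddChar.map_add_eq_mul, add_neg_cancel, AddChar.map_zero_eq_one]
  rw [h, zero_mul] at h1
  exact zero_ne_one h1

/-- The monomial map `e_i ↦ ψ (a i) e_{σ i}`. -/
def monoL (a : Fin 4 → ZMod 5) (σ : Equiv.Perm (Fin 4)) : V4 →ₗ[ℂ] V4 where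
  toFun v k := ψ (a (σ⁻¹ k)) * v (σ⁻¹ k)
  map_add' v w := by funext k; simp only [Pi.add_apply]; ring
  map_smul' r v := by
    funext k
    simp only [Pi.smul_apply, smul_eq_mul, RingHom.id_apply]
    ring

theorem monoL_apply (a : Fin 4 → ZMod 5) (σ : Equiv.Perm (Fin 4)) (v : V4) (k : Fin 4) :
    monoL a σ v k = ψ (a (σ⁻¹ k)) * v (σ⁻¹ k) := rfl

theorem monoL_mul (a b : Fin 4 → ZMod 5) (σ τ : Equiv.Perm (Fin 4)) :
    monoL a σ ∘ₗ monoL b τ = monoL (fun k => b k + a (τ k)) (σ * τ) := by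
  refine LinearMap.ext fun v => ?_
  funext k
  rw [LinearMap.comp_apply, monoL_apply, monoL_apply, monoL_apply, mul_inv_rev,
    Equiv.Perm.mul_apply, p_ai, AddChar.map_add_eq_mul]
  ring

theorem monoL_one : monoL 0 1 = LinearMap.id := by
  refine LinearMap.ext fun v => ?_
  funext k
  rw [monoL_apply]
  simp

/-- The monomial matrix as an element of `GL(ℂ⁴)`. -/
def mono (a : Fin 4 → ZMod 5) (σ : Equiv.Perm (Fin 4)) : V4 ≃ₗ[ℂ] V4 :=
  LinearEquiv.ofLinearMap (monoL a σ) (monoL (fun k => -a (σ⁻¹ k)) σ⁻¹)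
    (by
      rw [monoL_mul, mul_inv_cancel]
      simp only [neg_add_cancel]
      exact monoL_one)
    (by
      rw [monoL_mul, inv_mul_cancel]
      simp only [p_ia, add_neg_cancel]
      exact monoL_one)

theorem mono_apply (a : Fin 4 → ZMod 5) (σ : Equiv.Perm (Fin 4)) (v : V4) :
    mono a σ v = monoL a σ v := rfl

theorem mono_mul (a b : Fin 4 → ZMod 5) (σ τ : Equiv.Perm (Fin 4)) :
    mono a σ * mono b τ = mono (fun k => b k + a (τ k)) (σ * τ) := by
  refine LinearEquiv.ext fun v => ?_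
  rw [LinearEquiv.mul_apply, mono_apply, mono_apply, mono_apply, ← monoL_mul]
  rfl

theorem mono_one : mono 0 1 = 1 := by
  refine LinearEquiv.ext fun v => ?_
  rw [mono_apply, monoL_one]
  rfl

theorem mono_inv (a : Fin 4 → ZMod 5) (σ : Equiv.Perm (Fin 4)) :
    (mono a σ)⁻¹ = mono (fun k => -a (σ⁻¹ k)) σ⁻¹ := by
  rw [inv_eq_iff_mul_eq_one, mono_mul, mul_inv_cancel]
  simp only [neg_add_cancel]
  exact mono_one

/-- Standard basis vectors. -/
def e4 (i : Fin 4) : V4 := Pi.single i 1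

theorem e4_apply (i k : Fin 4) : e4 i k = if k = i then 1 else 0 := by
  unfold e4
  rw [Pi.single_apply]

theorem monoL_e4 (a : Fin 4 → ZMod 5) (σ : Equiv.Perm (Fin 4)) (i : Fin 4) :
    monoL a σ (e4 i) = ψ (a i) • e4 (σ i) := by
  funext k
  rw [monoL_apply, Pi.smul_apply, e4_apply, e4_apply, smul_eq_mul]
  by_cases h : k = σ i
  · have h' : σ⁻¹ k = i := by rw [h, p_ia]
    rw [if_pos h, if_pos h', h']
  · have h' : σ⁻¹ k ≠ i := fun h' => h (by rw [← h', p_ai])
    rw [if_neg h, if_neg h', mul_zero, mul_zero]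

theorem mono_inj {a b : Fin 4 → ZMod 5} {σ τ : Equiv.Perm (Fin 4)} (h : mono a σ = mono b τ) :
    a = b ∧ σ = τ := by
  have key : ∀ i, σ i = τ i ∧ a i = b i := by
    intro i
    have h1 : mono a σ (e4 i) = mono b τ (e4 i) := by rw [h]
    rw [mono_apply, mono_apply, monoL_e4, monoL_e4] at h1
    have h2 := congrFun h1 (σ i)
    rw [Pi.smul_apply, Pi.smul_apply, e4_apply, e4_apply, if_pos rfl, smul_eq_mul, smul_eq_mul,
      mul_one] at h2
    by_cases h3 : σ i = τ i
    · rw [if_pos h3, mul_one] at h2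
      exact ⟨h3, ψ_inj h2⟩
    · rw [if_neg h3, mul_zero] at h2
      exact absurd h2 (ψ_ne _)
  exact ⟨funext fun i => (key i).2, Equiv.ext fun i => (key i).1⟩

/-- The group `G(5,5,4)`: monomial matrices whose nonzero entries are fifth roots of unity with
product one. -/
def G554 : Subgroup (V4 ≃ₗ[ℂ] V4) where
  carrier := {g | ∃ (a : Fin 4 → ZMod 5) (σ : Equiv.Perm (Fin 4)), ∑ k, a k = 0 ∧ g = mono a σ}
  mul_mem' := by
    rintro _ _ ⟨a, σ, ha, rfl⟩ ⟨b, τ, hb, rfl⟩
    refine ⟨_, _, ?_, mono_mul a b σ τ⟩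
    rw [Finset.sum_add_distrib, hb, Equiv.sum_comp τ a, ha, add_zero]
  one_mem' := ⟨0, 1, by simp, mono_one.symm⟩
  inv_mem' := by
    rintro _ ⟨a, σ, ha, rfl⟩
    refine ⟨_, _, ?_, mono_inv a σ⟩
    rw [Finset.sum_neg_distrib, Equiv.sum_comp σ⁻¹ a, ha, neg_zero]

/-- Elements of the group from coordinates. -/
def el (a : Fin 4 → ZMod 5) (σ : Equiv.Perm (Fin 4)) (h : ∑ k, a k = 0) : G554 :=
  ⟨mono a σ, a, σ, h, rfl⟩

theorem el_val (a : Fin 4 → ZMod 5) (σ : Equiv.Perm (Fin 4)) (h : ∑ k, a k = 0) :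
    ((el a σ h : G554) : V4 ≃ₗ[ℂ] V4) = mono a σ := rfl

theorem exists_el (g : G554) : ∃ a σ h, g = el a σ h := by
  obtain ⟨g, a, σ, h, rfl⟩ := g
  exact ⟨a, σ, h, rfl⟩

/-- The diagonal coordinates. -/
def cA (g : G554) : Fin 4 → ZMod 5 := g.2.choose

/-- The permutation coordinate. -/
def cS (g : G554) : Equiv.Perm (Fin 4) := g.2.choose_spec.choose

theorem c_spec (g : G554) : (g : V4 ≃ₗ[ℂ] V4) = mono (cA g) (cS g) :=
  g.2.choose_spec.choose_spec.2

theorem cA_sum (g : G554) : ∑ k, cA g k = 0 :=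
  g.2.choose_spec.choose_spec.1

theorem c_el (a : Fin 4 → ZMod 5) (σ : Equiv.Perm (Fin 4)) (h : ∑ k, a k = 0) :
    cA (el a σ h) = a ∧ cS (el a σ h) = σ :=
  mono_inj (c_spec (el a σ h)).symm

theorem G554_finite : Finite G554 := by
  refine Finite.of_injective (fun g : G554 => (cA g, cS g)) fun g h hgh => ?_
  have h1 : cA g = cA h := congrArg Prod.fst hgh
  have h2 : cS g = cS h := congrArg Prod.snd hgh
  refine Subtype.ext ?_
  rw [c_spec g, c_spec h, h1, h2]

/-- The vector `k (ε_i - ε_j)`. -/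
def dv (i j : Fin 4) (k : ZMod 5) : Fin 4 → ZMod 5 := Pi.single i k - Pi.single j k

theorem dv_sum (i j : Fin 4) (k : ZMod 5) : ∑ l, dv i j k l = 0 := by
  unfold dv
  simp [Finset.sum_sub_distrib]

/-- The standard reflections. -/
def rf (i j : Fin 4) (k : ZMod 5) : G554 := el (dv i j k) (Equiv.swap i j) (dv_sum i j k)

theorem dv_left {i j : Fin 4} (h : i ≠ j) (k : ZMod 5) : dv i j k i = k := by
  simp [dv, h]

theorem dv_right {i j : Fin 4} (h : i ≠ j) (k : ZMod 5) : dv i j k j = -k := by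
  simp [dv, h.symm]

theorem dv_other {i j l : Fin 4} (h : l ≠ i) (h' : l ≠ j) (k : ZMod 5) : dv i j k l = 0 := by
  simp [dv, h, h']

theorem rf_e4_left {i j : Fin 4} (h : i ≠ j) (k : ZMod 5) :
    ((rf i j k : G554) : V4 ≃ₗ[ℂ] V4) (e4 i) = ψ k • e4 j := by
  rw [rf, el_val, mono_apply, monoL_e4, dv_left h, Equiv.swap_apply_left]

theorem rf_e4_right {i j : Fin 4} (h : i ≠ j) (k : ZMod 5) :
    ((rf i j k : G554) : V4 ≃ₗ[ℂ] V4) (e4 j) = ψ (-k) • e4 i := by
  rw [rf, el_val, mono_apply, monoL_e4, dv_right h, Equiv.swap_apply_right]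

theorem rf_e4_other {i j l : Fin 4} (h : l ≠ i) (h' : l ≠ j) (k : ZMod 5) :
    ((rf i j k : G554) : V4 ≃ₗ[ℂ] V4) (e4 l) = e4 l := by
  rw [rf, el_val, mono_apply, monoL_e4, dv_other h h', Equiv.swap_apply_of_ne_of_ne h h',
    AddChar.map_zero_eq_one, one_smul]

theorem v4_eq_sum (v : V4) : v = ∑ i, v i • e4 i := by
  funext k
  simp [e4_apply, Finset.sum_apply]

theorem rf_sub_apply {i j : Fin 4} (h : i ≠ j) (k : ZMod 5) (v : V4) :
    ((rf i j k : G554) : V4 ≃ₗ[ℂ] V4) v - v =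
      (v i - ψ (-k) * v j) • (ψ k • e4 j - e4 i) := by
  have h1 : ψ k * ψ (-k) = 1 := by
    rw [← AddChar.map_add_eq_mul, add_neg_cancel, AddChar.map_zero_eq_one]
  funext l
  rw [rf, el_val, mono_apply, Pi.sub_apply, monoL_apply, Equiv.swap_inv, Pi.smul_apply,
    Pi.sub_apply, Pi.smul_apply, e4_apply, e4_apply, smul_eq_mul, smul_eq_mul]
  by_cases hi : l = i
  · rw [hi, Equiv.swap_apply_left, dv_right h, if_neg h, if_pos rfl]
    ring
  · by_cases hj : l = j
    · rw [hj, Equiv.swap_apply_right, dv_left h, if_neg h.symm, if_pos rfl]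
      linear_combination v j * h1
    · rw [Equiv.swap_apply_of_ne_of_ne hi hj, dv_other hi hj, if_neg hi, if_neg hj,
        AddChar.map_zero_eq_one]
      ring

theorem isRefl4_rf {i j : Fin 4} (h : i ≠ j) (k : ZMod 5) :
    IsRefl4 ((rf i j k : G554) : V4 ≃ₗ[ℂ] V4) := by
  unfold IsRefl4
  have h1 : LinearMap.range ((((rf i j k : G554) : V4 ≃ₗ[ℂ] V4) : V4 →ₗ[ℂ] V4) - LinearMap.id) =
      Submodule.span ℂ {ψ k • e4 j - e4 i} := by
    apply le_antisymm
    · rintro _ ⟨v, rfl⟩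
      rw [LinearMap.sub_apply, LinearMap.id_apply]
      have := rf_sub_apply h k v
      change ((rf i j k : G554) : V4 ≃ₗ[ℂ] V4) v - v ∈ _
      rw [this]
      exact Submodule.smul_mem _ _ (Submodule.mem_span_singleton_self _)
    · rw [Submodule.span_le, Set.singleton_subset_iff]
      refine ⟨e4 i, ?_⟩
      rw [LinearMap.sub_apply, LinearMap.id_apply]
      have := rf_sub_apply h k (e4 i)
      change ((rf i j k : G554) : V4 ≃ₗ[ℂ] V4) (e4 i) - (e4 i) = _
      rw [this, e4_apply, e4_apply, if_pos rfl, if_neg h.symm, mul_zero, sub_zero, one_smul]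
  rw [h1, finrank_span_singleton]
  intro h0
  have := congrFun h0 i
  rw [Pi.sub_apply, Pi.smul_apply, e4_apply, e4_apply, if_neg h, if_pos rfl] at this
  simp at this

/-- Classification of the reflections. -/
theorem refl_classify (g : G554) (hg : IsRefl4 (g : V4 ≃ₗ[ℂ] V4)) :
    ∃ i j k, i ≠ j ∧ g = rf i j k := by
  obtain ⟨a, σ, ha, rfl⟩ := exists_el g
  unfold IsRefl4 at hg
  rw [finrank_eq_one_iff'] at hg
  obtain ⟨⟨v, hv⟩, hv0, hall⟩ := hg
  -- the matrix entries of `g - 1`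
  have hcol : ∀ i, ∃ c : ℂ, ∀ k, c * v k = ψ (a i) * (if k = σ i then 1 else 0) -
      (if k = i then 1 else 0) := by
    intro i
    obtain ⟨c, hc⟩ := hall ⟨_, ⟨e4 i, rfl⟩⟩
    refine ⟨c, fun k => ?_⟩
    have h1 := congrFun (congrArg Subtype.val hc) k
    change c * v k = (monoL a σ (e4 i) - e4 i) k at h1
    rw [h1, monoL_e4, Pi.sub_apply, Pi.smul_apply, e4_apply, e4_apply, smul_eq_mul]
  have hminor : ∀ i j k l : Fin 4,
      (ψ (a i) * (if k = σ i then 1 else 0) - (if k = i then 1 else 0)) *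
        (ψ (a j) * (if l = σ j then 1 else 0) - (if l = j then 1 else 0)) =
      (ψ (a i) * (if l = σ i then 1 else 0) - (if l = i then 1 else 0)) *
        (ψ (a j) * (if k = σ j then 1 else 0) - (if k = j then 1 else 0)) := by
    intro i j k l
    obtain ⟨c, hc⟩ := hcol i
    obtain ⟨d, hd⟩ := hcol j
    rw [← hc k, ← hc l, ← hd k, ← hd l]
    ring
  by_cases hσ : σ = 1
  · -- diagonal case
    exfalso
    subst hσ
    have h1 : ∀ i j, i ≠ j → a i = 0 ∨ a j = 0 := by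
      intro i j hij
      have := hminor i j i j
      simp only [Equiv.Perm.one_apply, if_true, hij, hij.symm, if_false] at this
      have h2 : (ψ (a i) - 1) * (ψ (a j) - 1) = 0 := by linear_combination this
      rcases mul_eq_zero.1 h2 with h3 | h3
      · left
        apply ψ_inj
        rw [AddChar.map_zero_eq_one]
        linear_combination h3
      · right
        apply ψ_inj
        rw [AddChar.map_zero_eq_one]
        linear_combination h3
    have h2 : a = 0 := by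
      funext i
      by_contra hi
      have h3 : ∀ j, j ≠ i → a j = 0 := fun j hj => (h1 j i hj).resolve_right hi
      rw [Finset.sum_eq_single i (fun j _ hj => h3 j hj) (by simp)] at ha
      exact hi ha
    apply hv0
    apply Subtype.ext
    obtain ⟨w, hw⟩ := hv
    change v = 0
    rw [← hw]
    change monoL a 1 w - w = 0
    rw [h2, monoL_one]
    simp
  · obtain ⟨i, hi⟩ : ∃ i, σ i ≠ i := by
      by_contra hcon
      push Not at hcon
      exact hσ (Equiv.ext hcon)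
    have hfix : ∀ k, k ≠ i → k ≠ σ i → σ k = k ∧ a k = 0 := by
      intro k hk hk'
      have h1 := hminor i k i k
      have hik : i ≠ k := fun h => hk h.symm
      have hiσ : i ≠ σ i := fun h => hi h.symm
      simp only [hk, hk', hiσ, hik, if_true, if_false] at h1
      have h2 : ψ (a k) * (if k = σ k then 1 else 0) = 1 := by linear_combination -h1
      by_cases h3 : k = σ k
      · rw [if_pos h3, mul_one] at h2
        refine ⟨h3.symm, ψ_inj ?_⟩
        rw [h2, AddChar.map_zero_eq_one]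
      · rw [if_neg h3, mul_zero] at h2
        exact absurd h2 zero_ne_one
    have hσi : σ (σ i) = i := by
      by_contra hne
      have h1 : σ (σ i) ≠ σ i := fun h => hi (σ.injective h)
      have h2 := (hfix (σ (σ i)) hne h1).1
      exact h1 (σ.injective h2)
    have hswap : σ = Equiv.swap i (σ i) := by
      refine Equiv.ext fun k => ?_
      by_cases h1 : k = i
      · rw [h1, Equiv.swap_apply_left]
      · by_cases h2 : k = σ i
        · rw [h2, Equiv.swap_apply_right, hσi]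
        · rw [Equiv.swap_apply_of_ne_of_ne h1 h2, (hfix k h1 h2).1]
    have hsum : a i + a (σ i) = 0 := by
      rw [← ha]
      symm
      exact Finset.sum_eq_add i (σ i) hi.symm (fun k _ hk => (hfix k hk.1 hk.2).2) (by simp)
        (by simp)
    refine ⟨i, σ i, a i, fun h => hi h.symm, ?_⟩
    apply Subtype.ext
    rw [rf, el_val, el_val, ← hswap]
    congr 1
    funext k
    by_cases h1 : k = i
    · rw [h1, dv_left (fun h => hi h.symm)]
    · by_cases h2 : k = σ i
      · rw [h2, dv_right (fun h => hi h.symm)]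
        linear_combination hsum
      · rw [dv_other h1 h2, (hfix k h1 h2).2]

theorem ψ_sum (a : Fin 4 → ZMod 5) : ψ (∑ k, a k) = ∏ k, ψ (a k) := by
  rw [Fin.sum_univ_four, Fin.prod_univ_four, AddChar.map_add_eq_mul, AddChar.map_add_eq_mul,
    AddChar.map_add_eq_mul]

theorem det_monoL (a : Fin 4 → ZMod 5) (σ : Equiv.Perm (Fin 4)) (h : ∑ k, a k = 0) :
    LinearMap.det (monoL a σ) = ((Equiv.Perm.sign σ : ℤ) : ℂ) := by
  have h1 : LinearMap.toMatrix' (monoL a σ) =
      (Matrix.diagonal fun k => ψ (a k)).submatrix (⇑(σ⁻¹)) id := by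
    ext r k
    rw [LinearMap.toMatrix'_apply, Matrix.submatrix_apply, monoL_apply, Matrix.diagonal_apply, id]
    by_cases hk : σ⁻¹ r = k
    · rw [if_pos hk, hk, Pi.single_eq_same, mul_one]
    · rw [if_neg hk, Pi.single_eq_of_ne hk, mul_zero]
  rw [← LinearMap.det_toMatrix', h1, Matrix.det_permute, Matrix.det_diagonal, Equiv.Perm.sign_inv]
  have h2 : ∏ i, ψ (a i) = 1 := by
    rw [← ψ_sum, h, AddChar.map_zero_eq_one]
  rw [h2, mul_one]

theorem det_rf {i j : Fin 4} (h : i ≠ j) (k : ZMod 5) :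
    LinearMap.det (((rf i j k : G554) : V4 ≃ₗ[ℂ] V4) : V4 →ₗ[ℂ] V4) = -1 := by
  have h1 : (((rf i j k : G554) : V4 ≃ₗ[ℂ] V4) : V4 →ₗ[ℂ] V4) =
      monoL (dv i j k) (Equiv.swap i j) := rfl
  rw [h1, det_monoL _ _ (dv_sum i j k), Equiv.Perm.sign_swap h]
  simp

/-- The natural representation of the group on `ℂ⁴`. -/
def natRep : Representation ℂ G554 V4 where
  toFun g := ((g : V4 ≃ₗ[ℂ] V4) : V4 →ₗ[ℂ] V4)
  map_one' := rfl
  map_mul' _ _ := rfl

/-- The group `G(5,5,4)` acting on `ℂ⁴`. -/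
abbrev R554 : Datum where
  V := V4
  W := G554
  τ := natRep

theorem R554_op (g : G554) (v : V4) : R554.op g v = (g : V4 ≃ₗ[ℂ] V4) v := rfl

theorem rank_iff4 (f : V4 →ₗ[ℂ] V4) :
    LinearMap.rank f = 1 ↔ Module.finrank ℂ (LinearMap.range f) = 1 :=
  Module.rank_eq_one_iff_finrank_eq_one

theorem R554_refl (g : G554) : R554.IsReflection g ↔ IsRefl4 (g : V4 ≃ₗ[ℂ] V4) := by
  have h := rank_iff4 (((g : V4 ≃ₗ[ℂ] V4) : V4 →ₗ[ℂ] V4) - LinearMap.id)
  exact h

theorem isReflection_rf {i j : Fin 4} (h : i ≠ j) (k : ZMod 5) :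
    R554.IsReflection (rf i j k) := (R554_refl _).2 (isRefl4_rf h k)

theorem refl_classify' (s : R554.Ref) : ∃ i j k, i ≠ j ∧ s.1 = rf i j k :=
  refl_classify s.1 ((R554_refl _).1 s.2)

theorem pairing_rf {i j : Fin 4} (h : i ≠ j) (k : ZMod 5) (v : V4) (ξ : Module.Dual ℂ V4) :
    R554.pairing (rf i j k) v ξ = (v i - ψ (-k) * v j) * (ξ (e4 i) - ψ k * ξ (e4 j)) := by
  have h0 : R554.pairing (rf i j k) v ξ =
      2 / (1 - LinearMap.det (((rf i j k : G554) : V4 ≃ₗ[ℂ] V4) : V4 →ₗ[ℂ] V4)) *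
        ξ (v - ((rf i j k : G554) : V4 ≃ₗ[ℂ] V4) v) := rfl
  rw [h0, det_rf h]
  have h1 : v - ((rf i j k : G554) : V4 ≃ₗ[ℂ] V4) v =
      (v i - ψ (-k) * v j) • (e4 i - ψ k • e4 j) := by
    rw [← neg_sub, rf_sub_apply h, ← smul_neg, neg_sub]
  rw [h1, map_smul, map_sub, map_smul, smul_eq_mul, smul_eq_mul]
  ring

theorem el_mul (a b : Fin 4 → ZMod 5) (σ τ : Equiv.Perm (Fin 4)) (ha : ∑ k, a k = 0)
    (hb : ∑ k, b k = 0) (hab : ∑ k, (b k + a (τ k)) = 0) :
    el a σ ha * el b τ hb = el (fun k => b k + a (τ k)) (σ * τ) hab :=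
  Subtype.ext (mono_mul a b σ τ)

theorem el_congr {a b : Fin 4 → ZMod 5} {σ τ : Equiv.Perm (Fin 4)} (ha : ∑ k, a k = 0)
    (hb : ∑ k, b k = 0) (h1 : a = b) (h2 : σ = τ) : el a σ ha = el b τ hb := by
  subst h1 h2
  rfl

/-- All reflections are conjugate. -/
theorem rf_conj {i j : Fin 4} (h : i ≠ j) (k : ZMod 5) :
    ∃ w : G554, rf i j k = w * rf 0 1 0 * w⁻¹ := by
  obtain ⟨τ, h0, h1⟩ : ∃ τ : Equiv.Perm (Fin 4), τ 0 = i ∧ τ 1 = j := by
    revert i j
    decide +kernel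
  refine ⟨el (dv 1 2 k) τ (dv_sum 1 2 k), ?_⟩
  rw [eq_mul_inv_iff_mul_eq]
  apply Subtype.ext
  change mono (dv i j k) (Equiv.swap i j) * mono (dv 1 2 k) τ =
    mono (dv 1 2 k) τ * mono (dv 0 1 0) (Equiv.swap 0 1)
  rw [mono_mul, mono_mul]
  have h2 : Equiv.swap i j * τ = τ * Equiv.swap 0 1 := by
    rw [← h0, ← h1]
    exact Equiv.swap_mul_eq_mul_swap τ _ _ ▸ by simp
  rw [h2]
  congr 1
  funext l
  by_cases hl0 : l = 0
  · subst hl0
    rw [h0, dv_left h, dv_other (by decide) (by decide), dv_left (by decide),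
      Equiv.swap_apply_left, dv_left (by decide)]
  · by_cases hl1 : l = 1
    · subst hl1
      rw [h1, dv_right h, dv_left (by decide), dv_right (by decide),
        Equiv.swap_apply_right, dv_other (by decide) (by decide)]
      ring
    · have h3 : τ l ≠ i := fun h' => hl0 (τ.injective (by rw [h', h0]))
      have h4 : τ l ≠ j := fun h' => hl1 (τ.injective (by rw [h', h1]))
      rw [dv_other h3 h4, dv_other hl0 hl1, Equiv.swap_apply_of_ne_of_ne hl0 hl1]
      ring

/-- The standard reflections as elements of `Ref`. -/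
def rfR (i j : Fin 4) (h : i ≠ j) (k : ZMod 5) : R554.Ref := ⟨rf i j k, isReflection_rf h k⟩

theorem param_const {c : R554.Ref → ℂ} (hc : R554.IsParameter c) (s : R554.Ref) :
    c s = c (rfR 0 1 (by decide) 0) := by
  obtain ⟨i, j, k, h, hs⟩ := refl_classify' s
  obtain ⟨w, hw⟩ := rf_conj h k
  exact hc w _ _ (hs.trans hw)

theorem mem_closure_perm (σ : Equiv.Perm (Fin 4)) (h : ∑ k, (0 : Fin 4 → ZMod 5) k = 0) :
    el 0 σ h ∈ Subgroup.closure {s : G554 | R554.IsReflection s} := by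
  refine Equiv.Perm.swap_induction_on σ ?_ ?_
  · have : el 0 1 h = 1 := Subtype.ext mono_one
    rw [this]; exact Subgroup.one_mem _
  · intro f i j hij ih
    have h1 : el 0 (Equiv.swap i j * f) h = rf i j 0 * el 0 f h := by
      apply Subtype.ext
      change mono 0 (Equiv.swap i j * f) = mono (dv i j 0) (Equiv.swap i j) * mono 0 f
      rw [mono_mul]
      congr 1
      funext k
      simp [dv]
    rw [h1]
    exact Subgroup.mul_mem _ (Subgroup.subset_closure (isReflection_rf hij 0)) ih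

theorem mem_closure_dv {i j : Fin 4} (h : i ≠ j) (k : ZMod 5) :
    el (dv i j k) 1 (dv_sum i j k) ∈ Subgroup.closure {s : G554 | R554.IsReflection s} := by
  have h1 : el (dv i j k) 1 (dv_sum i j k) = rf i j 0 * rf i j k := by
    apply Subtype.ext
    change mono (dv i j k) 1 = mono (dv i j 0) (Equiv.swap i j) * mono (dv i j k) (Equiv.swap i j)
    rw [mono_mul, Equiv.swap_mul_self]
    congr 1
    funext l
    simp [dv]
  rw [h1]
  exact Subgroup.mul_mem _ (Subgroup.subset_closure (isReflection_rf h 0))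
    (Subgroup.subset_closure (isReflection_rf h k))

theorem mem_closure_tor (a : Fin 4 → ZMod 5) (ha : ∑ k, a k = 0) :
    el a 1 ha ∈ Subgroup.closure {s : G554 | R554.IsReflection s} := by
  have h1 : a = dv 0 1 (a 0) + (dv 1 2 (a 0 + a 1) + dv 2 3 (a 0 + a 1 + a 2)) := by
    rw [Fin.sum_univ_four] at ha
    funext l
    fin_cases l
    · simp [dv]
    · simp [dv]
    · simp [dv]
      ring
    · simp [dv]
      linear_combination ha
  have h2 : el a 1 ha = el (dv 0 1 (a 0)) 1 (dv_sum _ _ _) *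
      (el (dv 1 2 (a 0 + a 1)) 1 (dv_sum _ _ _) * el (dv 2 3 (a 0 + a 1 + a 2)) 1 (dv_sum _ _ _)) := by
    apply Subtype.ext
    change mono a 1 = mono (dv 0 1 (a 0)) 1 *
      (mono (dv 1 2 (a 0 + a 1)) 1 * mono (dv 2 3 (a 0 + a 1 + a 2)) 1)
    rw [mono_mul, mono_mul, mul_one, mul_one]
    congr 1
    funext k
    have h3 := congrFun h1 k
    rw [Pi.add_apply, Pi.add_apply] at h3
    simp only [Equiv.Perm.one_apply]
    rw [h3]
    ring
  rw [h2]
  exact Subgroup.mul_mem _ (mem_closure_dv (by decide) _)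
    (Subgroup.mul_mem _ (mem_closure_dv (by decide) _) (mem_closure_dv (by decide) _))

theorem isCRG_R554 : R554.IsComplexReflectionGroup where
  finite := G554_finite
  finiteDimensional := inferInstanceAs (FiniteDimensional ℂ V4)
  faithful := by
    intro g h hgh
    apply Subtype.ext
    refine LinearEquiv.ext fun v => ?_
    exact congrArg (fun f : V4 →ₗ[ℂ] V4 => f v) hgh
  generated := by
    rw [eq_top_iff]
    rintro g -
    obtain ⟨a, σ, ha, rfl⟩ := exists_el g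
    have h1 : el a σ ha = el 0 σ (by simp) * el a 1 ha := by
      apply Subtype.ext
      change mono a σ = mono 0 σ * mono a 1
      rw [mono_mul, mul_one]
      simp
    rw [h1]
    exact Subgroup.mul_mem _ (mem_closure_perm σ _) (mem_closure_tor a ha)

/-- The action of the group on the model. -/
def opG (g : G554) : Sp →ₗ[ℂ] Sp := opM (cA g) (cS g)

theorem opG_el (a : Fin 4 → ZMod 5) (σ : Equiv.Perm (Fin 4)) (h : ∑ k, a k = 0) :
    opG (el a σ h) = opM a σ := by
  unfold opG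
  rw [(c_el a σ h).1, (c_el a σ h).2]

theorem opG_mul (g h : G554) : opG (g * h) = opG g ∘ₗ opG h := by
  obtain ⟨a, σ, ha, rfl⟩ := exists_el g
  obtain ⟨b, τ, hb, rfl⟩ := exists_el h
  rw [opG_el, opG_el, opM_mul]
  have hs : ∑ k, (b k + a (τ k)) = 0 := by
    rw [Finset.sum_add_distrib, hb, Equiv.sum_comp τ a, ha, add_zero]
  rw [← opG_el _ _ hs]
  congr 1
  exact Subtype.ext (mono_mul a b σ τ)

theorem opG_one : opG 1 = LinearMap.id := by
  have h : (1 : G554) = el 0 1 (by simp) := Subtype.ext mono_one.symm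
  rw [h, opG_el, opM_one]

theorem el_e4 (a : Fin 4 → ZMod 5) (σ : Equiv.Perm (Fin 4)) (h : ∑ k, a k = 0) (i : Fin 4) :
    ((el a σ h : G554) : V4 ≃ₗ[ℂ] V4) (e4 i) = ψ (a i) • e4 (σ i) := monoL_e4 a σ i

theorem el_inv_e4 (a : Fin 4 → ZMod 5) (σ : Equiv.Perm (Fin 4)) (h : ∑ k, a k = 0) (i : Fin 4) :
    (((el a σ h)⁻¹ : G554) : V4 ≃ₗ[ℂ] V4) (e4 (σ i)) = ψ (-a i) • e4 i := by
  have h1 : (((el a σ h)⁻¹ : G554) : V4 ≃ₗ[ℂ] V4) = mono (fun k => -a (σ⁻¹ k)) σ⁻¹ := by
    rw [Subgroup.coe_inv, el_val, mono_inv]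
  rw [h1, mono_apply, monoL_e4, p_ia]

end

end Pool.Agent.Helper11.RRCA
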