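import Pool.Agent.Helper11.RRCA.Group

/-!
# Long products of elements of `𝔥^*` vanish in the restricted algebra
-/

namespace Pool.Agent.Helper11.RRCA

noncomputable section

theorem newton4 {R : Type*} [CommRing R] [Algebra ℂ R] (a b c d : R)
    (h1 : a + b + c + d = 0) (h2 : a ^ 2 + b ^ 2 + c ^ 2 + d ^ 2 = 0)
    (h3 : a ^ 3 + b ^ 3 + c ^ 3 + d ^ 3 = 0) (h4 : a ^ 4 + b ^ 4 + c ^ 4 + d ^ 4 = 0) :
    a ^ 4 = 0 := by
  have cancel : ∀ (n : ℕ) (z : R), n ≠ 0 → (n : R) * z = 0 → z = 0 := by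
    intro n z hn hz
    have h5 : ((n : ℂ)) • z = 0 := by
      rw [Algebra.smul_def, map_natCast, hz]
    exact (smul_eq_zero.1 h5).resolve_left (by exact_mod_cast hn)
  have e2 : a * b + a * c + a * d + b * c + b * d + c * d = 0 := by
    apply cancel 2 _ (by norm_num)
    push_cast
    linear_combination (a + b + c + d) * h1 - h2
  have e3 : a * b * c + a * b * d + a * c * d + b * c * d = 0 := by
    apply cancel 3 _ (by norm_num)
    push_cast
    linear_combination (a + b + c + d) * e2 - (a + b + c + d) * h2 + h3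
  have e4 : a * b * c * d = 0 := by
    apply cancel 4 _ (by norm_num)
    push_cast
    linear_combination (a + b + c + d) * e3 -
      (a * b + a * c + a * d + b * c + b * d + c * d) * h2 + (a + b + c + d) * h3 - h4
  linear_combination a ^ 3 * h1 - a ^ 2 * e2 + a * e3 - e4

theorem nilp_list {R : Type*} [CommRing R] {ι : Type*} (I : Ideal R) (f : ι → R)
    (hf : ∀ i, f i ∈ I) (l : List ι) : (l.map f).prod ∈ I ^ l.length := by
  induction l with
  | nil => simp
  | cons a l ih =>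
    rw [List.map_cons, List.prod_cons, List.length_cons, pow_succ']
    exact Ideal.mul_mem_mul (hf a) ih

theorem nilp_comm {R : Type*} [CommRing R] [Algebra ℂ R] {ι : Type*} (x : Fin 4 → R)
    (hx : ∀ k, 1 ≤ k → ∑ i, x i ^ (5 * k) = 0) (f : ι → R) (r : ι → Fin 4 → ℂ)
    (hf : ∀ j, f j = ∑ i, r j i • x i) :
    ∃ D : ℕ, ∀ l : List ι, D ≤ l.length → (l.map f).prod = 0 := by
  have h20 : ∀ i, x i ^ 20 = 0 := by
    have h1 := hx 1 (by norm_num)
    have h2 := hx 2 (by norm_num)
    have h3 := hx 3 (by norm_num)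
    have h4 := hx 4 (by norm_num)
    rw [Fin.sum_univ_four] at h1 h2 h3 h4
    intro i
    have key : ∀ a b c d : R, a ^ 5 + b ^ 5 + c ^ 5 + d ^ 5 = 0 →
        a ^ 10 + b ^ 10 + c ^ 10 + d ^ 10 = 0 →
        a ^ 15 + b ^ 15 + c ^ 15 + d ^ 15 = 0 →
        a ^ 20 + b ^ 20 + c ^ 20 + d ^ 20 = 0 → a ^ 20 = 0 := by
      intro a b c d h1 h2 h3 h4
      have := newton4 (a ^ 5) (b ^ 5) (c ^ 5) (d ^ 5) h1 (by linear_combination h2)
        (by linear_combination h3) (by linear_combination h4)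
      linear_combination this
    norm_num at h1 h2 h3 h4
    fin_cases i
    · exact key (x 0) (x 1) (x 2) (x 3) h1 h2 h3 h4
    · exact key (x 1) (x 0) (x 2) (x 3) (by linear_combination h1) (by linear_combination h2)
        (by linear_combination h3) (by linear_combination h4)
    · exact key (x 2) (x 0) (x 1) (x 3) (by linear_combination h1) (by linear_combination h2)
        (by linear_combination h3) (by linear_combination h4)
    · exact key (x 3) (x 0) (x 1) (x 2) (by linear_combination h1) (by linear_combination h2)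
        (by linear_combination h3) (by linear_combination h4)
  let I : Ideal R := Ideal.span (Set.range x)
  have hI : I ≤ nilradical R := by
    rw [Ideal.span_le]
    rintro _ ⟨i, rfl⟩
    exact ⟨20, h20 i⟩
  have hfg : I.FG := ⟨(Set.finite_range x).toFinset, by simp [I]⟩
  obtain ⟨D, hD⟩ := (Ideal.FG.isNilpotent_iff_le_nilradical hfg).2 hI
  refine ⟨D, fun l hl => ?_⟩
  have hmem : ∀ j, f j ∈ I := by
    intro j
    rw [hf j]
    refine Submodule.sum_mem _ fun i _ => ?_
    rw [Algebra.smul_def]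
    exact Ideal.mul_mem_left _ _ (Ideal.subset_span ⟨i, rfl⟩)
  have h1 := Ideal.pow_le_pow_right hl (nilp_list I f hmem l)
  rw [hD] at h1
  exact h1

open scoped IsMulCommutative in
theorem nilp_noncomm {A : Type*} [Ring A] [Algebra ℂ A] {ι : Type*} (f : ι → A)
    (hcomm : ∀ i j, f i * f j = f j * f i) (e : Fin 4 → ι)
    (hp : ∀ k, 1 ≤ k → ∑ i, f (e i) ^ (5 * k) = 0) (r : ι → Fin 4 → ℂ)
    (hf : ∀ j, f j = ∑ i, r j i • f (e i)) :
    ∃ D : ℕ, ∀ l : List ι, D ≤ l.length → (l.map f).prod = 0 := by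
  have hc : ∀ a ∈ Set.range f, ∀ b ∈ Set.range f, a * b = b * a := by
    rintro _ ⟨i, rfl⟩ _ ⟨j, rfl⟩
    exact hcomm i j
  have := Algebra.isMulCommutative_adjoin ℂ hc
  let F : ι → Algebra.adjoin ℂ (Set.range f) := fun j => ⟨f j, Algebra.subset_adjoin ⟨j, rfl⟩⟩
  obtain ⟨D, hD⟩ := nilp_comm (R := Algebra.adjoin ℂ (Set.range f)) (fun i => F (e i)) (by
    intro k hk
    apply Subtype.ext
    have := hp k hk
    simpa [F] using this) F r (by
    intro j
    apply Subtype.ext
    have := hf j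
    simpa [F] using this)
  refine ⟨D, fun l hl => ?_⟩
  have h1 := congrArg (Algebra.adjoin ℂ (Set.range f)).val (hD l hl)
  rw [map_list_prod, List.map_map, map_zero] at h1
  exact h1

/-- Coordinate functions. -/
def pr (i : Fin 4) : Module.Dual ℂ V4 := LinearMap.proj i

theorem dual_eq_sum (ξ : Module.Dual ℂ V4) : ξ = ∑ i, ξ (e4 i) • pr i := by
  refine LinearMap.ext fun v => ?_
  conv_lhs => rw [v4_eq_sum v, map_sum]
  rw [LinearMap.sum_apply]
  refine Finset.sum_congr rfl fun i _ => ?_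
  rw [map_smul, LinearMap.smul_apply, smul_eq_mul, smul_eq_mul, mul_comm]
  rfl

theorem pr_comp (a : Fin 4 → ZMod 5) (σ : Equiv.Perm (Fin 4)) (h : ∑ k, a k = 0) (i : Fin 4) :
    (pr i) ∘ₗ (((el a σ h)⁻¹ : G554) : V4 ≃ₗ[ℂ] V4).toLinearMap = ψ (-a i) • pr (σ i) := by
  have key : ∀ k, ((pr i) ∘ₗ (((el a σ h)⁻¹ : G554) : V4 ≃ₗ[ℂ] V4).toLinearMap) (e4 (σ k)) =
      (ψ (-a i) • pr (σ i)) (e4 (σ k)) := by
    intro k
    have h1 := el_inv_e4 a σ h k
    change pr i ((((el a σ h)⁻¹ : G554) : V4 ≃ₗ[ℂ] V4) (e4 (σ k))) = ψ (-a i) * (e4 (σ k) (σ i))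
    rw [h1]
    change ψ (-a k) * (e4 k i) = _
    rw [e4_apply, e4_apply]
    by_cases hk : i = k
    · rw [if_pos hk, if_pos (congrArg σ hk), hk]
    · rw [if_neg hk, if_neg fun h' => hk (σ.injective h')]
      ring
  refine LinearMap.ext fun v => ?_
  rw [v4_eq_sum v, map_sum, map_sum]
  refine Finset.sum_congr rfl fun k _ => ?_
  rw [map_smul, map_smul]
  congr 1
  have := key (σ⁻¹ k)
  rwa [p_ai] at this

variable (c : R554.Ref → ℂ)

/-- Power sums in the Cherednik algebra. -/
def psum (n : ℕ) : R554.Cherednik c := ∑ i, R554.gen c (.x (pr i)) ^ n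

theorem gen_w_x_pow (g : G554) (ξ : Module.Dual ℂ V4) (n : ℕ) :
    R554.gen c (.w g) * R554.gen c (.x ξ) ^ n =
      R554.gen c (.x (ξ ∘ₗ R554.op g⁻¹)) ^ n * R554.gen c (.w g) := by
  induction n with
  | zero => rw [pow_zero, pow_zero, mul_one, one_mul]
  | succ n ih =>
    have h := gen_w_x (D := R554) (c := c) g ξ
    rw [pow_succ, ← mul_assoc, ih, mul_assoc, h, ← mul_assoc, ← pow_succ]

theorem ψ_pow (a : ZMod 5) (k : ℕ) : ψ a ^ (5 * k) = 1 := by
  have h1 : ψ a ^ (5 * k) = ψ ((5 * k) • a) := (AddChar.map_nsmul_eq_pow ψ _ a).symm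
  rw [h1, mul_comm, mul_smul]
  have h2 : (5 : ℕ) • a = 0 := by
    rw [nsmul_eq_mul]
    have : ((5 : ℕ) : ZMod 5) = 0 := ZMod.natCast_self 5
    rw [this, zero_mul]
  rw [h2, smul_zero, AddChar.map_zero_eq_one]

theorem pr_comp' (a : Fin 4 → ZMod 5) (σ : Equiv.Perm (Fin 4)) (h : ∑ k, a k = 0) (i : Fin 4) :
    (pr i) ∘ₗ R554.op (el a σ h)⁻¹ = ψ (-a i) • pr (σ i) := pr_comp a σ h i

theorem psum_mem {k : ℕ} (hk : 1 ≤ k) : R554.IsPosInv c (psum c (5 * k)) := by
  constructor
  · left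
    refine Submodule.sum_mem _ fun i _ => Submodule.subset_span ?_
    refine ⟨List.replicate (5 * k) (pr i), ?_, ?_⟩
    · intro h
      have := congrArg List.length h
      rw [List.length_replicate, List.length_nil] at this
      omega
    · rw [List.map_replicate, List.prod_replicate]
  · intro g
    obtain ⟨a, σ, ha, rfl⟩ := exists_el g
    unfold psum
    rw [Finset.mul_sum, Finset.sum_mul]
    rw [← Equiv.sum_comp σ fun i => R554.gen c (.x (pr i)) ^ (5 * k) * R554.gen c (.w (el a σ ha))]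
    refine Finset.sum_congr rfl fun i _ => ?_
    rw [gen_w_x_pow, pr_comp', gen_x_smul, smul_pow, ψ_pow, one_smul]

/-- Long products of elements of `𝔥^*` vanish. -/
theorem xword_nil : ∃ N : ℕ, ∀ l : List (Module.Dual ℂ V4), N ≤ l.length →
    xword R554 c l = 0 := by
  refine nilp_noncomm (fun ξ : Module.Dual ℂ V4 => R554.rgen c (.x ξ))
    (fun ξ η => rgen_x_comm (D := R554) ξ η) pr ?_ (fun ξ i => ξ (e4 i)) ?_
  · intro k hk
    have h1 := mkR_posInv (psum_mem c hk)
    unfold psum at h1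
    rw [map_sum] at h1
    simp_rw [map_pow] at h1
    exact h1
  · intro ξ
    have key : ∀ s : Finset (Fin 4), R554.rgen c (.x (∑ i ∈ s, ξ (e4 i) • pr i)) =
        ∑ i ∈ s, ξ (e4 i) • R554.rgen c (.x (pr i)) := by
      intro s
      induction s using Finset.induction_on with
      | empty =>
        rw [Finset.sum_empty, Finset.sum_empty]
        have := rgen_x_smul (D := R554) (c := c) 0 (0 : Module.Dual ℂ V4)
        rwa [zero_smul, zero_smul] at this
      | insert a s ha ih =>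
        rw [Finset.sum_insert ha, Finset.sum_insert ha, ← ih]
        have h1 := rgen_x_add (D := R554) (c := c) (ξ (e4 a) • pr a) (∑ i ∈ s, ξ (e4 i) • pr i)
        have h2 := rgen_x_smul (D := R554) (c := c) (ξ (e4 a)) (pr a)
        rw [← h2]
        exact h1
    have h1 := key Finset.univ
    rw [← dual_eq_sum ξ] at h1
    exact h1

end

end Pool.Agent.Helper11.RRCA
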