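import Pool.Agent.Helper11.RRCA.Model
import Pool.Agent.Helper11.RRCA.Nilp

/-!
# The irreducible representation and the simplicity of the model
-/

namespace Pool.Agent.Helper11.RRCA

noncomputable section

theorem eB_ne_zero (w : B) : eB w ≠ 0 := by
  intro h
  have := congrFun h w
  rw [eB_apply, if_pos rfl] at this
  simp at this

theorem opG_tor (a : Fin 4 → ZMod 5) (h : ∑ k, a k = 0) (f : Sp) (v : B) :
    opG (el a 1 h) f v = ψ (-wp v a) * f v := by
  rw [opG_el, opM_tor_apply]

theorem sep0 {w v : B} (hw : dB w = 0) (hv : dB v = 0) (h : w ≠ v) :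
    ∃ i j : Fin 4, wp w (dv i j 1) ≠ wp v (dv i j 1) := by
  have h0 := allGood_iff.1 chk_sep w.code w.code_lt w.code_good
  have hw' : (dg w.code != 0) = false := by
    have : dg w.code = 0 := by unfold dB at hw; exact_mod_cast hw
    rw [this]; rfl
  rw [hw', Bool.false_or] at h0
  have h1 := allGood_iff.1 h0 v.code v.code_lt v.code_good
  have hv' : (dg v.code != 0) = false := by
    have : dg v.code = 0 := by unfold dB at hv; exact_mod_cast hv
    rw [this]; rfl
  have hne : (w.code == v.code) = false := by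
    rw [beq_eq_false_iff_ne]
    intro h'
    exact h (B.code_inj h')
  rw [hv', hne, Bool.false_or, Bool.false_or] at h1
  exact sep_of h1

/-- An invariant subspace containing a nonzero vector of degree zero contains a basis vector of
degree zero. -/
theorem exists_eB_mem (N : Submodule ℂ Sp) (hN : ∀ g : G554, ∀ f ∈ N, opG g f ∈ N) :
    ∀ n : ℕ, ∀ f ∈ N, f ∈ Sg 0 → f ≠ 0 → (Finset.univ.filter fun w => f w ≠ 0).card ≤ n →
      ∃ w : B, dB w = 0 ∧ eB w ∈ N := by
  intro n
  induction n with
  | zero =>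
    intro f _ _ hf0 hcard
    exfalso
    apply hf0
    funext w
    by_contra hw
    have : w ∈ Finset.univ.filter fun w => f w ≠ 0 := by simpa using hw
    have := Finset.card_pos.2 ⟨w, this⟩
    omega
  | succ n ih =>
    intro f hfN hf hf0 hcard
    obtain ⟨w, hw⟩ : ∃ w, f w ≠ 0 := by
      by_contra hcon
      push Not at hcon
      exact hf0 (funext hcon)
    have hw0 : dB w = 0 := by
      by_contra h
      exact hw (hf w h)
    by_cases hv : ∃ v, v ≠ w ∧ f v ≠ 0
    · obtain ⟨v, hvw, hv⟩ := hv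
      have hv0 : dB v = 0 := by
        by_contra h
        exact hv (hf v h)
      obtain ⟨i, j, hij⟩ := sep0 hv0 hw0 hvw
      let g : G554 := el (dv i j 1) 1 (dv_sum i j 1)
      let f' : Sp := opG g f - ψ (-wp w (dv i j 1)) • f
      have hf' : ∀ x, f' x = (ψ (-wp x (dv i j 1)) - ψ (-wp w (dv i j 1))) * f x := by
        intro x
        change opG g f x - ψ (-wp w (dv i j 1)) * f x = _
        rw [opG_tor]
        ring
      refine ih f' (Submodule.sub_mem _ (hN g f hfN) (Submodule.smul_mem _ _ hfN)) ?_ ?_ ?_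
      · intro x hx
        rw [hf', hf x hx, mul_zero]
      · intro h0
        have := congrFun h0 v
        rw [hf'] at this
        rcases mul_eq_zero.1 this with h1 | h1
        · exact hij (neg_injective (ψ_inj (sub_eq_zero.1 h1)))
        · exact hv h1
      · have hlt : (Finset.univ.filter fun x => f' x ≠ 0).card <
            (Finset.univ.filter fun x => f x ≠ 0).card := by
          apply Finset.card_lt_card
          rw [Finset.ssubset_iff_of_subset]
          · refine ⟨w, by simpa using hw, ?_⟩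
            simp [hf']
          · intro x hx
            rw [Finset.mem_filter] at hx ⊢
            refine ⟨hx.1, fun h0 => hx.2 ?_⟩
            rw [hf', h0, mul_zero]
        omega
    · push Not at hv
      refine ⟨w, hw0, ?_⟩
      have h1 : f = f w • eB w := by
        funext x
        rw [Pi.smul_apply, eB_apply]
        by_cases hx : x = w
        · rw [if_pos hx, hx, smul_eq_mul, mul_one]
        · rw [if_neg hx, hv x hx, smul_zero]
      have h2 : (f w)⁻¹ • f = eB w := by
        calc (f w)⁻¹ • f = (f w)⁻¹ • (f w • eB w) := congrArg ((f w)⁻¹ • ·) h1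
          _ = eB w := by rw [smul_smul, inv_mul_cancel₀ hw, one_smul]
      rw [← h2]
      exact Submodule.smul_mem _ _ hfN

theorem chi_ne (σ : Equiv.Perm (Fin 4)) (w : B) : chi σ w ≠ 0 := by
  unfold chi
  split_ifs
  · exact one_ne_zero
  · rcases Int.units_eq_one_or (Equiv.Perm.sign σ) with h | h
    · rw [h]; simp
    · rw [h]; simp

theorem eB_perm_mem (N : Submodule ℂ Sp) (hN : ∀ g : G554, ∀ f ∈ N, opG g f ∈ N)
    (σ : Equiv.Perm (Fin 4)) {w : B} (hw : eB w ∈ N) : eB (permB σ w) ∈ N := by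
  have h1 := hN (el 0 σ (by simp)) _ hw
  rw [opG_el, opM_eB] at h1
  have h2 : (ψ (-∑ k, u w k * (0 : Fin 4 → ZMod 5) k) * chi σ w) ≠ 0 :=
    mul_ne_zero (ψ_ne _) (chi_ne _ _)
  have h3 : eB (permB σ w) = (ψ (-∑ k, u w k * (0 : Fin 4 → ZMod 5) k) * chi σ w)⁻¹ •
      ((ψ (-∑ k, u w k * (0 : Fin 4 → ZMod 5) k) * chi σ w) • eB (permB σ w)) := by
    rw [smul_smul, inv_mul_cancel₀ h2, one_smul]
  rw [h3]
  exact Submodule.smul_mem _ _ h1

theorem permC_swap_chk' (i j : Fin 4) : ∀ n < 625,
    permC (Equiv.swap i j) n = swapC i.val j.val n := by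
  revert i j
  decide +kernel

theorem exists_perm {w v : B} (hw : dB w = 0) (hv : dB v = 0) :
    ∃ σ : Equiv.Perm (Fin 4), permB σ w = v := by
  have h0 := allGood_iff.1 chk_trans w.code w.code_lt w.code_good
  have hw' : (dg w.code != 0) = false := by
    have : dg w.code = 0 := by unfold dB at hw; exact_mod_cast hw
    rw [this]; rfl
  rw [hw', Bool.false_or] at h0
  have h1 := allGood_iff.1 h0 v.code v.code_lt v.code_good
  have hv' : (dg v.code != 0) = false := by
    have : dg v.code = 0 := by unfold dB at hv; exact_mod_cast hv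
    rw [this]; rfl
  rw [hv', Bool.false_or] at h1
  obtain ⟨i, h1⟩ := any4 h1
  obtain ⟨j, h1⟩ := any4 h1
  obtain ⟨k, h1⟩ := any4 h1
  obtain ⟨l, h1⟩ := any4 h1
  obtain ⟨p, h1⟩ := any4 h1
  obtain ⟨q, h1⟩ := any4 h1
  rw [beq_iff_eq] at h1
  refine ⟨Equiv.swap i j * (Equiv.swap k l * Equiv.swap p q), B.code_inj ?_⟩
  rw [permB_code, permC_mul, permC_mul, permC_swap_chk' p q _ w.code_lt]
  have h2 : swapC p.val q.val w.code < 625 := by
    rw [← permC_swap_chk' p q _ w.code_lt]; exact permC_lt _ _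
  rw [permC_swap_chk' k l _ h2]
  have h3 : swapC k.val l.val (swapC p.val q.val w.code) < 625 := by
    rw [← permC_swap_chk' k l _ h2]; exact permC_lt _ _
  rw [permC_swap_chk' i j _ h3]
  exact h1

/-- An invariant subspace containing a nonzero vector of degree zero contains the whole degree
zero part. -/
theorem Sg_zero_le (N : Submodule ℂ Sp) (hN : ∀ g : G554, ∀ f ∈ N, opG g f ∈ N) {f : Sp}
    (hfN : f ∈ N) (hf : f ∈ Sg 0) (hf0 : f ≠ 0) : Sg 0 ≤ N := by
  obtain ⟨w, hw, hwN⟩ := exists_eB_mem N hN _ f hfN hf hf0 le_rfl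
  intro m hm
  rw [sp_eq_sum m]
  refine Submodule.sum_mem _ fun v _ => ?_
  by_cases hv : dB v = 0
  · obtain ⟨σ, rfl⟩ := exists_perm hw hv
    exact Submodule.smul_mem _ _ (eB_perm_mem N hN σ hwN)
  · rw [hm v hv, zero_smul]
    exact Submodule.zero_mem _

/-! ### Lowering to degree zero -/

theorem op_apply (r : ℕ → List (ℤ × ℕ)) (m : Sp) (v : B) :
    op r m v = ∑ w, m w * ((coef (r w.code) v.code : ℤ) : ℂ) := by
  conv_lhs => rw [sp_eq_sum m, map_sum, Finset.sum_apply]
  refine Finset.sum_congr rfl fun w _ => ?_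
  rw [map_smul, op_eB, Pi.smul_apply]
  rfl

theorem exists_Y_ne {m : Sp} {w : B} (hw : dB w ≠ 0) (hm : m w ≠ 0) : ∃ b : Fin 4, Y b m ≠ 0 := by
  by_contra hcon
  push Not at hcon
  have h0 := allGood_iff.1 chk_cert w.code w.code_lt w.code_good
  have hw' : (dg w.code == 0) = false := by
    rw [beq_eq_false_iff_ne]
    intro h
    exact hw (by unfold dB; rw [h]; rfl)
  rw [hw', Bool.false_or] at h0
  have h1 := allGood_iff.1 h0
  have h2 := allGood_iff.1 chk_cert_good w.code w.code_lt w.code_good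
  rw [List.all_eq_true] at h2
  -- each functional in the certificate vanishes on `m`
  have h3 : ∀ p ∈ cert w.code, ∑ x : B, m x * ((coef (yr p.2.1 x.code) p.2.2 : ℤ) : ℂ) = 0 := by
    intro p hp
    have h4 := h2 p hp
    simp only [Bool.and_eq_true, decide_eq_true_eq] at h4
    have h5 := congrFun (hcon ⟨p.2.1, h4.2⟩) (mkB p.2.2 h4.1.2 h4.1.1)
    unfold Y at h5
    rw [op_apply] at h5
    exact h5
  have h4 : ((cert w.code).map fun p => (p.1 : ℂ) *
      ∑ x : B, m x * ((coef (yr p.2.1 x.code) p.2.2 : ℤ) : ℂ)).sum = 0 := by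
    apply List.sum_eq_zero
    intro z hz
    rw [List.mem_map] at hz
    obtain ⟨p, hp, rfl⟩ := hz
    rw [h3 p hp, mul_zero]
  have h5 : ∀ L : List (ℤ × ℕ × ℕ), (L.map fun p => (p.1 : ℂ) *
      ∑ x : B, m x * ((coef (yr p.2.1 x.code) p.2.2 : ℤ) : ℂ)).sum =
      ∑ x : B, m x * (((L.map fun p => p.1 * coef (yr p.2.1 x.code) p.2.2).sum : ℤ) : ℂ) := by
    intro L
    induction L with
    | nil => simp
    | cons p L ih =>
      rw [List.map_cons, List.sum_cons, ih, Finset.mul_sum, ← Finset.sum_add_distrib]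
      refine Finset.sum_congr rfl fun x _ => ?_
      rw [List.map_cons, List.sum_cons]
      push_cast
      ring
  rw [h5] at h4
  have h6 : ∀ x : B, ((cert w.code).map fun p => p.1 * coef (yr p.2.1 x.code) p.2.2).sum =
      if x.code = w.code then 2 else 0 := by
    intro x
    have := h1 x.code x.code_lt x.code_good
    rw [beq_iff_eq] at this
    exact this
  simp_rw [h6] at h4
  rw [Finset.sum_eq_single w] at h4
  · rw [if_pos rfl] at h4
    apply hm
    have h7 : m w * 2 = 0 := by exact_mod_cast h4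
    exact (mul_eq_zero.1 h7).resolve_right two_ne_zero
  · intro x _ hx
    rw [if_neg fun h => hx (B.code_inj h)]
    simp
  · intro h
    exact absurd (Finset.mem_univ _) h

theorem Y_lower {m : Sp} {D : ℤ} (h : ∀ w, m w ≠ 0 → dB w ≤ D + 1) (b : Fin 4) :
    ∀ w, Y b m w ≠ 0 → dB w ≤ D := by
  intro w hw
  by_contra hcon
  apply hw
  rw [sp_eq_sum m, map_sum, Finset.sum_apply]
  refine Finset.sum_eq_zero fun x _ => ?_
  rw [map_smul, Pi.smul_apply]
  by_cases hx : m x = 0
  · rw [hx, zero_smul]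
  · rw [Y_mem b x w (by have := h x hx; omega), smul_zero]

/-- An invariant subspace, nonzero, contains the degree zero part. -/
theorem Sg_zero_le_of_ne (N : Submodule ℂ Sp) (hN : ∀ g : G554, ∀ f ∈ N, opG g f ∈ N)
    (hY : ∀ b : Fin 4, ∀ f ∈ N, Y b f ∈ N) {f : Sp} (hfN : f ∈ N) (hf0 : f ≠ 0) : Sg 0 ≤ N := by
  have key : ∀ D : ℕ, ∀ f ∈ N, f ≠ 0 → (∀ w, f w ≠ 0 → dB w ≤ D) →
      ∃ f' ∈ N, f' ≠ 0 ∧ f' ∈ Sg 0 := by
    intro D
    induction D with
    | zero =>
      intro f hfN hf0 hD
      refine ⟨f, hfN, hf0, fun w hw => ?_⟩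
      by_contra hne
      have h1 := hD w hne
      have h2 := dB_nonneg w
      have h3 : dB w = 0 := by
        push_cast at h1
        omega
      exact hw h3
    | succ D ih =>
      intro f hfN hf0 hD
      by_cases h : f ∈ Sg 0
      · exact ⟨f, hfN, hf0, h⟩
      · have : ∃ w, dB w ≠ 0 ∧ f w ≠ 0 := by
          by_contra hcon
          push Not at hcon
          exact h hcon
        obtain ⟨w, hw, hfw⟩ := this
        obtain ⟨b, hb⟩ := exists_Y_ne hw hfw
        refine ih (Y b f) (hY b f hfN) hb (Y_lower ?_ b)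
        intro w hw
        have := hD w hw
        push_cast at this
        exact this
  obtain ⟨f', hf', hf'0, hf'S⟩ := key 4 f hfN hf0 fun w _ => dB_le w
  exact Sg_zero_le N hN hf' hf'S hf'0

/-! ### The irreducible representation -/

/-- The irreducible representation: the degree zero part of the model. -/
abbrev E0 : Type := Sg 0

theorem opG_Sg (g : G554) {i : ℤ} {f : Sp} (hf : f ∈ Sg i) : opG g f ∈ Sg i := by
  have := shS_apply (opG_mem g) hf
  rwa [add_zero] at this

/-- The representation of the group on the degree zero part. -/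
def ρ0 : Representation ℂ G554 E0 where
  toFun g := (opG g).restrict fun f hf => opG_Sg g hf
  map_one' := by
    refine LinearMap.ext fun f => Subtype.ext ?_
    rw [LinearMap.coe_restrict_apply, opG_one]
    rfl
  map_mul' g h := by
    refine LinearMap.ext fun f => Subtype.ext ?_
    rw [LinearMap.coe_restrict_apply, opG_mul]
    rfl

theorem ρ0_coe (g : G554) (f : E0) : ((ρ0 g f : E0) : Sp) = opG g (f : Sp) :=
  LinearMap.coe_restrict_apply (fun _ hf => opG_Sg g hf) f

/-- The representation of dimension twelve. -/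
abbrev L554 : R554.Rep where
  E := E0
  ρ := ρ0

/-- A word of degree zero. -/
def w0 : B := mkB (asm ![0, 0, 1, 2]) (by decide +kernel) (by decide +kernel)

theorem dB_w0 : dB w0 = 0 := by
  have : dg (asm ![0, 0, 1, 2]) = 0 := by decide +kernel
  unfold dB w0
  rw [mkB_code, this]
  rfl

theorem eB_w0 : eB w0 ∈ Sg 0 := by
  have := eB_mem_Sg w0
  rwa [dB_w0] at this

instance : Nontrivial E0 :=
  ⟨⟨⟨eB w0, eB_w0⟩, 0, fun h => eB_ne_zero w0 (congrArg Subtype.val h)⟩⟩

theorem ρ0_irreducible : Representation.IsIrreducible ρ0 := by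
  have hbt : (⊥ : Subrepresentation ρ0) ≠ ⊤ := by
    intro h
    have h1 : (⟨eB w0, eB_w0⟩ : E0) ∈ (⊤ : Subrepresentation ρ0).toSubmodule := trivial
    rw [← h] at h1
    have h2 : (⟨eB w0, eB_w0⟩ : E0) = 0 := h1
    exact eB_ne_zero w0 (congrArg Subtype.val h2)
  have : Nontrivial (Subrepresentation ρ0) := ⟨⟨⊥, ⊤, hbt⟩⟩
  refine ⟨fun N => ?_⟩
  by_cases hN : ∀ f ∈ N.toSubmodule, f = 0
  · left
    apply Subrepresentation.toSubmodule_injective
    refine le_antisymm ?_ bot_le
    intro f hf
    rw [hN f hf]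
    exact Submodule.zero_mem _
  · right
    push Not at hN
    obtain ⟨f, hf, hf0⟩ := hN
    apply Subrepresentation.toSubmodule_injective
    refine le_antisymm le_top ?_
    rintro m -
    have h1 : Sg 0 ≤ N.toSubmodule.map (Sg 0).subtype := by
      refine Sg_zero_le _ ?_ (f := f) ⟨f, hf, rfl⟩ f.2 (fun h => hf0 (Subtype.ext h))
      rintro g _ ⟨x, hx, rfl⟩
      rw [Submodule.mem_map]
      refine ⟨ρ0 g x, N.apply_mem_toSubmodule g hx, ?_⟩
      rw [Submodule.subtype_apply, Submodule.subtype_apply, ρ0_coe]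
    obtain ⟨x, hx, hxm⟩ := h1 m.2
    have : x = m := Subtype.ext hxm
    rw [← this]
    exact hx

/-- The degree `i` part has a basis indexed by the words of degree `i`. -/
def SgEquiv (i : ℤ) : Sg i ≃ₗ[ℂ] ({w : B // dB w = i} → ℂ) where
  toFun f w := (f : Sp) w.1
  map_add' _ _ := rfl
  map_smul' _ _ := rfl
  invFun g := ⟨fun w => if h : dB w = i then g ⟨w, h⟩ else 0, fun w hw => dif_neg hw⟩
  left_inv f := by
    apply Subtype.ext
    funext w
    change (if h : dB w = i then (f : Sp) w else 0) = (f : Sp) w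
    by_cases h : dB w = i
    · rw [dif_pos h]
    · rw [dif_neg h, f.2 w h]
  right_inv g := by
    funext w
    change (if h : dB w.1 = i then g ⟨w.1, h⟩ else 0) = g w
    rw [dif_pos w.2]

theorem finrank_Sg (i : ℤ) : Module.finrank ℂ (Sg i) = Fintype.card {w : B // dB w = i} := by
  rw [(SgEquiv i).finrank_eq, Module.finrank_fintype_fun_eq_card]

end

end Pool.Agent.Helper11.RRCA
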