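import Pool.Agent.Helper11.RRCA.Action

/-!
# The model as a module over the restricted rational Cherednik algebra
-/

namespace Pool.Agent.Helper11.RRCA

noncomputable section

theorem XX_add (ξ η : Module.Dual ℂ V4) : XX (ξ + η) = XX ξ + XX η := by
  unfold XX
  rw [← Finset.sum_add_distrib]
  refine Finset.sum_congr rfl fun a _ => ?_
  rw [LinearMap.add_apply, add_smul]

theorem XX_smul (r : ℂ) (ξ : Module.Dual ℂ V4) : XX (r • ξ) = r • XX ξ := by
  unfold XX
  rw [Finset.smul_sum]
  refine Finset.sum_congr rfl fun a _ => ?_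
  rw [LinearMap.smul_apply, smul_smul, smul_eq_mul]

theorem YY_add (κ : ℂ) (v w : V4) : YY κ (v + w) = YY κ v + YY κ w := by
  unfold YY
  rw [← Finset.sum_add_distrib]
  refine Finset.sum_congr rfl fun a _ => ?_
  rw [Pi.add_apply, mul_add, add_smul]

theorem YY_smul (κ : ℂ) (r : ℂ) (v : V4) : YY κ (r • v) = r • YY κ v := by
  unfold YY
  rw [Finset.smul_sum]
  refine Finset.sum_congr rfl fun a _ => ?_
  rw [Pi.smul_apply, smul_smul, smul_eq_mul]
  congr 1
  ring

theorem lift_fx (φ : R554.Gen → Module.End ℂ Sp) (a : Module.Dual ℂ V4) :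
    FreeAlgebra.lift ℂ φ (R554.fx a) = φ (.x a) := FreeAlgebra.lift_ι_apply _ _

theorem lift_fy (φ : R554.Gen → Module.End ℂ Sp) (a : V4) :
    FreeAlgebra.lift ℂ φ (R554.fy a) = φ (.y a) := FreeAlgebra.lift_ι_apply _ _

theorem lift_fw (φ : R554.Gen → Module.End ℂ Sp) (a : G554) :
    FreeAlgebra.lift ℂ φ (R554.fw a) = φ (.w a) := FreeAlgebra.lift_ι_apply _ _

theorem act_rel {c : R554.Ref → ℂ} {c0 : ℂ} (hc : ∀ s, c s = c0)
    ⦃a b : R554.Free⦄ (h : R554.Rel c a b) :
    FreeAlgebra.lift ℂ (act (5 * c0)) a = FreeAlgebra.lift ℂ (act (5 * c0)) b := by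
  cases h with
  | x_add a b =>
    rw [map_add, lift_fx, lift_fx, lift_fx]
    exact XX_add a b
  | x_smul r a =>
    rw [map_smul, lift_fx, lift_fx]
    exact XX_smul r a
  | y_add a b =>
    rw [map_add, lift_fy, lift_fy, lift_fy]
    exact YY_add _ a b
  | y_smul r a =>
    rw [map_smul, lift_fy, lift_fy]
    exact YY_smul _ r a
  | w_one =>
    rw [map_one, lift_fw]
    exact opG_one
  | w_mul g h =>
    rw [map_mul, lift_fw, lift_fw, lift_fw]
    exact opG_mul g h
  | w_x g a =>
    rw [map_mul, map_mul, lift_fw, lift_fx, lift_fx]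
    exact opG_XX g a
  | w_y g v =>
    rw [map_mul, map_mul, lift_fw, lift_fy, lift_fy]
    exact opG_YY _ g v
  | x_comm a b =>
    rw [map_mul, map_mul, lift_fx, lift_fx]
    exact XX_comm a b
  | y_comm a b =>
    rw [map_mul, map_mul, lift_fy, lift_fy]
    exact YY_comm _ a b
  | y_x v a =>
    have : Fintype R554.Ref := Fintype.ofFinite _
    rw [map_sub, map_mul, map_mul, lift_fx, lift_fy, map_neg,
      finsum_eq_sum_of_fintype, map_sum]
    simp_rw [map_smul, lift_fw, hc]
    exact YY_XX c0 v a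

/-- The action of the rational Cherednik algebra. -/
def πH {c : R554.Ref → ℂ} {c0 : ℂ} (hc : ∀ s, c s = c0) :
    R554.Cherednik c →ₐ[ℂ] Module.End ℂ Sp := liftH (act (5 * c0)) (act_rel hc)

theorem πH_gen {c : R554.Ref → ℂ} {c0 : ℂ} (hc : ∀ s, c s = c0) (z : R554.Gen) :
    πH hc (R554.gen c z) = act (5 * c0) z := liftH_gen _ _ z

/-! ### Degrees -/

/-- The degree of a word, as an integer. -/
def dB (w : B) : ℤ := ((dg w.code : ℕ) : ℤ)

theorem dB_eq (w : B) : dB w = ∑ k : Fin 4, (wd w.code k.val : ℤ) - 3 := by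
  have h := allGood_iff.1 chk_dg w.code w.code_lt w.code_good
  simp only [Bool.and_eq_true, decide_eq_true_eq] at h
  unfold dB dg
  rw [Fin.sum_univ_four, Nat.cast_sub h.1]
  push_cast
  rfl

theorem dB_nonneg (w : B) : 0 ≤ dB w := Int.natCast_nonneg _

theorem dB_le (w : B) : dB w ≤ 4 := by
  have h := allGood_iff.1 chk_dg w.code w.code_lt w.code_good
  simp only [Bool.and_eq_true, decide_eq_true_eq] at h
  unfold dB
  exact_mod_cast h.2

theorem dB_permB (σ : Equiv.Perm (Fin 4)) (w : B) : dB (permB σ w) = dB w := by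
  rw [dB_eq, dB_eq]
  congr 1
  have h : ∀ k : Fin 4, wd (permB σ w).code k.val = wd w.code (σ⁻¹ k).val := by
    intro k
    unfold wd
    rw [permB_code, dig_permC]
  simp_rw [h]
  exact Equiv.sum_comp σ⁻¹ fun k : Fin 4 => (wd w.code k.val : ℤ)

theorem dB_xr {w : B} {b : Fin 4} {p : ℤ × ℕ} (hp : p ∈ xr b.val w.code) (h1 : p.2 < 625)
    (h2 : good p.2 = true) : dB (mkB p.2 h1 h2) = dB w + 1 := by
  have h := all4_iff.1 (allGood_iff.1 chk_wx w.code w.code_lt w.code_good) b.val b.isLt
  rw [List.all_eq_true] at h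
  have h' := all4_iff.1 (h p hp)
  rw [dB_eq, dB_eq, mkB_code]
  have h3 : ∀ k : Fin 4, (wd p.2 k.val : ℤ) = (wd w.code k.val : ℤ) + (if k = b then 1 else 0) := by
    intro k
    have h4 := h' k.val k.isLt
    rw [beq_iff_eq] at h4
    rw [h4]
    by_cases hk : k = b
    · rw [if_pos (congrArg Fin.val hk), if_pos hk]; push_cast; ring
    · rw [if_neg (fun h => hk (Fin.ext h)), if_neg hk]; push_cast; ring
  simp_rw [h3, Finset.sum_add_distrib]
  simp
  ring

theorem dB_yr {w : B} {b : Fin 4} {p : ℤ × ℕ} (hp : p ∈ yr b.val w.code) (h1 : p.2 < 625)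
    (h2 : good p.2 = true) : dB (mkB p.2 h1 h2) = dB w - 1 := by
  have h := all4_iff.1 (allGood_iff.1 chk_wy w.code w.code_lt w.code_good) b.val b.isLt
  rw [List.all_eq_true] at h
  have h' := all4_iff.1 (h p hp)
  rw [dB_eq, dB_eq, mkB_code]
  have h3 : ∀ k : Fin 4, (wd w.code k.val : ℤ) = (wd p.2 k.val : ℤ) + (if k = b then 1 else 0) := by
    intro k
    have h4 := h' k.val k.isLt
    rw [beq_iff_eq] at h4
    rw [← h4]
    by_cases hk : k = b
    · rw [if_pos (congrArg Fin.val hk), if_pos hk]; push_cast; ring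
    · rw [if_neg (fun h => hk (Fin.ext h)), if_neg hk]; push_cast; ring
  simp_rw [h3, Finset.sum_add_distrib]
  simp
  ring

/-- Operators homogeneous of degree `k`. -/
def shS (k : ℤ) : Submodule ℂ (Module.End ℂ Sp) where
  carrier := {T | ∀ w v, dB v ≠ dB w + k → T (eB w) v = 0}
  add_mem' := by
    intro S T hS hT w v h
    rw [LinearMap.add_apply, Pi.add_apply, hS w v h, hT w v h, add_zero]
  zero_mem' := by
    intro w v _
    rfl
  smul_mem' := by
    intro r T hT w v h
    rw [LinearMap.smul_apply, Pi.smul_apply, hT w v h, smul_zero]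

theorem mem_shS {k : ℤ} {T : Module.End ℂ Sp} :
    T ∈ shS k ↔ ∀ w v, dB v ≠ dB w + k → T (eB w) v = 0 := Iff.rfl

/-- The degree `i` part of the model. -/
def Sg (i : ℤ) : Submodule ℂ Sp where
  carrier := {f | ∀ w, dB w ≠ i → f w = 0}
  add_mem' := by
    intro f g hf hg w h
    rw [Pi.add_apply, hf w h, hg w h, add_zero]
  zero_mem' := by
    intro w _
    rfl
  smul_mem' := by
    intro r f hf w h
    rw [Pi.smul_apply, hf w h, smul_zero]

theorem mem_Sg {i : ℤ} {f : Sp} : f ∈ Sg i ↔ ∀ w, dB w ≠ i → f w = 0 := Iff.rfl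

theorem eB_mem_Sg (w : B) : eB w ∈ Sg (dB w) := by
  intro v hv
  rw [eB_apply, if_neg]
  rintro rfl
  exact hv rfl

theorem shS_apply {k i : ℤ} {T : Module.End ℂ Sp} (hT : T ∈ shS k) {f : Sp} (hf : f ∈ Sg i) :
    T f ∈ Sg (i + k) := by
  intro v hv
  rw [sp_eq_sum f, map_sum, Finset.sum_apply]
  refine Finset.sum_eq_zero fun w _ => ?_
  rw [map_smul, Pi.smul_apply]
  by_cases hw : dB w = i
  · rw [hT w v (by rw [hw]; exact hv), smul_zero]
  · rw [hf w hw, zero_smul]

theorem shS_mul {k l : ℤ} {S T : Module.End ℂ Sp} (hS : S ∈ shS k) (hT : T ∈ shS l) :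
    S * T ∈ shS (k + l) := by
  intro w v hv
  rw [Module.End.mul_apply]
  refine shS_apply hS (shS_apply hT (eB_mem_Sg w)) v ?_
  intro h
  exact hv (by rw [h]; ring)

theorem shS_one : (1 : Module.End ℂ Sp) ∈ shS 0 := by
  intro w v hv
  rw [Module.End.one_apply]
  exact eB_mem_Sg w v (by simpa using hv)

theorem ev_apply_ne {L : List (ℤ × ℕ)} {v : B} (h : ev L v ≠ 0) : ∃ p ∈ L, p.2 = v.code := by
  by_contra hcon
  push Not at hcon
  apply h
  unfold ev
  rw [coef_eq_zero hcon]
  simp

theorem X_mem (a : Fin 4) : (X a : Module.End ℂ Sp) ∈ shS 1 := by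
  intro w v hv
  by_contra hne
  rw [X_eB] at hne
  obtain ⟨p, hp, hpv⟩ := ev_apply_ne hne
  have h1 : p.2 < 625 := by rw [hpv]; exact v.code_lt
  have h2 : good p.2 = true := by rw [hpv]; exact v.code_good
  have h3 := dB_xr hp h1 h2
  have h4 : mkB p.2 h1 h2 = v := B.code_inj (by rw [mkB_code, hpv])
  rw [h4] at h3
  exact hv h3

theorem Y_mem (a : Fin 4) : (Y a : Module.End ℂ Sp) ∈ shS (-1) := by
  intro w v hv
  by_contra hne
  rw [Y_eB] at hne
  obtain ⟨p, hp, hpv⟩ := ev_apply_ne hne
  have h1 : p.2 < 625 := by rw [hpv]; exact v.code_lt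
  have h2 : good p.2 = true := by rw [hpv]; exact v.code_good
  have h3 := dB_yr hp h1 h2
  have h4 : mkB p.2 h1 h2 = v := B.code_inj (by rw [mkB_code, hpv])
  rw [h4] at h3
  exact hv (by rw [h3]; ring)

theorem XX_mem (ξ : Module.Dual ℂ V4) : XX ξ ∈ shS 1 :=
  Submodule.sum_mem _ fun a _ => Submodule.smul_mem _ _ (X_mem a)

theorem YY_mem (κ : ℂ) (v : V4) : YY κ v ∈ shS (-1) :=
  Submodule.sum_mem _ fun a _ => Submodule.smul_mem _ _ (Y_mem a)

theorem opM_mem (a : Fin 4 → ZMod 5) (σ : Equiv.Perm (Fin 4)) :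
    (opM a σ : Module.End ℂ Sp) ∈ shS 0 := by
  intro w v hv
  rw [opM_eB, Pi.smul_apply, eB_apply, if_neg, smul_zero]
  rintro rfl
  rw [dB_permB] at hv
  exact hv (by ring)

theorem opG_mem (g : G554) : (opG g : Module.End ℂ Sp) ∈ shS 0 := opM_mem _ _

theorem act_mem (κ : ℂ) (z : R554.Gen) : act κ z ∈ shS (R554.deg z) := by
  cases z with
  | x ξ => exact XX_mem ξ
  | y v => exact YY_mem κ v
  | w g => exact opG_mem g

/-! ### Invariants without constant term act by zero -/

theorem opM_tor_apply (a : Fin 4 → ZMod 5) (f : Sp) (v : B) :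
    opM a 1 f v = ψ (-wp v a) * f v := by
  conv_lhs => rw [sp_eq_sum f, map_sum, Finset.sum_apply]
  rw [Finset.sum_eq_single v]
  · rw [map_smul, opM_tor_eB, Pi.smul_apply, Pi.smul_apply, eB_apply, if_pos rfl]
    simp only [smul_eq_mul]
    ring
  · intro w _ hw
    rw [map_smul, opM_tor_eB, Pi.smul_apply, Pi.smul_apply, eB_apply, if_neg (Ne.symm hw),
      smul_zero, smul_zero]
  · intro h
    exact absurd (Finset.mem_univ _) h

theorem any4 {p : ℕ → Bool} (h : [0, 1, 2, 3].any p = true) : ∃ i : Fin 4, p i.val = true := by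
  simp only [List.any_cons, List.any_nil, Bool.or_eq_true, Bool.or_false] at h
  rcases h with h | h | h | h
  · exact ⟨0, h⟩
  · exact ⟨1, h⟩
  · exact ⟨2, h⟩
  · exact ⟨3, h⟩

theorem sep_of {w v : B} (h : ([0, 1, 2, 3].any fun i => [0, 1, 2, 3].any fun j => i != j &&
      ((wd w.code i + wd v.code j) % 5 != (wd v.code i + wd w.code j) % 5)) = true) :
    ∃ i j : Fin 4, wp w (dv i j 1) ≠ wp v (dv i j 1) := by
  obtain ⟨i, hi⟩ := any4 h
  obtain ⟨j, hj⟩ := any4 hi
  rw [Bool.and_eq_true, bne_iff_ne, bne_iff_ne] at hj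
  refine ⟨i, j, fun h' => hj.2 ?_⟩
  rw [wp_dv, wp_dv, mul_one, mul_one] at h'
  have h1 : u w i + u v j = u v i + u w j := by linear_combination h'
  unfold u at h1
  rw [← Nat.cast_add, ← Nat.cast_add, ZMod.natCast_eq_natCast_iff'] at h1
  exact h1

theorem sepdeg {w v : B} (h : dB w ≠ dB v) : ∃ i j : Fin 4, wp w (dv i j 1) ≠ wp v (dv i j 1) := by
  have h1 := allGood_iff.1 (allGood_iff.1 chk_sepdeg w.code w.code_lt w.code_good) v.code
    v.code_lt v.code_good
  have h2 : (dg w.code == dg v.code) = false := by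
    rw [beq_eq_false_iff_ne]
    intro h'
    exact h (by unfold dB; rw [h'])
  rw [h2, Bool.false_or] at h1
  exact sep_of h1

theorem commute_tor {T : Module.End ℂ Sp}
    (hT : ∀ g : G554, (opG g : Module.End ℂ Sp) * T = T * opG g) {w v : B} (h : dB w ≠ dB v) :
    T (eB w) v = 0 := by
  obtain ⟨i, j, hij⟩ := sepdeg h
  have h1 := hT (el (dv i j 1) 1 (dv_sum i j 1))
  have h2 := congrFun (congrArg (fun S : Module.End ℂ Sp => S (eB w)) h1) v
  simp only [Module.End.mul_apply] at h2
  rw [opG_el, opM_tor_apply, opM_tor_eB, map_smul, Pi.smul_apply, smul_eq_mul] at h2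
  have h3 : (ψ (-wp v (dv i j 1)) - ψ (-wp w (dv i j 1))) * T (eB w) v = 0 := by
    linear_combination h2
  rcases mul_eq_zero.1 h3 with h4 | h4
  · exact absurd (neg_injective (ψ_inj (sub_eq_zero.1 h4))).symm hij
  · exact h4

/-- Operators strictly changing the degree, in the sense that the diagonal blocks vanish. -/
def offS : Submodule ℂ (Module.End ℂ Sp) where
  carrier := {T | ∀ w v, dB v = dB w → T (eB w) v = 0}
  add_mem' := by
    intro S T hS hT w v h
    rw [LinearMap.add_apply, Pi.add_apply, hS w v h, hT w v h, add_zero]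
  zero_mem' := by
    intro w v _
    rfl
  smul_mem' := by
    intro r T hT w v h
    rw [LinearMap.smul_apply, Pi.smul_apply, hT w v h, smul_zero]

theorem shS_le_offS {k : ℤ} (hk : k ≠ 0) : shS k ≤ offS := by
  intro T hT w v h
  exact hT w v (by omega)

theorem zero_of_off {T : Module.End ℂ Sp}
    (hT : ∀ g : G554, (opG g : Module.End ℂ Sp) * T = T * opG g) (h : T ∈ offS) : T = 0 := by
  refine ext_eB fun w => ?_
  funext v
  by_cases hd : dB w = dB v
  · exact h w v hd.symm
  · exact commute_tor hT hd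

theorem πH_posInv {c : R554.Ref → ℂ} {c0 : ℂ} (hc : ∀ s, c s = c0) :
    ∀ z, R554.IsPosInv c z → πH hc z = 0 := by
  rintro z ⟨hz | hz, hw⟩
  · refine zero_of_off (fun g => ?_) ?_
    · have := congrArg (πH hc) (hw g)
      rw [map_mul, map_mul, πH_gen] at this
      exact this
    · clear hw
      induction hz using Submodule.span_induction with
      | mem x hx =>
        obtain ⟨l, hl, rfl⟩ := hx
        have key : ∀ l : List (Module.Dual ℂ V4),
            πH hc (l.map fun a => R554.gen c (.x a)).prod ∈ shS l.length := by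
          intro l
          induction l with
          | nil => simpa using shS_one
          | cons a l ih =>
            rw [List.map_cons, List.prod_cons, map_mul, πH_gen]
            have := shS_mul (XX_mem a) ih
            rw [List.length_cons]
            push_cast
            rw [add_comm]
            exact this
        refine shS_le_offS ?_ (key l)
        have := List.length_pos_of_ne_nil hl
        omega
      | zero => rw [map_zero]; exact Submodule.zero_mem _
      | add x y _ _ hx hy => rw [map_add]; exact Submodule.add_mem _ hx hy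
      | smul r x _ hx => rw [map_smul]; exact Submodule.smul_mem _ _ hx
  · refine zero_of_off (fun g => ?_) ?_
    · have := congrArg (πH hc) (hw g)
      rw [map_mul, map_mul, πH_gen] at this
      exact this
    · clear hw
      induction hz using Submodule.span_induction with
      | mem x hx =>
        obtain ⟨l, hl, rfl⟩ := hx
        have key : ∀ l : List V4,
            πH hc (l.map fun a => R554.gen c (.y a)).prod ∈ shS (-(l.length : ℤ)) := by
          intro l
          induction l with
          | nil => simpa using shS_one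
          | cons a l ih =>
            rw [List.map_cons, List.prod_cons, map_mul, πH_gen]
            have := shS_mul (YY_mem (5 * c0) a) ih
            rw [List.length_cons]
            push_cast
            rw [neg_add_rev]
            exact this
        refine shS_le_offS ?_ (key l)
        have := List.length_pos_of_ne_nil hl
        omega
      | zero => rw [map_zero]; exact Submodule.zero_mem _
      | add x y _ _ hx hy => rw [map_add]; exact Submodule.add_mem _ hx hy
      | smul r x _ hx => rw [map_smul]; exact Submodule.smul_mem _ _ hx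

/-- The action of the restricted algebra. -/
def πR {c : R554.Ref → ℂ} {c0 : ℂ} (hc : ∀ s, c s = c0) :
    R554.Restricted c →ₐ[ℂ] Module.End ℂ Sp := liftR (πH hc) (πH_posInv hc)

theorem πR_rgen {c : R554.Ref → ℂ} {c0 : ℂ} (hc : ∀ s, c s = c0) (z : R554.Gen) :
    πR hc (R554.rgen c z) = act (5 * c0) z := by
  unfold πR
  rw [liftR_rgen, πH_gen]

end

end Pool.Agent.Helper11.RRCA
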