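import Pool.Agent.Helper11.RRCA.Words

/-!
# The vector space on words and its operators
-/

namespace Pool.Agent.Helper11.RRCA

noncomputable section

theorem all4_iff {p : ℕ → Bool} : all4 p = true ↔ ∀ k < 4, p k = true := by
  unfold all4
  simp only [Bool.and_eq_true]
  constructor
  · rintro ⟨⟨⟨h0, h1⟩, h2⟩, h3⟩ k hk
    interval_cases k <;> assumption
  · intro h
    exact ⟨⟨⟨h 0 (by norm_num), h 1 (by norm_num)⟩, h 2 (by norm_num)⟩, h 3 (by norm_num)⟩

theorem allGood_iff {p : ℕ → Bool} :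
    allGood p = true ↔ ∀ n < 625, good n = true → p n = true := by
  unfold allGood
  rw [List.all_eq_true]
  constructor
  · intro h n hn hg
    have := h n (List.mem_range.2 hn)
    rw [hg] at this
    simpa using this
  · intro h n hn
    rw [List.mem_range] at hn
    cases hg : good n
    · rfl
    · simpa using h n hn hg

/-- The index set: good words. -/
abbrev B : Type := {n : Fin 625 // good n.val = true}

/-- The number of a word. -/
def B.code (w : B) : ℕ := w.1.val

theorem B.code_lt (w : B) : w.code < 625 := w.1.isLt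

theorem B.code_good (w : B) : good w.code = true := w.2

theorem B.code_inj {w v : B} (h : w.code = v.code) : w = v := Subtype.ext (Fin.ext h)

/-- A word from its number. -/
def mkB (n : ℕ) (h : n < 625) (hg : good n = true) : B := ⟨⟨n, h⟩, hg⟩

theorem mkB_code (n : ℕ) (h : n < 625) (hg : good n = true) : (mkB n h hg).code = n := rfl

/-- The space. -/
abbrev Sp : Type := B → ℂ

/-- The vector defined by a list of signed words. -/
def ev (L : List (ℤ × ℕ)) : Sp := fun w => ((coef L w.code : ℤ) : ℂ)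

/-- Basis vectors. -/
def eB (w : B) : Sp := Pi.single w 1

theorem eB_apply (w v : B) : eB w v = if v = w then 1 else 0 := by
  unfold eB
  rw [Pi.single_apply]

theorem coef_nil (v : ℕ) : coef [] v = 0 := rfl

theorem coef_cons (p : ℤ × ℕ) (L : List (ℤ × ℕ)) (v : ℕ) :
    coef (p :: L) v = (if p.2 = v then p.1 else 0) + coef L v := by
  simp [coef]

theorem coef_append (L₁ L₂ : List (ℤ × ℕ)) (v : ℕ) :
    coef (L₁ ++ L₂) v = coef L₁ v + coef L₂ v := by
  simp [coef]

theorem coef_eq_zero {L : List (ℤ × ℕ)} {v : ℕ} (h : ∀ p ∈ L, p.2 ≠ v) : coef L v = 0 := by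
  induction L with
  | nil => rfl
  | cons p L ih =>
    rw [coef_cons, if_neg (h p (by simp)), ih fun q hq => h q (by simp [hq]), add_zero]

theorem ev_nil : ev [] = 0 := by
  funext w; simp [ev, coef_nil]

theorem ev_append (L₁ L₂ : List (ℤ × ℕ)) : ev (L₁ ++ L₂) = ev L₁ + ev L₂ := by
  funext w; simp [ev, coef_append]

theorem ev_cons (p : ℤ × ℕ) (L : List (ℤ × ℕ)) (hp : p.2 < 625) (hg : good p.2 = true) :
    ev (p :: L) = (p.1 : ℂ) • eB (mkB p.2 hp hg) + ev L := by
  funext w
  simp only [ev, coef_cons, Pi.add_apply, Pi.smul_apply, eB_apply, smul_eq_mul]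
  by_cases h : p.2 = w.code
  · have : w = mkB p.2 hp hg := B.code_inj (by rw [mkB_code, h])
    rw [if_pos h, if_pos this]
    push_cast
    ring
  · have : w ≠ mkB p.2 hp hg := fun h' => h (by rw [h', mkB_code])
    rw [if_neg h, if_neg this]
    push_cast
    ring

theorem ev_eq_of_eqv {L₁ L₂ : List (ℤ × ℕ)} (h : eqv L₁ L₂ = true) : ev L₁ = ev L₂ := by
  funext w
  simp only [ev]
  congr 1
  by_cases hw : ∃ p ∈ L₁ ++ L₂, p.2 = w.code
  · obtain ⟨p, hp, hpw⟩ := hw
    unfold eqv at h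
    rw [List.all_eq_true] at h
    have := h p hp
    rw [beq_iff_eq, hpw] at this
    exact this
  · push Not at hw
    rw [coef_eq_zero fun p hp => hw p (List.mem_append_left _ hp),
      coef_eq_zero fun p hp => hw p (List.mem_append_right _ hp)]

theorem coef_scaleL (c : ℤ) (L : List (ℤ × ℕ)) (v : ℕ) : coef (scaleL c L) v = c * coef L v := by
  unfold scaleL
  induction L with
  | nil => simp [coef]
  | cons p L ih =>
    rw [List.map_cons, coef_cons, coef_cons, ih]
    dsimp only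
    split_ifs <;> ring

theorem ev_scaleL (c : ℤ) (L : List (ℤ × ℕ)) : ev (scaleL c L) = (c : ℂ) • ev L := by
  funext w
  simp [ev, coef_scaleL]

/-- The linear operator defined by a function from words to lists of signed words. -/
def op (r : ℕ → List (ℤ × ℕ)) : Sp →ₗ[ℂ] Sp :=
  Fintype.linearCombination ℂ (fun w : B => ev (r w.code))

theorem op_eB (r : ℕ → List (ℤ × ℕ)) (w : B) : op r (eB w) = ev (r w.code) := by
  unfold op eB
  rw [Fintype.linearCombination_apply_single, one_smul]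

/-- A list all of whose words are good. -/
def GoodL (L : List (ℤ × ℕ)) : Prop := ∀ p ∈ L, p.2 < 625 ∧ good p.2 = true

theorem lin_ev {M : Type*} [AddCommGroup M] [Module ℂ M] (f g : Sp →ₗ[ℂ] M)
    (L : List (ℤ × ℕ)) (hL : GoodL L)
    (h : ∀ p ∈ L, ∀ (h1 : p.2 < 625) (h2 : good p.2 = true),
      f (eB (mkB p.2 h1 h2)) = g (eB (mkB p.2 h1 h2))) : f (ev L) = g (ev L) := by
  induction L with
  | nil => rw [ev_nil, map_zero, map_zero]
  | cons p L ih =>
    obtain ⟨h1, h2⟩ := hL p (by simp)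
    rw [ev_cons p L h1 h2, map_add, map_add, map_smul, map_smul, h p (by simp) h1 h2,
      ih (fun q hq => hL q (by simp [hq])) fun q hq => h q (by simp [hq])]

theorem bindL_cons (p : ℤ × ℕ) (L : List (ℤ × ℕ)) (r : ℕ → List (ℤ × ℕ)) :
    bindL (p :: L) r = scaleL p.1 (r p.2) ++ bindL L r := by
  simp [bindL, scaleL]

theorem op_ev (r : ℕ → List (ℤ × ℕ)) (L : List (ℤ × ℕ)) (hL : GoodL L) :
    op r (ev L) = ev (bindL L r) := by
  induction L with
  | nil => rw [ev_nil, map_zero]; simp [bindL, ev_nil]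
  | cons p L ih =>
    obtain ⟨h1, h2⟩ := hL p (by simp)
    rw [ev_cons p L h1 h2, map_add, map_smul, op_eB, ih fun q hq => hL q (by simp [hq]),
      bindL_cons, ev_append, ev_scaleL, mkB_code]

theorem ext_eB {M : Type*} [AddCommGroup M] [Module ℂ M] {f g : Sp →ₗ[ℂ] M}
    (h : ∀ w, f (eB w) = g (eB w)) : f = g := by
  refine LinearMap.pi_ext' fun w => ?_
  ext
  simpa [eB] using h w

theorem sp_eq_sum (f : Sp) : f = ∑ w, f w • eB w := by
  funext v
  simp [eB_apply, Finset.sum_apply]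

/-- The operators `x_a`. -/
def X (a : Fin 4) : Sp →ₗ[ℂ] Sp := op (xr a.val)

/-- The operators `y_a`, for `κ = 1`. -/
def Y (a : Fin 4) : Sp →ₗ[ℂ] Sp := op (yr a.val)

theorem goodL_xr_yr (w : B) (a : Fin 4) : GoodL (xr a.val w.code) ∧ GoodL (yr a.val w.code) := by
  have h := allGood_iff.1 chk_out w.code w.code_lt w.code_good
  have h' := all4_iff.1 h a.val a.isLt
  rw [List.all_eq_true] at h'
  constructor
  · intro p hp
    have := h' p (List.mem_append_left _ hp)
    simp only [Bool.and_eq_true, decide_eq_true_eq] at this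
    exact ⟨this.2, this.1⟩
  · intro p hp
    have := h' p (List.mem_append_right _ hp)
    simp only [Bool.and_eq_true, decide_eq_true_eq] at this
    exact ⟨this.2, this.1⟩

theorem X_eB (a : Fin 4) (w : B) : X a (eB w) = ev (xr a.val w.code) := op_eB _ _

theorem Y_eB (a : Fin 4) (w : B) : Y a (eB w) = ev (yr a.val w.code) := op_eB _ _

theorem X_comm (a b : Fin 4) : X a ∘ₗ X b = X b ∘ₗ X a := by
  refine ext_eB fun w => ?_
  rw [LinearMap.comp_apply, LinearMap.comp_apply, X_eB, X_eB]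
  unfold X
  rw [op_ev _ _ (goodL_xr_yr w b).1, op_ev _ _ (goodL_xr_yr w a).1]
  have h := allGood_iff.1 chk_xx w.code w.code_lt w.code_good
  exact ev_eq_of_eqv (all4_iff.1 (all4_iff.1 h a.val a.isLt) b.val b.isLt)

theorem Y_comm (a b : Fin 4) : Y a ∘ₗ Y b = Y b ∘ₗ Y a := by
  refine ext_eB fun w => ?_
  rw [LinearMap.comp_apply, LinearMap.comp_apply, Y_eB, Y_eB]
  unfold Y
  rw [op_ev _ _ (goodL_xr_yr w b).2, op_ev _ _ (goodL_xr_yr w a).2]
  have h := allGood_iff.1 chk_yy w.code w.code_lt w.code_good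
  exact ev_eq_of_eqv (all4_iff.1 (all4_iff.1 h a.val a.isLt) b.val b.isLt)

theorem YX_comm (b a : Fin 4) (w : B) :
    Y b (X a (eB w)) - X a (Y b (eB w)) = ev (commR b.val a.val w.code) := by
  rw [Y_eB, X_eB]
  unfold X Y
  rw [op_ev _ _ (goodL_xr_yr w a).1, op_ev _ _ (goodL_xr_yr w b).2]
  have h := allGood_iff.1 chk_yx w.code w.code_lt w.code_good
  have h' := ev_eq_of_eqv (all4_iff.1 (all4_iff.1 h a.val a.isLt) b.val b.isLt)
  rw [ev_append] at h'
  rw [h']
  abel

/-! ### Digits and permutations -/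

theorem dig_lt (n k : ℕ) : dig n k < 5 := Nat.mod_lt _ (by norm_num)

/-- Assemble a number from four digits. -/
def asm (d : Fin 4 → ℕ) : ℕ := d 0 + d 1 * 5 + d 2 * 25 + d 3 * 125

theorem asm_lt {d : Fin 4 → ℕ} (hd : ∀ k, d k < 5) : asm d < 625 := by
  have h0 := hd 0
  have h1 := hd 1
  have h2 := hd 2
  have h3 := hd 3
  unfold asm
  omega

theorem dig_asm {d : Fin 4 → ℕ} (hd : ∀ k, d k < 5) (k : Fin 4) : dig (asm d) k.val = d k := by
  have h0 := hd 0
  have h1 := hd 1
  have h2 := hd 2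
  have h3 := hd 3
  unfold dig asm
  fin_cases k
  · change (d 0 + d 1 * 5 + d 2 * 25 + d 3 * 125) / 5 ^ 0 % 5 = d 0
    omega
  · change (d 0 + d 1 * 5 + d 2 * 25 + d 3 * 125) / 5 ^ 1 % 5 = d 1
    omega
  · change (d 0 + d 1 * 5 + d 2 * 25 + d 3 * 125) / 5 ^ 2 % 5 = d 2
    omega
  · change (d 0 + d 1 * 5 + d 2 * 25 + d 3 * 125) / 5 ^ 3 % 5 = d 3
    omega

theorem asm_dig {n : ℕ} (hn : n < 625) : asm (fun k => dig n k.val) = n := by
  unfold asm dig
  change n / 5 ^ 0 % 5 + n / 5 ^ 1 % 5 * 5 + n / 5 ^ 2 % 5 * 25 + n / 5 ^ 3 % 5 * 125 = n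
  omega

theorem ext_dig {n m : ℕ} (hn : n < 625) (hm : m < 625) (h : ∀ k : Fin 4, dig n k.val = dig m k.val) :
    n = m := by
  rw [← asm_dig hn, ← asm_dig hm]
  congr 1
  funext k
  exact h k

theorem cnt_eq (n d : ℕ) : cnt n d = ∑ k : Fin 4, if dig n k.val = d then 1 else 0 := by
  rw [Fin.sum_univ_four]
  rfl

/-- Permute the digits of a number. -/
def permC (σ : Equiv.Perm (Fin 4)) (n : ℕ) : ℕ := asm fun k => dig n (σ⁻¹ k).val

theorem permC_lt (σ : Equiv.Perm (Fin 4)) (n : ℕ) : permC σ n < 625 :=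
  asm_lt fun _ => dig_lt _ _

theorem dig_permC (σ : Equiv.Perm (Fin 4)) (n : ℕ) (k : Fin 4) :
    dig (permC σ n) k.val = dig n (σ⁻¹ k).val := dig_asm (fun _ => dig_lt _ _) k

theorem cnt_permC (σ : Equiv.Perm (Fin 4)) (n d : ℕ) : cnt (permC σ n) d = cnt n d := by
  rw [cnt_eq, cnt_eq]
  simp_rw [dig_permC]
  exact Equiv.sum_comp σ⁻¹ fun k : Fin 4 => if dig n k.val = d then 1 else 0

theorem good_permC (σ : Equiv.Perm (Fin 4)) (n : ℕ) : good (permC σ n) = good n := by
  unfold good
  simp_rw [cnt_permC]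

theorem permC_mul (σ τ : Equiv.Perm (Fin 4)) (n : ℕ) :
    permC (σ * τ) n = permC σ (permC τ n) := by
  refine ext_dig (permC_lt _ _) (permC_lt _ _) fun k => ?_
  rw [dig_permC, dig_permC, dig_permC, mul_inv_rev]
  rfl

theorem permC_one {n : ℕ} (hn : n < 625) : permC 1 n = n := by
  refine ext_dig (permC_lt _ _) hn fun k => ?_
  rw [dig_permC]
  rfl

/-- Permute the positions of a word. -/
def permB (σ : Equiv.Perm (Fin 4)) (w : B) : B :=
  mkB (permC σ w.code) (permC_lt _ _) (by rw [good_permC]; exact w.code_good)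

theorem permB_code (σ : Equiv.Perm (Fin 4)) (w : B) : (permB σ w).code = permC σ w.code := rfl

theorem permB_mul (σ τ : Equiv.Perm (Fin 4)) (w : B) : permB (σ * τ) w = permB σ (permB τ w) :=
  B.code_inj (by rw [permB_code, permB_code, permB_code, permC_mul])

theorem permB_one (w : B) : permB 1 w = w :=
  B.code_inj (by rw [permB_code, permC_one w.code_lt])

/-- Weight of a word at a position. -/
def u (w : B) (k : Fin 4) : ZMod 5 := (wd w.code k.val : ZMod 5)

theorem u_permB (σ : Equiv.Perm (Fin 4)) (w : B) (k : Fin 4) : u (permB σ w) k = u w (σ⁻¹ k) := by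
  unfold u wd
  rw [permB_code, dig_permC]

/-- The sign character attached to a word. -/
def chi (σ : Equiv.Perm (Fin 4)) (w : B) : ℂ :=
  if cnt w.code 0 = 2 then 1 else ((Equiv.Perm.sign σ : ℤ) : ℂ)

theorem chi_permB (σ τ : Equiv.Perm (Fin 4)) (w : B) : chi σ (permB τ w) = chi σ w := by
  unfold chi
  rw [permB_code, cnt_permC]

theorem chi_mul (σ τ : Equiv.Perm (Fin 4)) (w : B) : chi (σ * τ) w = chi σ w * chi τ w := by
  unfold chi
  split_ifs
  · ring
  · rw [Equiv.Perm.sign_mul]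
    push_cast
    ring

theorem chi_one (w : B) : chi 1 w = 1 := by
  unfold chi
  split_ifs <;> simp

/-- The additive character. -/
def ψ : AddChar (ZMod 5) ℂ := ZMod.stdAddChar

/-- The operator of a monomial matrix: first the diagonal matrix with entries `ψ (a k)`, then the
permutation matrix of `σ`. -/
def opM (a : Fin 4 → ZMod 5) (σ : Equiv.Perm (Fin 4)) : Sp →ₗ[ℂ] Sp :=
  Fintype.linearCombination ℂ (fun w : B => (ψ (-∑ k, u w k * a k) * chi σ w) • eB (permB σ w))

theorem opM_eB (a : Fin 4 → ZMod 5) (σ : Equiv.Perm (Fin 4)) (w : B) :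
    opM a σ (eB w) = (ψ (-∑ k, u w k * a k) * chi σ w) • eB (permB σ w) := by
  unfold opM
  conv_lhs => rw [eB]
  rw [Fintype.linearCombination_apply_single, one_smul]

theorem opM_mul (a b : Fin 4 → ZMod 5) (σ τ : Equiv.Perm (Fin 4)) :
    opM a σ ∘ₗ opM b τ = opM (fun k => b k + a (τ k)) (σ * τ) := by
  refine ext_eB fun w => ?_
  rw [LinearMap.comp_apply, opM_eB, opM_eB, map_smul, opM_eB, smul_smul, permB_mul, chi_permB,
    chi_mul]
  congr 1
  have h1 : ∑ k, u (permB τ w) k * a k = ∑ k, u w k * a (τ k) := by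
    simp_rw [u_permB]
    rw [← Equiv.sum_comp τ fun k => u w (τ⁻¹ k) * a k]
    simp
  have h2 : ψ (-∑ k, u w k * (b k + a (τ k))) =
      ψ (-∑ k, u w k * b k) * ψ (-∑ k, u w k * a (τ k)) := by
    rw [← AddChar.map_add_eq_mul]
    congr 1
    rw [← neg_add, ← Finset.sum_add_distrib]
    congr 1
    refine Finset.sum_congr rfl fun k _ => ?_
    ring
  rw [h1, h2]
  ring

theorem opM_one : opM 0 1 = LinearMap.id := by
  refine ext_eB fun w => ?_
  rw [opM_eB, chi_one, permB_one]
  simp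

end

end Pool.Agent.Helper11.RRCA
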