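import Mathlib

/-!
# The combinatorial module

Words of length four in the letters `0, 1, 2, 3, 4`, encoded as numbers in base five.
-/

namespace Pool.Agent.Helper11.RRCA

/-- The digit in position `k`. -/
def dig (n k : ℕ) : ℕ := n / 5 ^ k % 5

/-- Replace the digit in position `k` by `d`. -/
def setd (n k d : ℕ) : ℕ := n + d * 5 ^ k - dig n k * 5 ^ k

/-- Number of digits equal to `d`. -/
def cnt (n d : ℕ) : ℕ :=
  (if dig n 0 = d then 1 else 0) + (if dig n 1 = d then 1 else 0) +
    (if dig n 2 = d then 1 else 0) + (if dig n 3 = d then 1 else 0)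

/-- First position of the digit `d`. -/
def posOf (n d : ℕ) : ℕ :=
  if dig n 0 = d then 0 else if dig n 1 = d then 1 else if dig n 2 = d then 2 else 3

/-- First position of the digit `d` other than `k`. -/
def posOther (n d k : ℕ) : ℕ :=
  if dig n 0 = d ∧ k ≠ 0 then 0 else if dig n 1 = d ∧ k ≠ 1 then 1 else
    if dig n 2 = d ∧ k ≠ 2 then 2 else 3

/-- The admissible words. -/
def good (n : ℕ) : Bool :=
  let c := (cnt n 0, cnt n 1, cnt n 2, cnt n 3, cnt n 4)
  c == (2, 1, 1, 0, 0) || c == (2, 0, 1, 1, 0) || c == (2, 0, 1, 0, 1) || c == (1, 2, 1, 0, 0) ||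
    c == (1, 1, 1, 1, 0) || c == (1, 0, 1, 2, 0) || c == (1, 1, 1, 0, 1) || c == (1, 0, 0, 2, 1)

/-- Weight of a letter. -/
def wt (d : ℕ) : ℕ := if d = 4 then 3 else if d = 3 then 2 else d

/-- Weight of position `k`. -/
def wd (n k : ℕ) : ℕ := wt (dig n k)

/-- Degree of a word. -/
def dg (n : ℕ) : ℕ := wd n 0 + wd n 1 + wd n 2 + wd n 3 - 3

/-- Sign of a comparison. -/
def cs (i j : ℕ) : ℤ := if i < j then 1 else -1

/-- Sign of the permutation `0, 1, 2, 3 ↦ z, t, a, r`. -/
def sgn4 (z t a r : ℕ) : ℤ := cs z t * cs z a * cs z r * cs t a * cs t r * cs a r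

/-- The operators `x_a` on words. -/
def xr (a n : ℕ) : List (ℤ × ℕ) :=
  let d := dig n a
  if d = 0 then
    if cnt n 0 = 2 then
      let z := posOther n 0 a
      let t := posOf n 2
      [(sgn4 z t a (6 - z - t - a), setd n a 1)]
    else []
  else if d = 1 then
    if cnt n 4 = 1 then [(1, setd (setd n (posOf n 2) 3) a 3)] else [(1, setd n a 3)]
  else if d = 3 then
    if cnt n 4 = 1 then [] else
    if cnt n 3 = 2 then [(1, setd (setd n (posOf n 2) 3) a 4)] else [(1, setd n a 4)]
  else []

/-- The operators `y_a` on words (for `κ = 1`). -/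
def yr (a n : ℕ) : List (ℤ × ℕ) :=
  let d := dig n a
  if d = 1 then
    if cnt n 0 = 1 then
      let z := posOf n 0
      let t := posOf n 2
      [(-sgn4 z t a (6 - z - t - a), setd n a 0)]
    else []
  else if d = 2 then
    let s : ℤ := if cnt n 0 = 2 then 1 else -1
    if cnt n 3 = 1 then [(s, setd (setd n a 1) (posOf n 3) 2)] else
    if cnt n 3 = 2 then
      let p := posOf n 3
      let q := posOther n 3 p
      [(s, setd (setd n a 1) p 2), (s, setd (setd n a 1) q 2)]
    else []
  else if d = 3 then
    if cnt n 3 = 2 then
      if cnt n 4 = 1 then [(-1, setd (setd n a 1) (posOther n 3 a) 2)]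
      else [(-1, setd n a 1)]
    else []
  else if d = 4 then
    if cnt n 3 = 2 then [(1, setd n a 2)] else
      [((if cnt n 0 = 2 then -1 else 1), setd (setd n a 2) (posOf n 2) 3)]
  else []

/-- Exchange the digits in positions `i` and `j`. -/
def swapC (i j n : ℕ) : ℕ := setd (setd n i (dig n j)) j (dig n i)

/-- The sign by which a transposition acts, in addition to permuting positions. -/
def ts (n : ℕ) : ℤ := if cnt n 0 = 2 then 1 else -1

/-- Coefficient of a word in a list of signed words. -/
def coef (L : List (ℤ × ℕ)) (v : ℕ) : ℤ := (L.map fun p => if p.2 = v then p.1 else 0).sum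

/-- Compose. -/
def bindL (L : List (ℤ × ℕ)) (r : ℕ → List (ℤ × ℕ)) : List (ℤ × ℕ) :=
  L.flatMap fun p => (r p.2).map fun q => (p.1 * q.1, q.2)

/-- Scale. -/
def scaleL (c : ℤ) (L : List (ℤ × ℕ)) : List (ℤ × ℕ) := L.map fun q => (c * q.1, q.2)

/-- Test whether two lists define the same vector. -/
def eqv (L₁ L₂ : List (ℤ × ℕ)) : Bool := (L₁ ++ L₂).all fun p => coef L₁ p.2 == coef L₂ p.2

/-- Apply a test to all good words. -/
def allGood (p : ℕ → Bool) : Bool := (List.range 625).all fun n => !good n || p n

/-- Apply a test to all positions. -/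
def all4 (p : ℕ → Bool) : Bool := p 0 && p 1 && p 2 && p 3

theorem card_good : ((List.range 625).filter good).length = 120 := by decide +kernel

theorem chk_out : allGood (fun n => all4 fun a =>
    (xr a n ++ yr a n).all fun p => good p.2 && decide (p.2 < 625)) = true := by decide +kernel

theorem chk_xx : allGood (fun n => all4 fun a => all4 fun b =>
    eqv (bindL (xr b n) (xr a)) (bindL (xr a n) (xr b))) = true := by decide +kernel

theorem chk_yy : allGood (fun n => all4 fun a => all4 fun b =>
    eqv (bindL (yr b n) (yr a)) (bindL (yr a n) (yr b))) = true := by decide +kernel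

/-- The right-hand side of the commutation relation of `y_b` and `x_a`. -/
def commR (b a n : ℕ) : List (ℤ × ℕ) :=
  if a = b then
    ([0, 1, 2, 3].filter fun j => decide (j ≠ b) && decide (wd n j = wd n b)).map
      fun j => (-ts n, swapC b j n)
  else if wd n b = wd n a + 1 then [(ts n, swapC b a n)] else []

theorem chk_yx : allGood (fun n => all4 fun a => all4 fun b =>
    eqv (bindL (xr a n) (yr b)) (bindL (yr b n) (xr a) ++ commR b a n)) = true := by
  decide +kernel

/-- The transposition of `i` and `j` applied to `a`. -/
def sw (i j a : ℕ) : ℕ := if a = i then j else if a = j then i else a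

theorem chk_sx : allGood (fun n => all4 fun i => all4 fun j => i == j || all4 fun a =>
    eqv ((xr a n).map fun p => (p.1 * ts p.2, swapC i j p.2))
      (scaleL (ts n) (xr (sw i j a) (swapC i j n)))) = true := by decide +kernel

theorem chk_sy : allGood (fun n => all4 fun i => all4 fun j => i == j || all4 fun a =>
    eqv ((yr a n).map fun p => (p.1 * ts p.2, swapC i j p.2))
      (scaleL (ts n) (yr (sw i j a) (swapC i j n)))) = true := by decide +kernel

theorem chk_wx : allGood (fun n => all4 fun a => (xr a n).all fun p => all4 fun k =>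
    wd p.2 k == wd n k + (if k = a then 1 else 0)) = true := by decide +kernel

theorem chk_wy : allGood (fun n => all4 fun a => (yr a n).all fun p => all4 fun k =>
    wd p.2 k + (if k = a then 1 else 0) == wd n k) = true := by decide +kernel

/-- Degrees. -/
theorem chk_dg : allGood (fun n => decide (3 ≤ wd n 0 + wd n 1 + wd n 2 + wd n 3) &&
    decide (dg n ≤ 4)) = true := by decide +kernel

/-- Every word of positive degree is, up to sign, obtained by some `x_a`. -/
theorem chk_gen : allGood (fun n => dg n == 0 || [0, 1, 2, 3].any fun a =>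
    (List.range 625).any fun v => good v &&
      (xr a v == [(1, n)] || xr a v == [(-1, n)])) = true := by decide +kernel

/-- In degree zero the `y_a` vanish. -/
theorem chk_y0 : allGood (fun n => dg n != 0 || all4 fun a => yr a n == []) = true := by
  decide +kernel

/-- A certificate for the injectivity of the collection of the `y_b` on the word `n`: a list of
triples `(e, b, v)`. -/
def cert (n : ℕ) : List (ℤ × ℕ × ℕ) :=
  if cnt n 0 = 1 ∧ cnt n 3 = 2 ∧ cnt n 4 = 0 then
    let t := posOf n 2
    let p := posOf n 3
    let q := posOther n 3 p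
    [(-1, t, setd (setd n t 1) p 2), (-1, t, setd (setd n t 1) q 2),
      (1, p, setd (setd (setd n p 1) q 2) t 3)]
  else
    let b := if cnt n 0 = 1 ∧ 1 ≤ cnt n 1 then posOf n 1 else
      if cnt n 4 = 1 then posOf n 4 else posOf n 2
    (yr b n).map fun p => (2 * p.1, b, p.2)

theorem chk_cert : allGood (fun n => dg n == 0 || allGood fun n' =>
    (((cert n).map fun p => p.1 * coef (yr p.2.1 n') p.2.2).sum ==
      if n' = n then 2 else 0)) = true := by decide +kernel

theorem chk_cert_good : allGood (fun n => (cert n).all fun p =>
    good p.2.2 && decide (p.2.2 < 625) && decide (p.2.1 < 4)) = true := by decide +kernel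

/-- In degree zero, different words are separated by differences of weights. -/
theorem chk_sep : allGood (fun n => dg n != 0 || allGood fun n' => dg n' != 0 || n == n' ||
    [0, 1, 2, 3].any fun i => [0, 1, 2, 3].any fun j => i != j &&
      ((wd n i + wd n' j) % 5 != (wd n' i + wd n j) % 5)) = true := by decide +kernel

/-- Any two words of degree zero are related by at most three transpositions. -/
theorem chk_trans : allGood (fun n => dg n != 0 || allGood fun n' => dg n' != 0 ||
    [0, 1, 2, 3].any fun i => [0, 1, 2, 3].any fun j =>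
      [0, 1, 2, 3].any fun k => [0, 1, 2, 3].any fun l =>
        [0, 1, 2, 3].any fun p => [0, 1, 2, 3].any fun q =>
          swapC i j (swapC k l (swapC p q n)) == n') = true := by decide +kernel

/-- The operators commuting with the torus preserve degrees: words of different degrees are
separated by differences of weights. -/
theorem chk_sepdeg : allGood (fun n => allGood fun n' => dg n == dg n' ||
    [0, 1, 2, 3].any fun i => [0, 1, 2, 3].any fun j => i != j &&
      ((wd n i + wd n' j) % 5 != (wd n' i + wd n j) % 5)) = true := by decide +kernel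

end Pool.Agent.Helper11.RRCA
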